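import Pool.Agent.Lib.MP_a271d0_an.Hardy

-- part Pool.Agent.Lib.MP_a271d0_an.Picone
section

set_option autoImplicit false
open MeasureTheory Filter Topology Set

namespace Pool.Agent.Lib.MP_a271d0_an

/-- test functions -/
def IsTest (Ω : Set E3) (ψ : E3 → ℝ) : Prop :=
  ContDiff ℝ ((⊤ : ℕ∞) : WithTop ℕ∞) ψ ∧ HasCompactSupport ψ ∧ tsupport ψ ⊆ Ω

theorem IsTest.c1 {Ω : Set E3} {ψ : E3 → ℝ} (h : IsTest Ω ψ) : ContDiff ℝ 1 ψ :=
  h.1.of_le (by exact_mod_cast le_top)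

/-- the weight, norm to the power three halves -/
noncomputable def W (x : E3) : ℝ := (√‖x‖) ^ 3

theorem W_nonneg (x : E3) : 0 ≤ W x := by unfold W; positivity

theorem W_meas : Measurable W := by unfold W; fun_prop

theorem W_eq (x : E3) : ‖x‖ ^ (3 / 2 : ℝ) = W x := by
  unfold W
  rw [Real.sqrt_eq_rpow, ← Real.rpow_natCast, ← Real.rpow_mul (norm_nonneg _)]
  norm_num

/-- The data of a positive weak solution with an almost everywhere convergent approximation. -/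
structure Sol (Ω : Set E3) (u : E3 → ℝ) (G : E3 → E3) (φ : ℕ → E3 → ℝ) : Prop where
  test : ∀ n, IsTest Ω (φ n)
  uL2 : MemLp u 2 volume
  GL2 : MemLp G 2 volume
  cu : Tendsto (fun n => ∫ x, (φ n x - u x) ^ 2) atTop (𝓝 0)
  cG : Tendsto (fun n => ∫ x, ‖gradient (φ n) x - G x‖ ^ 2) atTop (𝓝 0)
  aeu : ∀ᵐ x, Tendsto (fun n => φ n x) atTop (𝓝 (u x))
  aeG : ∀ᵐ x, Tendsto (fun n => gradient (φ n) x) atTop (𝓝 (G x))
  pos : ∀ᵐ x, x ∈ Ω → 0 < u x
  eq : ∀ ψ, IsTest Ω ψ →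
    Integrable (fun x => inner ℝ (G x) (gradient ψ x)) ∧
    Integrable (fun x => u x ^ 3 * ψ x) ∧
    Integrable (fun x => u x ^ 2 * ψ x / W x) ∧
    ∫ x, (inner ℝ (G x) (gradient ψ x) + u x ^ 3 * ψ x - u x ^ 2 * ψ x / W x) = 0

theorem exists_g {ε : ℝ} (hε : 0 < ε) : ∃ g : ℝ → ℝ,
    ContDiff ℝ ((⊤ : ℕ∞) : WithTop ℕ∞) g ∧
    (∃ C : ℝ, 0 ≤ C ∧ (∀ t, |g t| ≤ C) ∧ ∀ t, |deriv g t| ≤ C) ∧
    ∀ t, 0 < t → g t = (t + ε)⁻¹ ∧ deriv g t = -((t + ε)⁻¹) ^ 2 := by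
  set D : ℝ → ℝ := fun t => ε + t * Real.smoothTransition (2 * t / ε + 1) with hD
  have hDs : ContDiff ℝ ((⊤ : ℕ∞) : WithTop ℕ∞) D := by
    have h1 : ContDiff ℝ ((⊤ : ℕ∞) : WithTop ℕ∞)
        (fun t : ℝ => Real.smoothTransition (2 * t / ε + 1)) :=
      Real.smoothTransition.contDiff.comp (by fun_prop)
    exact contDiff_const.add (contDiff_id.mul h1)
  have hpos : ∀ t, 0 ≤ t → D t = t + ε := by
    intro t ht
    simp only [hD]
    rw [Real.smoothTransition.one_of_one_le (by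
      have : 0 ≤ 2 * t / ε := by positivity
      linarith)]
    ring
  have hneg : ∀ t, t ≤ -ε / 2 → D t = ε := by
    intro t ht
    simp only [hD]
    rw [Real.smoothTransition.zero_of_nonpos (by
      have : 2 * t / ε ≤ -1 := by rw [div_le_iff₀ hε]; linarith
      linarith)]
    ring
  have hlow : ∀ t, ε / 2 ≤ D t := by
    intro t
    rcases le_total 0 t with h | h
    · rw [hpos t h]; linarith
    rcases le_total t (-ε / 2) with h' | h'
    · rw [hneg t h']; linarith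
    simp only [hD]
    have h1 := Real.smoothTransition.nonneg (2 * t / ε + 1)
    have h2 := Real.smoothTransition.le_one (2 * t / ε + 1)
    nlinarith
  have hDpos : ∀ t, 0 < D t := fun t => lt_of_lt_of_le (by positivity) (hlow t)
  set g : ℝ → ℝ := fun t => (D t)⁻¹ with hg
  have hgs : ContDiff ℝ ((⊤ : ℕ∞) : WithTop ℕ∞) g := hDs.inv (fun t => (hDpos t).ne')
  have hder : ∀ t, 0 < t → deriv g t = -((t + ε)⁻¹) ^ 2 := by
    intro t ht
    have he : g =ᶠ[𝓝 t] fun s => (s + ε)⁻¹ := by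
      filter_upwards [lt_mem_nhds ht] with s hs
      simp only [hg, hpos s hs.le]
    rw [he.deriv_eq]
    have h1 : HasDerivAt (fun s : ℝ => s + ε) 1 t := (hasDerivAt_id t).add_const ε
    have h2 := h1.inv (by positivity)
    have h3 : HasDerivAt (fun s : ℝ => (s + ε)⁻¹) (-1 / (t + ε) ^ 2) t := h2
    rw [h3.deriv]
    field_simp
  have hder0 : ∀ t, t < -ε / 2 → deriv g t = 0 := by
    intro t ht
    have he : g =ᶠ[𝓝 t] fun _ => ε⁻¹ := by
      filter_upwards [gt_mem_nhds ht] with s hs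
      simp only [hg, hneg s hs.le]
    rw [he.deriv_eq]
    simp
  have hcd : Continuous (deriv g) := hgs.continuous_deriv (by exact_mod_cast le_top)
  obtain ⟨C1, hC1⟩ := (isCompact_Icc (a := -ε) (b := 1)).exists_bound_of_continuousOn
    hcd.continuousOn
  refine ⟨g, hgs, ⟨max (max C1 (ε⁻¹ ^ 2)) (2 / ε), ?_, fun t => ?_, fun t => ?_⟩, fun t ht => ⟨?_, hder t ht⟩⟩
  · exact le_max_of_le_right (by positivity)
  · refine le_max_of_le_right ?_
    simp only [hg]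
    rw [abs_of_pos (inv_pos.2 (hDpos t))]
    calc (D t)⁻¹ ≤ (ε / 2)⁻¹ := inv_anti₀ (by positivity) (hlow t)
      _ = 2 / ε := by simp
  · refine le_max_of_le_left ?_
    rcases lt_or_ge 0 t with h | h
    · refine le_max_of_le_right ?_
      rw [hder t h, abs_neg, abs_of_nonneg (by positivity)]
      have : (t + ε)⁻¹ ≤ ε⁻¹ := inv_anti₀ hε (by linarith)
      gcongr
    rcases lt_or_ge t (-ε / 2) with h' | h'
    · rw [hder0 t h', abs_zero]
      exact le_max_of_le_right (by positivity)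
    · exact le_max_of_le_left (hC1 t ⟨by linarith, by linarith⟩)
  · simp only [hg, hpos t ht.le]

theorem inner_grad_theta {ψ φ : E3 → ℝ} {g : ℝ → ℝ} (hψ : ContDiff ℝ 1 ψ) (hφ : ContDiff ℝ 1 φ)
    (hg : ContDiff ℝ 1 g) (x y : E3) :
    inner ℝ y (gradient (fun z => ψ z ^ 2 * g (φ z)) x)
      = 2 * ψ x * g (φ x) * inner ℝ y (gradient ψ x)
        + ψ x ^ 2 * deriv g (φ x) * inner ℝ y (gradient φ x) := by
  have h1 : HasFDerivAt ψ (fderiv ℝ ψ x) x := (hψ.differentiable one_ne_zero x).hasFDerivAt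
  have h2 : HasFDerivAt φ (fderiv ℝ φ x) x := (hφ.differentiable one_ne_zero x).hasFDerivAt
  have h3 : HasDerivAt g (deriv g (φ x)) (φ x) := (hg.differentiable one_ne_zero _).hasDerivAt
  have h4 := h3.comp_hasFDerivAt x h2
  have h5 := (h1.pow 2).mul h4
  have h6 : fderiv ℝ (fun z => ψ z ^ 2 * g (φ z)) x = _ := h5.fderiv
  simp only [inner_gradient_right, conj_trivial, h6]
  simp
  ring

theorem exists_bound_test {Ω : Set E3} {ψ : E3 → ℝ} (h : IsTest Ω ψ) :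
    ∃ M : ℝ, 0 ≤ M ∧ ∀ x, |ψ x| ≤ M := by
  obtain ⟨M, hM⟩ := h.c1.continuous.bounded_above_of_compact_support h.2.1
  exact ⟨M, (norm_nonneg _).trans (hM 0), hM⟩

theorem Sol.intD {Ω : Set E3} {u : E3 → ℝ} {G : E3 → E3} {φ : ℕ → E3 → ℝ} (S : Sol Ω u G φ)
    (n : ℕ) : Integrable (fun x => ‖gradient (φ n) x - G x‖ ^ 2) := by
  have h : MemLp (fun x => gradient (φ n) x - G x) 2 volume :=
    (memLp_grad (S.test n).c1 (S.test n).2.1).sub S.GL2
  exact (memLp_two_iff_integrable_sq_norm h.1).1 h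

theorem Sol.intG {Ω : Set E3} {u : E3 → ℝ} {G : E3 → E3} {φ : ℕ → E3 → ℝ} (S : Sol Ω u G φ) :
    Integrable (fun x => ‖G x‖ ^ 2) :=
  (memLp_two_iff_integrable_sq_norm S.GL2.1).1 S.GL2

theorem Sol.picone_eps {Ω : Set E3} {u : E3 → ℝ} {G : E3 → E3} {φ : ℕ → E3 → ℝ}
    (S : Sol Ω u G φ) {ψ : E3 → ℝ} (hψ : IsTest Ω ψ) {ε : ℝ} (hε : 0 < ε) :
    Integrable (fun x => u x ^ 2 * ψ x ^ 2 * (u x + ε)⁻¹ / W x) ∧
    ∫ x, u x ^ 2 * ψ x ^ 2 * (u x + ε)⁻¹ / W x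
      ≤ (∫ x, ‖gradient ψ x‖ ^ 2) + ∫ x, u x ^ 2 * ψ x ^ 2 := by
  obtain ⟨g, hgs, ⟨C, hC0, hC1, hC2⟩, hgp⟩ := exists_g hε
  obtain ⟨M, hM0, hM⟩ := exists_bound_test hψ
  have hg1 : ContDiff ℝ 1 g := hgs.of_le (by exact_mod_cast le_top)
  have hcd : Continuous (deriv g) := hgs.continuous_deriv (by exact_mod_cast le_top)
  have hθ : ∀ n, IsTest Ω (fun z => ψ z ^ 2 * g (φ n z)) := by
    intro n
    refine ⟨(hψ.1.pow 2).mul (hgs.comp (S.test n).1), ?_, ?_⟩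
    · have h2 : HasCompactSupport ((fun y : ℝ => y ^ 2) ∘ ψ) := hψ.2.1.comp_left (by simp)
      exact h2.mul_right
    · refine Subset.trans (closure_mono ?_) hψ.2.2
      intro z hz hz'
      apply hz
      simp [hz']
  obtain ⟨i1, i2, i3, -⟩ := S.eq ψ hψ
  set F : ℕ → E3 → ℝ := fun n x =>
    inner ℝ (G x) (gradient (fun z => ψ z ^ 2 * g (φ n z)) x)
      + u x ^ 3 * (ψ x ^ 2 * g (φ n x)) - u x ^ 2 * (ψ x ^ 2 * g (φ n x)) / W x with hF
  set Fl : E3 → ℝ := fun x =>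
    2 * ψ x * g (u x) * inner ℝ (G x) (gradient ψ x)
        + ψ x ^ 2 * deriv g (u x) * inner ℝ (G x) (G x)
      + u x ^ 3 * (ψ x ^ 2 * g (u x)) - u x ^ 2 * (ψ x ^ 2 * g (u x)) / W x with hFl
  set a : E3 → ℝ := fun x =>
    (2 * M * C) * |inner ℝ (G x) (gradient ψ x)| + (2 * M ^ 2 * C) * ‖G x‖ ^ 2
      + (M * C) * |u x ^ 3 * ψ x| + (M * C) * |u x ^ 2 * ψ x / W x| with ha
  have hai : Integrable a :=
    (((i1.abs.const_mul _).add (S.intG.const_mul _)).add (i2.abs.const_mul _)).add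
      (i3.abs.const_mul _)
  have hFi : ∀ n, Integrable (F n) := fun n =>
    ((S.eq _ (hθ n)).1.add (S.eq _ (hθ n)).2.1).sub (S.eq _ (hθ n)).2.2.1
  have hF0 : ∀ n, ∫ x, F n x = 0 := fun n => (S.eq _ (hθ n)).2.2.2
  have bnd : ∀ (x : E3) (t : ℝ) (y : E3),
      |2 * ψ x * g t * inner ℝ (G x) (gradient ψ x)
        + ψ x ^ 2 * deriv g t * inner ℝ (G x) y
      + u x ^ 3 * (ψ x ^ 2 * g t) - u x ^ 2 * (ψ x ^ 2 * g t) / W x|
        ≤ a x + (M ^ 2 * C) * ‖y - G x‖ ^ 2 := by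
    intro x t y
    have e1 : |2 * ψ x * g t * inner ℝ (G x) (gradient ψ x)|
        ≤ (2 * M * C) * |inner ℝ (G x) (gradient ψ x)| := by
      rw [abs_mul, abs_mul, abs_mul, abs_two]
      have := hM x; have := hC1 t
      gcongr
    have e2 : |ψ x ^ 2 * deriv g t * inner ℝ (G x) y|
        ≤ (2 * M ^ 2 * C) * ‖G x‖ ^ 2 + (M ^ 2 * C) * ‖y - G x‖ ^ 2 := by
      rw [abs_mul, abs_mul, abs_pow]
      have h1 := hM x; have h2 := hC2 t
      have h3 : |inner ℝ (G x) y| ≤ 2 * ‖G x‖ ^ 2 + ‖y - G x‖ ^ 2 := by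
        have h4 := abs_real_inner_le_norm (G x) y
        have h5 : ‖y‖ ≤ ‖G x‖ + ‖y - G x‖ := by
          simpa using norm_add_le (G x) (y - G x)
        have h6 : ‖G x‖ * ‖y‖ ≤ ‖G x‖ * (‖G x‖ + ‖y - G x‖) := by gcongr
        nlinarith [sq_nonneg (‖G x‖ - ‖y - G x‖), norm_nonneg (G x), norm_nonneg (y - G x)]
      calc |ψ x| ^ 2 * |deriv g t| * |inner ℝ (G x) y|
          ≤ M ^ 2 * C * (2 * ‖G x‖ ^ 2 + ‖y - G x‖ ^ 2) := by gcongr
        _ = _ := by ring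
    have e3 : |u x ^ 3 * (ψ x ^ 2 * g t)| ≤ (M * C) * |u x ^ 3 * ψ x| := by
      have : u x ^ 3 * (ψ x ^ 2 * g t) = (ψ x * g t) * (u x ^ 3 * ψ x) := by ring
      rw [this, abs_mul, abs_mul]
      have := hM x; have := hC1 t
      gcongr
    have e4 : |u x ^ 2 * (ψ x ^ 2 * g t) / W x| ≤ (M * C) * |u x ^ 2 * ψ x / W x| := by
      have : u x ^ 2 * (ψ x ^ 2 * g t) / W x = (ψ x * g t) * (u x ^ 2 * ψ x / W x) := by ring
      rw [this, abs_mul, abs_mul]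
      have := hM x; have := hC1 t
      gcongr
    simp only [ha]
    have t1 := abs_sub (2 * ψ x * g t * inner ℝ (G x) (gradient ψ x)
        + ψ x ^ 2 * deriv g t * inner ℝ (G x) y
      + u x ^ 3 * (ψ x ^ 2 * g t)) (u x ^ 2 * (ψ x ^ 2 * g t) / W x)
    have t2 := abs_add_le (2 * ψ x * g t * inner ℝ (G x) (gradient ψ x)
        + ψ x ^ 2 * deriv g t * inner ℝ (G x) y) (u x ^ 3 * (ψ x ^ 2 * g t))
    have t3 := abs_add_le (2 * ψ x * g t * inner ℝ (G x) (gradient ψ x))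
        (ψ x ^ 2 * deriv g t * inner ℝ (G x) y)
    linarith
  have hFeq : ∀ n x, F n x = 2 * ψ x * g (φ n x) * inner ℝ (G x) (gradient ψ x)
        + ψ x ^ 2 * deriv g (φ n x) * inner ℝ (G x) (gradient (φ n) x)
      + u x ^ 3 * (ψ x ^ 2 * g (φ n x)) - u x ^ 2 * (ψ x ^ 2 * g (φ n x)) / W x := by
    intro n x
    simp only [hF]
    rw [inner_grad_theta hψ.c1 (S.test n).c1 hg1]
  have hlim : ∀ᵐ x, Tendsto (fun n => F n x) atTop (𝓝 (Fl x)) := by
    filter_upwards [S.aeu, S.aeG] with x h1 h2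
    simp only [hFeq, hFl]
    have h3 : Tendsto (fun n => g (φ n x)) atTop (𝓝 (g (u x))) :=
      (hg1.continuous.tendsto _).comp h1
    have h4 : Tendsto (fun n => deriv g (φ n x)) atTop (𝓝 (deriv g (u x))) :=
      (hcd.tendsto _).comp h1
    have h5 : Tendsto (fun n => inner ℝ (G x) (gradient (φ n) x)) atTop
        (𝓝 (inner ℝ (G x) (G x))) := tendsto_const_nhds.inner h2
    exact ((((h3.const_mul _).mul_const _).add ((h4.const_mul _).mul h5)).add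
      ((h3.const_mul _).const_mul _)).sub (((h3.const_mul _).const_mul _).div_const _)
  have hFla : ∀ x, |Fl x| ≤ a x := by
    intro x
    have := bnd x (u x) (G x)
    rw [sub_self, norm_zero, zero_pow two_ne_zero, mul_zero, add_zero] at this
    exact this
  have hconv : Tendsto (fun n => ∫ x, F n x) atTop (𝓝 (∫ x, Fl x)) := by
    refine gdct (a := a) (b := fun n x => (M ^ 2 * C) * ‖gradient (φ n) x - G x‖ ^ 2)
      (fun n => (hFi n).1) hai (fun n => (S.intD n).const_mul _)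
      (fun n => ae_of_all _ (fun x => by positivity))
      (fun n => ae_of_all _ (fun x => ?_)) (ae_of_all _ hFla) hlim ?_
    · rw [hFeq]; exact bnd x _ _
    · simp_rw [integral_const_mul]
      simpa using S.cG.const_mul (M ^ 2 * C)
  have hFl0 : ∫ x, Fl x = 0 := by
    simp only [hF0] at hconv
    exact tendsto_nhds_unique hconv tendsto_const_nhds |>.symm ▸ rfl
  have hFlm : AEStronglyMeasurable Fl volume :=
    aestronglyMeasurable_of_tendsto_ae atTop (fun n => (hFi n).1) hlim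
  have hFli : Integrable Fl := hai.mono' hFlm (ae_of_all _ hFla)
  have hu2 : Integrable (fun x => u x ^ 2) := S.uL2.integrable_sq
  have hum : AEMeasurable u volume := S.uL2.1.aemeasurable
  have hψm : Measurable ψ := hψ.c1.continuous.measurable
  have hWm := W_meas
  have huψ : Integrable (fun x => u x ^ 2 * ψ x ^ 2) := by
    refine (hu2.mul_const (M ^ 2)).mono' ?_ (ae_of_all _ (fun x => ?_))
    · apply AEMeasurable.aestronglyMeasurable
      fun_prop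
    · rw [Real.norm_eq_abs, abs_mul, abs_pow (ψ x), abs_of_nonneg (sq_nonneg _)]
      have := hM x
      gcongr
  have hpt : ∀ᵐ x, 0 ≤ u x ^ 2 * ψ x ^ 2 * (u x + ε)⁻¹ / W x ∧
      u x ^ 2 * ψ x ^ 2 * (u x + ε)⁻¹ / W x
        ≤ ‖gradient ψ x‖ ^ 2 + u x ^ 2 * ψ x ^ 2 - Fl x := by
    filter_upwards [S.pos] with x hx
    by_cases h0 : ψ x = 0
    · simp [hFl, h0]
    have hxΩ : x ∈ Ω := hψ.2.2 (subset_tsupport ψ h0)
    have hu := hx hxΩ
    have hW := W_nonneg x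
    refine ⟨by positivity, ?_⟩
    simp only [hFl, (hgp _ hu).1, (hgp _ hu).2]
    set γ := (u x + ε)⁻¹ with hγ
    have hγ0 : 0 < γ := by positivity
    have hγ1 : u x * γ ≤ 1 := by
      rw [hγ, ← div_eq_mul_inv, div_le_one (by positivity)]; linarith
    have h1 : 0 ≤ ‖gradient ψ x - (ψ x * γ) • G x‖ ^ 2 := by positivity
    rw [norm_sub_sq_real, inner_smul_right, norm_smul, mul_pow, Real.norm_eq_abs, sq_abs,
      real_inner_comm] at h1
    rw [real_inner_self_eq_norm_sq]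
    have h2 : u x ^ 3 * (ψ x ^ 2 * γ) ≤ u x ^ 2 * ψ x ^ 2 := by
      have : u x ^ 3 * (ψ x ^ 2 * γ) = (u x ^ 2 * ψ x ^ 2) * (u x * γ) := by ring
      rw [this]
      exact mul_le_of_le_one_right (by positivity) hγ1
    have h3 : u x ^ 2 * (ψ x ^ 2 * γ) / W x = u x ^ 2 * ψ x ^ 2 * γ / W x := by ring
    rw [h3]
    nlinarith
  have hR : Integrable (fun x => ‖gradient ψ x‖ ^ 2 + u x ^ 2 * ψ x ^ 2 - Fl x) :=
    ((int_grad_sq hψ.c1 hψ.2.1).add huψ).sub hFli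
  have hL : Integrable (fun x => u x ^ 2 * ψ x ^ 2 * (u x + ε)⁻¹ / W x) := by
    refine hR.mono' ?_ ?_
    · apply AEMeasurable.aestronglyMeasurable
      fun_prop
    · filter_upwards [hpt] with x hx
      rw [Real.norm_eq_abs, abs_of_nonneg hx.1]
      exact hx.2
  refine ⟨hL, ?_⟩
  have := integral_mono_ae hL hR (hpt.mono (fun x hx => hx.2))
  have hS : Integrable (fun x => ‖gradient ψ x‖ ^ 2 + u x ^ 2 * ψ x ^ 2) :=
    (int_grad_sq hψ.c1 hψ.2.1).add huψ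
  rw [integral_sub hS hFli, hFl0,
    integral_add (int_grad_sq hψ.c1 hψ.2.1) huψ] at this
  simpa using this

theorem Sol.picone {Ω : Set E3} {u : E3 → ℝ} {G : E3 → E3} {φ : ℕ → E3 → ℝ}
    (S : Sol Ω u G φ) {ψ : E3 → ℝ} (hψ : IsTest Ω ψ) :
    Integrable (fun x => u x * ψ x ^ 2 / W x) ∧
    ∫ x, u x * ψ x ^ 2 / W x
      ≤ (∫ x, ‖gradient ψ x‖ ^ 2) + ∫ x, u x ^ 2 * ψ x ^ 2 := by
  have hε : ∀ k : ℕ, (0:ℝ) < 1 / ((k:ℝ) + 1) := fun k => by positivity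
  refine fatou_real (f := fun k x => u x ^ 2 * ψ x ^ 2 * (u x + 1 / ((k:ℝ) + 1))⁻¹ / W x)
    (fun k => (S.picone_eps hψ (hε k)).1) (fun k => ?_) ?_
    (fun k => (S.picone_eps hψ (hε k)).2) tendsto_const_nhds
  · filter_upwards [S.pos] with x hx
    by_cases h0 : ψ x = 0
    · simp [h0]
    have hu := hx (hψ.2.2 (subset_tsupport ψ h0))
    have hW := W_nonneg x
    have := hε k
    positivity
  · filter_upwards [S.pos] with x hx
    by_cases h0 : ψ x = 0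
    · simp [h0]
    have hu := hx (hψ.2.2 (subset_tsupport ψ h0))
    have h1 : Tendsto (fun k : ℕ => u x + 1 / ((k:ℝ) + 1)) atTop (𝓝 (u x + 0)) :=
      tendsto_const_nhds.add tendsto_one_div_add_atTop_nhds_zero_nat
    rw [add_zero] at h1
    have h2 := ((h1.inv₀ hu.ne').const_mul (u x ^ 2 * ψ x ^ 2)).div_const (W x)
    have e : u x ^ 2 * ψ x ^ 2 * (u x)⁻¹ / W x = u x * ψ x ^ 2 / W x := by
      congr 1; field_simp
    rwa [e] at h2

end Pool.Agent.Lib.MP_a271d0_an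
end

-- part Pool.Agent.Lib.MP_a271d0_an.Limits
section

set_option autoImplicit false
open MeasureTheory Filter Topology Set

namespace Pool.Agent.Lib.MP_a271d0_an

/-- inverse square root of the norm -/
noncomputable def Y (x : E3) : ℝ := (√‖x‖)⁻¹

theorem Y_nonneg (x : E3) : 0 ≤ Y x := by unfold Y; positivity

theorem div_W (a : ℝ) (x : E3) : a / W x = a * Y x ^ 3 := by
  unfold W Y; rw [div_eq_mul_inv, inv_pow]

theorem div_nsq (a : ℝ) (x : E3) : a / ‖x‖ ^ 2 = a * Y x ^ 4 := by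
  unfold Y
  rw [div_eq_mul_inv, inv_pow]
  congr 2
  have h := Real.sq_sqrt (norm_nonneg x)
  calc ‖x‖ ^ 2 = (√‖x‖ ^ 2) ^ 2 := by rw [h]
    _ = _ := by ring

theorem young34 {M y κ : ℝ} (hM : 0 ≤ M) (hy : 0 ≤ y) (hκ : 0 < κ) :
    M * y ^ 3 ≤ κ * y ^ 4 + (κ⁻¹) ^ 3 * M ^ 4 := by
  rcases le_total M (κ * y) with h | h
  · have h1 : M * y ^ 3 ≤ κ * y * y ^ 3 := by gcongr
    have h2 : 0 ≤ (κ⁻¹) ^ 3 * M ^ 4 := by positivity
    nlinarith
  · have h0 : y ≤ κ⁻¹ * M := by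
      rw [inv_mul_eq_div, le_div_iff₀ hκ]; linarith
    have h1 : M * y ^ 3 ≤ M * (κ⁻¹ * M) ^ 3 := by gcongr
    have h2 : 0 ≤ κ * y ^ 4 := by positivity
    nlinarith

theorem fatou_sob : ∃ C : ℝ, 0 ≤ C ∧ ∀ (ψ : ℕ → E3 → ℝ) (w : E3 → ℝ) (c : ℕ → ℝ) (L : ℝ),
    (∀ m, ContDiff ℝ 1 (ψ m)) → (∀ m, HasCompactSupport (ψ m)) →
    (∀ m, (0:E3) ∉ tsupport (ψ m)) →
    (∀ᵐ x, Tendsto (fun m => ψ m x) atTop (𝓝 (w x))) →
    (∀ m, ∫ x, ‖gradient (ψ m) x‖ ^ 2 ≤ c m) → Tendsto c atTop (𝓝 L) →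
    (Integrable (fun x => w x ^ 6) ∧ ∫ x, w x ^ 6 ≤ C * L ^ 3) ∧
    (Integrable (fun x => w x ^ 2 / ‖x‖ ^ 2) ∧ ∫ x, w x ^ 2 / ‖x‖ ^ 2 ≤ 36 * L) := by
  obtain ⟨C, hC0, hC⟩ := sobolev
  refine ⟨C, hC0, fun ψ w c L h1 h2 h3 h4 h5 h6 => ⟨?_, ?_⟩⟩
  · refine fatou_real (f := fun m x => ψ m x ^ 6) (c := fun m => C * c m ^ 3) (fun m => ?_)
      (fun m => ae_of_all _ (fun x => by positivity)) ?_ (fun m => ?_)
      ((h6.pow 3).const_mul C)
    · have a1 : Continuous (fun x => ψ m x ^ 6) := (h1 m).continuous.pow 6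
      have a2 : HasCompactSupport ((fun y : ℝ => y ^ 6) ∘ ψ m) := (h2 m).comp_left (by simp)
      exact a1.integrable_of_hasCompactSupport a2
    · filter_upwards [h4] with x hx using hx.pow 6
    · refine (hC _ (h1 m) (h2 m)).trans ?_
      have a0 : 0 ≤ ∫ x, ‖gradient (ψ m) x‖ ^ 2 := integral_nonneg (fun x => by positivity)
      have := h5 m
      gcongr
  · refine fatou_real (f := fun m x => ψ m x ^ 2 / ‖x‖ ^ 2) (c := fun m => 36 * c m)
      (fun m => int_hardy (h1 m).continuous (h2 m) (h3 m))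
      (fun m => ae_of_all _ (fun x => by positivity)) ?_ (fun m => ?_)
      (h6.const_mul 36)
    · filter_upwards [h4] with x hx using (hx.pow 2).div_const _
    · refine (hardy (h1 m) (h2 m) (h3 m)).trans ?_
      have := h5 m
      gcongr

theorem grad_sub {f g : E3 → ℝ} (hf : ContDiff ℝ 1 f) (hg : ContDiff ℝ 1 g) (x : E3) :
    gradient (fun z => f z - g z) x = gradient f x - gradient g x := by
  have h1 := (hf.differentiable one_ne_zero x)
  have h2 := (hg.differentiable one_ne_zero x)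
  unfold gradient
  rw [fderiv_fun_sub h1 h2, map_sub]

variable {Ω : Set E3} {u : E3 → ℝ} {G : E3 → E3} {φ : ℕ → E3 → ℝ}

theorem Sol.intd (S : Sol Ω u G φ) (n : ℕ) : Integrable (fun x => (φ n x - u x) ^ 2) := by
  have h : MemLp (fun x => φ n x - u x) 2 volume :=
    ((S.test n).c1.continuous.memLp_of_hasCompactSupport (S.test n).2.1).sub S.uL2
  exact h.integrable_sq

theorem Sol.nonneg (S : Sol Ω u G φ) : ∀ᵐ x, 0 ≤ u x := by
  filter_upwards [S.aeu, S.pos] with x h1 h2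
  by_cases hx : x ∈ Ω
  · exact (h2 hx).le
  · have : ∀ n, φ n x = 0 := fun n =>
      image_eq_zero_of_notMem_tsupport (fun h => hx ((S.test n).2.2 h))
    simp only [this] at h1
    exact (tendsto_nhds_unique tendsto_const_nhds h1).le

theorem Sol.cA (S : Sol Ω u G φ) :
    Tendsto (fun n => ∫ x, ‖gradient (φ n) x‖ ^ 2) atTop (𝓝 (∫ x, ‖G x‖ ^ 2)) := by
  refine gdct (a := fun x => 2 * ‖G x‖ ^ 2) (b := fun n x => 2 * ‖gradient (φ n) x - G x‖ ^ 2)
    (fun n => (int_grad_sq (S.test n).c1 (S.test n).2.1).1) (S.intG.const_mul 2)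
    (fun n => (S.intD n).const_mul 2) (fun n => ae_of_all _ (fun x => by positivity))
    (fun n => ae_of_all _ (fun x => ?_)) (ae_of_all _ (fun x => ?_)) ?_ ?_
  · rw [abs_of_nonneg (by positivity)]
    have h5 : ‖gradient (φ n) x‖ ≤ ‖G x‖ + ‖gradient (φ n) x - G x‖ := by
      simpa using norm_add_le (G x) (gradient (φ n) x - G x)
    have h6 : ‖gradient (φ n) x‖ ^ 2 ≤ (‖G x‖ + ‖gradient (φ n) x - G x‖) ^ 2 := by gcongr
    nlinarith [sq_nonneg (‖G x‖ - ‖gradient (φ n) x - G x‖)]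
  · rw [abs_of_nonneg (by positivity)]
    nlinarith [sq_nonneg ‖G x‖]
  · filter_upwards [S.aeG] with x hx using hx.norm.pow 2
  · simp_rw [integral_const_mul]
    simpa using S.cG.const_mul 2

theorem Sol.u6 (S : Sol Ω u G φ) (h0 : (0:E3) ∉ Ω) :
    Integrable (fun x => u x ^ 6) ∧ Integrable (fun x => u x ^ 2 / ‖x‖ ^ 2) := by
  obtain ⟨C, -, hC⟩ := fatou_sob
  have := hC φ u _ _ (fun m => (S.test m).c1) (fun m => (S.test m).2.1)
    (fun m h => h0 ((S.test m).2.2 h)) S.aeu (fun m => le_rfl) S.cA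
  exact ⟨this.1.1, this.2.1⟩

theorem Sol.d6 (S : Sol Ω u G φ) (h0 : (0:E3) ∉ Ω) :
    (∀ n, Integrable (fun x => (φ n x - u x) ^ 6)) ∧
    (∀ n, Integrable (fun x => (φ n x - u x) ^ 2 / ‖x‖ ^ 2)) ∧
    Tendsto (fun n => ∫ x, (φ n x - u x) ^ 6) atTop (𝓝 0) ∧
    Tendsto (fun n => ∫ x, (φ n x - u x) ^ 2 / ‖x‖ ^ 2) atTop (𝓝 0) := by
  obtain ⟨C, hC0, hC⟩ := fatou_sob
  set D : ℕ → ℝ := fun n => ∫ x, ‖gradient (φ n) x - G x‖ ^ 2 with hD
  have hDl : Tendsto D atTop (𝓝 0) := S.cG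
  have key : ∀ n, (Integrable (fun x => (φ n x - u x) ^ 6) ∧
      ∫ x, (φ n x - u x) ^ 6 ≤ C * (2 * D n + 2 * 0) ^ 3) ∧
      (Integrable (fun x => (φ n x - u x) ^ 2 / ‖x‖ ^ 2) ∧
      ∫ x, (φ n x - u x) ^ 2 / ‖x‖ ^ 2 ≤ 36 * (2 * D n + 2 * 0)) := by
    intro n
    refine hC (fun m x => φ n x - φ m x) (fun x => φ n x - u x) (fun m => 2 * D n + 2 * D m) _
      (fun m => (S.test n).c1.sub (S.test m).c1) (fun m => (S.test n).2.1.sub (S.test m).2.1)
      (fun m h => ?_) ?_ (fun m => ?_) (tendsto_const_nhds.add (hDl.const_mul 2))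
    · have h1 : tsupport (fun x => φ n x - φ m x) ⊆ tsupport (φ n) ∪ tsupport (φ m) := by
        apply closure_minimal
        · intro z hz
          by_contra hc
          simp only [mem_union, not_or] at hc
          apply hz
          simp [image_eq_zero_of_notMem_tsupport hc.1, image_eq_zero_of_notMem_tsupport hc.2]
        · exact (isClosed_tsupport _).union (isClosed_tsupport _)
      rcases h1 h with h2 | h2
      · exact h0 ((S.test n).2.2 h2)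
      · exact h0 ((S.test m).2.2 h2)
    · filter_upwards [S.aeu] with x hx using tendsto_const_nhds.sub hx
    · have i1 := int_grad_sq ((S.test n).c1.sub (S.test m).c1) ((S.test n).2.1.sub (S.test m).2.1)
      have i2 : Integrable (fun x => 2 * ‖gradient (φ n) x - G x‖ ^ 2
          + 2 * ‖gradient (φ m) x - G x‖ ^ 2) :=
        ((S.intD n).const_mul 2).add ((S.intD m).const_mul 2)
      refine (integral_mono i1 i2 (fun x => ?_)).trans (le_of_eq ?_)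
      · beta_reduce
        rw [grad_sub (S.test n).c1 (S.test m).c1]
        have h5 : ‖gradient (φ n) x - gradient (φ m) x‖
            ≤ ‖gradient (φ n) x - G x‖ + ‖gradient (φ m) x - G x‖ := by
          simpa using norm_sub_le (gradient (φ n) x - G x) (gradient (φ m) x - G x)
        have h6 : ‖gradient (φ n) x - gradient (φ m) x‖ ^ 2
            ≤ (‖gradient (φ n) x - G x‖ + ‖gradient (φ m) x - G x‖) ^ 2 := by gcongr
        nlinarith [sq_nonneg (‖gradient (φ n) x - G x‖ - ‖gradient (φ m) x - G x‖)]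
      · rw [integral_add ((S.intD n).const_mul 2) ((S.intD m).const_mul 2), integral_const_mul,
          integral_const_mul]
  refine ⟨fun n => (key n).1.1, fun n => (key n).2.1, ?_, ?_⟩
  · refine squeeze_zero (fun n => integral_nonneg (fun x => by positivity))
      (fun n => (key n).1.2) ?_
    have := (((hDl.const_mul 2).add_const (2 * 0)).pow 3).const_mul C
    simpa using this
  · refine squeeze_zero (fun n => integral_nonneg (fun x => by positivity))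
      (fun n => (key n).2.2) ?_
    have := ((hDl.const_mul 2).add_const (2 * 0)).const_mul 36
    simpa using this

theorem Sol.u4 (S : Sol Ω u G φ) (h0 : (0:E3) ∉ Ω) : Integrable (fun x => u x ^ 4) := by
  have hum : AEMeasurable u volume := S.uL2.1.aemeasurable
  refine (S.uL2.integrable_sq.add (S.u6 h0).1).mono' ?_ (ae_of_all _ (fun x => ?_))
  · apply AEMeasurable.aestronglyMeasurable
    fun_prop
  · rw [Real.norm_eq_abs, abs_of_nonneg (by positivity)]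
    simp only [Pi.add_apply]
    nlinarith [sq_nonneg (u x - u x ^ 3), sq_nonneg (u x), sq_nonneg (u x ^ 3)]

theorem cube_bound (t y : ℝ) (hy : 0 ≤ y) : |t ^ 3 * y ^ 3| ≤ t ^ 2 * y ^ 4 + t ^ 6 := by
  have h := young34 (abs_nonneg t) hy one_pos
  have e : |t ^ 3 * y ^ 3| = t ^ 2 * (|t| * y ^ 3) := by
    rw [abs_mul, abs_pow, abs_of_nonneg (pow_nonneg hy 3), ← sq_abs t]; ring
  have e2 : |t| ^ 4 = t ^ 4 := Even.pow_abs (by decide) _
  rw [e]
  simp only [inv_one, one_pow, one_mul, e2] at h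
  nlinarith [sq_nonneg t]

theorem Sol.u3 (S : Sol Ω u G φ) (h0 : (0:E3) ∉ Ω) : Integrable (fun x => u x ^ 3 / W x) := by
  have hum : AEMeasurable u volume := S.uL2.1.aemeasurable
  have hWm := W_meas
  refine ((S.u6 h0).2.add (S.u6 h0).1).mono' ?_ (ae_of_all _ (fun x => ?_))
  · apply AEMeasurable.aestronglyMeasurable
    fun_prop
  · simp only [Pi.add_apply, Real.norm_eq_abs, div_W, div_nsq]
    exact cube_bound _ _ (Y_nonneg x)

theorem Sol.energy (S : Sol Ω u G φ) (h0 : (0:E3) ∉ Ω) :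
    (∫ x, ‖G x‖ ^ 2) + ∫ x, u x ^ 4 = ∫ x, u x ^ 3 / W x := by
  obtain ⟨i6, iH, c6, cH⟩ := S.d6 h0
  obtain ⟨u6, uH⟩ := S.u6 h0
  have u4 := S.u4 h0
  have u3 := S.u3 h0
  have hFi : ∀ n, Integrable (fun x => inner ℝ (G x) (gradient (φ n) x) + u x ^ 3 * φ n x
      - u x ^ 2 * φ n x / W x) := fun n =>
    ((S.eq _ (S.test n)).1.add (S.eq _ (S.test n)).2.1).sub (S.eq _ (S.test n)).2.2.1
  have bnd : ∀ (x : E3) (t : ℝ) (y : E3),
      |inner ℝ (G x) y + u x ^ 3 * t - u x ^ 2 * t / W x|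
        ≤ (2 * ‖G x‖ ^ 2 + u x ^ 4 + 3 * u x ^ 6 + 2 * (u x ^ 2 / ‖x‖ ^ 2))
          + (‖y - G x‖ ^ 2 + (t - u x) ^ 2 + (t - u x) ^ 2 / ‖x‖ ^ 2) := by
    intro x t y
    have h3 : |inner ℝ (G x) y| ≤ 2 * ‖G x‖ ^ 2 + ‖y - G x‖ ^ 2 := by
      have h4 := abs_real_inner_le_norm (G x) y
      have h5 : ‖y‖ ≤ ‖G x‖ + ‖y - G x‖ := by
        simpa using norm_add_le (G x) (y - G x)
      have h6 : ‖G x‖ * ‖y‖ ≤ ‖G x‖ * (‖G x‖ + ‖y - G x‖) := by gcongr
      nlinarith [sq_nonneg (‖G x‖ - ‖y - G x‖), norm_nonneg (G x), norm_nonneg (y - G x)]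
    have h4 : |u x ^ 3 * t| ≤ u x ^ 4 + u x ^ 6 + (t - u x) ^ 2 := by
      rw [abs_le]
      constructor
      · nlinarith [sq_nonneg (u x ^ 3 + (t - u x)), sq_nonneg (u x ^ 3), sq_nonneg (t - u x),
          sq_nonneg (u x ^ 2)]
      · nlinarith [sq_nonneg (u x ^ 3 - (t - u x)), sq_nonneg (u x ^ 3), sq_nonneg (t - u x),
          sq_nonneg (u x ^ 2)]
    have h5 : |u x ^ 2 * t / W x|
        ≤ 2 * u x ^ 6 + 2 * (u x ^ 2 / ‖x‖ ^ 2) + (t - u x) ^ 2 / ‖x‖ ^ 2 := by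
      simp only [div_W, div_nsq]
      set y := Y x
      set s := u x
      set d := t - s with hd
      have ht : t = s + d := by rw [hd]; ring
      have hy : 0 ≤ y := Y_nonneg x
      have a1 := cube_bound s y hy
      have a2 : |s ^ 2 * d * y ^ 3| ≤ d ^ 2 * y ^ 4 + s ^ 2 * y ^ 4 + s ^ 6 := by
        have b1 : s ^ 4 * y ^ 2 ≤ s ^ 2 * y ^ 4 + s ^ 6 := by
          nlinarith [sq_nonneg (s * y ^ 2 - s ^ 3), sq_nonneg (s * y ^ 2), sq_nonneg (s ^ 3)]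
        rw [abs_le]
        constructor
        · nlinarith [sq_nonneg (d * y ^ 2 + s ^ 2 * y), sq_nonneg (d * y ^ 2),
            sq_nonneg (s ^ 2 * y)]
        · nlinarith [sq_nonneg (d * y ^ 2 - s ^ 2 * y), sq_nonneg (d * y ^ 2),
            sq_nonneg (s ^ 2 * y)]
      have e : s ^ 2 * t * y ^ 3 = s ^ 3 * y ^ 3 + s ^ 2 * d * y ^ 3 := by rw [ht]; ring
      rw [e]
      have := abs_add_le (s ^ 3 * y ^ 3) (s ^ 2 * d * y ^ 3)
      linarith
    have t1 := abs_sub (inner ℝ (G x) y + u x ^ 3 * t) (u x ^ 2 * t / W x)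
    have t2 := abs_add_le (inner ℝ (G x) y) (u x ^ 3 * t)
    linarith
  have hconv := gdct (μ := (volume : Measure E3))
    (f := fun n x => inner ℝ (G x) (gradient (φ n) x) + u x ^ 3 * φ n x
      - u x ^ 2 * φ n x / W x)
    (g := fun x => inner ℝ (G x) (G x) + u x ^ 3 * u x - u x ^ 2 * u x / W x)
    (a := fun x => 2 * ‖G x‖ ^ 2 + u x ^ 4 + 3 * u x ^ 6 + 2 * (u x ^ 2 / ‖x‖ ^ 2))
    (b := fun n x => ‖gradient (φ n) x - G x‖ ^ 2 + (φ n x - u x) ^ 2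
      + (φ n x - u x) ^ 2 / ‖x‖ ^ 2)
    (fun n => (hFi n).1)
    ((((S.intG.const_mul 2).add u4).add (u6.const_mul 3)).add (uH.const_mul 2))
    (fun n => ((S.intD n).add (S.intd n)).add (iH n))
    (fun n => ae_of_all _ (fun x => by positivity))
    (fun n => ae_of_all _ (fun x => bnd x _ _))
    (ae_of_all _ (fun x => by
      have := bnd x (u x) (G x)
      rw [sub_self, sub_self, norm_zero, zero_pow two_ne_zero, zero_div, add_zero, add_zero,
        add_zero] at this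
      exact this))
    (by
      filter_upwards [S.aeu, S.aeG] with x h1 h2
      exact ((tendsto_const_nhds.inner h2).add (h1.const_mul _)).sub
        ((h1.const_mul _).div_const _))
    (by
      have e : ∀ n, ∫ x, (‖gradient (φ n) x - G x‖ ^ 2 + (φ n x - u x) ^ 2
          + (φ n x - u x) ^ 2 / ‖x‖ ^ 2) = (∫ x, ‖gradient (φ n) x - G x‖ ^ 2)
            + (∫ x, (φ n x - u x) ^ 2) + ∫ x, (φ n x - u x) ^ 2 / ‖x‖ ^ 2 := by
        intro n
        have j : Integrable (fun x => ‖gradient (φ n) x - G x‖ ^ 2 + (φ n x - u x) ^ 2) :=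
          (S.intD n).add (S.intd n)
        rw [integral_add j (iH n), integral_add (S.intD n) (S.intd n)]
      simp only [e]
      simpa using (S.cG.add S.cu).add cH)
  have hF0 : ∀ n, ∫ x, (inner ℝ (G x) (gradient (φ n) x) + u x ^ 3 * φ n x
      - u x ^ 2 * φ n x / W x) = 0 := fun n => (S.eq _ (S.test n)).2.2.2
  simp only [hF0] at hconv
  have h1 := tendsto_nhds_unique hconv tendsto_const_nhds
  have e : ∀ x, inner ℝ (G x) (G x) + u x ^ 3 * u x - u x ^ 2 * u x / W x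
      = ‖G x‖ ^ 2 + u x ^ 4 - u x ^ 3 / W x := by
    intro x
    rw [real_inner_self_eq_norm_sq]; ring
  simp only [e] at h1
  have j : Integrable (fun x => ‖G x‖ ^ 2 + u x ^ 4) := S.intG.add u4
  rw [integral_sub j u3, integral_add S.intG u4] at h1
  linarith

theorem Sol.c4 (S : Sol Ω u G φ) (h0 : (0:E3) ∉ Ω) :
    Tendsto (fun n => ∫ x, φ n x ^ 4) atTop (𝓝 (∫ x, u x ^ 4)) := by
  obtain ⟨i6, iH, c6, cH⟩ := S.d6 h0
  have u4 := S.u4 h0
  refine gdct (a := fun x => 8 * u x ^ 4)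
    (b := fun n x => 8 * (φ n x - u x) ^ 2 + 8 * (φ n x - u x) ^ 6)
    (fun n => ((S.test n).c1.continuous.pow 4).aestronglyMeasurable) (u4.const_mul 8)
    (fun n => ((S.intd n).const_mul 8).add ((i6 n).const_mul 8))
    (fun n => ae_of_all _ (fun x => by positivity))
    (fun n => ae_of_all _ (fun x => ?_)) (ae_of_all _ (fun x => ?_)) ?_ ?_
  · rw [abs_of_nonneg (by positivity)]
    set s := u x
    set d := φ n x - s with hd
    have ht : φ n x = s + d := by rw [hd]; ring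
    rw [ht]
    have b1 : d ^ 4 ≤ d ^ 2 + d ^ 6 := by
      nlinarith [sq_nonneg (d - d ^ 3), sq_nonneg d, sq_nonneg (d ^ 3)]
    have b2 : (s + d) ^ 2 ≤ 2 * (s ^ 2 + d ^ 2) := by nlinarith [sq_nonneg (s - d)]
    have b3 : ((s + d) ^ 2) ^ 2 ≤ (2 * (s ^ 2 + d ^ 2)) ^ 2 := by gcongr
    nlinarith [sq_nonneg (s ^ 2 - d ^ 2)]
  · rw [abs_of_nonneg (by positivity)]
    nlinarith [sq_nonneg (u x ^ 2)]
  · filter_upwards [S.aeu] with x hx using hx.pow 4
  · have e : ∀ n, ∫ x, (8 * (φ n x - u x) ^ 2 + 8 * (φ n x - u x) ^ 6)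
        = 8 * (∫ x, (φ n x - u x) ^ 2) + 8 * ∫ x, (φ n x - u x) ^ 6 := by
      intro n
      rw [integral_add ((S.intd n).const_mul 8) ((i6 n).const_mul 8), integral_const_mul,
        integral_const_mul]
    simp only [e]
    simpa using (S.cu.const_mul 8).add (c6.const_mul 8)

theorem Sol.dil (S : Sol Ω u G φ) {c : ℝ} (hc : 1 ≤ c) :
    Integrable (fun x => (u x - u (c • x)) ^ 2 / ‖x‖ ^ 2) ∧
      ∫ x, (u x - u (c • x)) ^ 2 / ‖x‖ ^ 2 ≤ (c - 1) ^ 2 * ∫ x, ‖G x‖ ^ 2 := by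
  have hq := (Measure.quasiMeasurePreserving_smul (volume : Measure E3) (r := c)
    (by linarith)).ae S.aeu
  refine fatou_real (f := fun n x => (φ n x - φ n (c • x)) ^ 2 / ‖x‖ ^ 2)
    (fun n => (dil_est (S.test n).c1 (S.test n).2.1 hc).1)
    (fun n => ae_of_all _ (fun x => by positivity)) ?_
    (fun n => (dil_est (S.test n).c1 (S.test n).2.1 hc).2) (S.cA.const_mul _)
  filter_upwards [S.aeu, hq] with x h1 h2
  exact ((h1.sub h2).pow 2).div_const _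

end Pool.Agent.Lib.MP_a271d0_an
end

-- part Pool.Agent.Lib.MP_a271d0_an.Final
section

set_option autoImplicit false
open MeasureTheory Filter Topology Set

namespace Pool.Agent.Lib.MP_a271d0_an

variable {Ω : Set E3} {u : E3 → ℝ} {G : E3 → E3} {φ : ℕ → E3 → ℝ}

theorem IsTest.dilate {ψ : E3 → ℝ} (h : IsTest Ω ψ)
    (hstar : ∀ x ∈ Ω, ∀ t : ℝ, 0 < t → t ≤ 1 → t • x ∈ Ω) (a : ℝ) {c : ℝ} (hc : 1 ≤ c) :
    IsTest Ω (fun x => a * ψ (c • x)) := by
  have hc0 : c ≠ 0 := by linarith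
  have hsm : ContDiff ℝ ((⊤ : ℕ∞) : WithTop ℕ∞) (fun x : E3 => c • x) := contDiff_const_smul c
  refine ⟨contDiff_const.mul (h.1.comp hsm), ?_, ?_⟩
  · have h1 : HasCompactSupport (fun x => ψ (c • x)) := h.2.1.comp_smul hc0
    exact h1.mul_left
  · have h1 : tsupport (fun x => a * ψ (c • x)) ⊆ (fun x : E3 => c • x) ⁻¹' tsupport ψ := by
      apply closure_minimal
      · intro z hz
        apply subset_tsupport
        intro hz'
        apply hz
        simp [hz']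
      · exact (isClosed_tsupport _).preimage (by fun_prop)
    intro x hx
    have h2 := hstar _ (h.2.2 (h1 hx)) c⁻¹ (by positivity) (inv_le_one_of_one_le₀ hc)
    rwa [smul_smul, inv_mul_cancel₀ hc0, one_smul] at h2

theorem norm_grad_dilate {ψ : E3 → ℝ} (h : ContDiff ℝ 1 ψ) (a c : ℝ) (x : E3) :
    ‖gradient (fun x => a * ψ (c • x)) x‖ ^ 2 = (a * c) ^ 2 * ‖gradient ψ (c • x)‖ ^ 2 := by
  have h1 : HasFDerivAt ψ (fderiv ℝ ψ (c • x)) (c • x) :=
    (h.differentiable one_ne_zero _).hasFDerivAt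
  have h2 : HasFDerivAt (fun x : E3 => c • x) (c • ContinuousLinearMap.id ℝ E3) x :=
    (hasFDerivAt_id x).const_smul c
  have h3 := (h1.comp x h2).const_mul a
  have h4 : fderiv ℝ (fun x => a * ψ (c • x)) x = (a * c) • fderiv ℝ ψ (c • x) := by
    have h5 : fderiv ℝ (fun x => a * ψ (c • x)) x = _ := h3.fderiv
    rw [h5]
    ext y
    simp
    ring
  rw [norm_grad, norm_grad, h4, norm_smul, mul_pow, Real.norm_eq_abs, sq_abs]

theorem W_smul {σ : ℝ} (hσ : 0 < σ) (x : E3) : W ((σ ^ 2) • x) = σ ^ 3 * W x := by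
  unfold W
  rw [norm_smul, Real.norm_eq_abs, abs_of_nonneg (by positivity), Real.sqrt_mul (by positivity),
    Real.sqrt_sq hσ.le, mul_pow]

theorem Sol.picone_dil (S : Sol Ω u G φ) (h0 : (0:E3) ∉ Ω)
    (hstar : ∀ x ∈ Ω, ∀ t : ℝ, 0 < t → t ≤ 1 → t • x ∈ Ω) {σ : ℝ} (hσ : 1 ≤ σ) :
    Integrable (fun x => u x * (σ * u ((σ ^ 2) • x)) ^ 2 / W x) ∧
    ∫ x, u x * (σ * u ((σ ^ 2) • x)) ^ 2 / W x
      ≤ (∫ x, ‖G x‖ ^ 2) + ((1 / 2) * (∫ x, u x ^ 4) + (1 / 2) * (σ ^ 2)⁻¹ * ∫ x, u x ^ 4) := by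
  have hσ0 : 0 < σ := by linarith
  have hc : 1 ≤ σ ^ 2 := one_le_pow₀ hσ
  have hT : ∀ n, IsTest Ω (fun x => σ * φ n ((σ ^ 2) • x)) := fun n =>
    (S.test n).dilate hstar σ hc
  have hq := (Measure.quasiMeasurePreserving_smul (volume : Measure E3) (r := σ ^ 2)
    (by positivity)).ae S.aeu
  have u4 := S.u4 h0
  refine fatou_real (f := fun n x => u x * (σ * φ n ((σ ^ 2) • x)) ^ 2 / W x)
    (c := fun n => (∫ x, ‖gradient (φ n) x‖ ^ 2)
      + ((1 / 2) * (∫ x, u x ^ 4) + (1 / 2) * (σ ^ 2)⁻¹ * ∫ x, φ n x ^ 4))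
    (fun n => (S.picone (hT n)).1) (fun n => ?_) ?_ (fun n => ?_)
    (S.cA.add (tendsto_const_nhds.add ((S.c4 h0).const_mul _)))
  · filter_upwards [S.nonneg] with x hx
    have := W_nonneg x
    positivity
  · filter_upwards [hq] with x hx
    exact (((hx.const_mul σ).pow 2).const_mul _).div_const _
  · refine (S.picone (hT n)).2.trans (add_le_add (le_of_eq ?_) ?_)
    · simp only [norm_grad_dilate (S.test n).c1]
      rw [integral_const_mul, integral_scale (fun x => ‖gradient (φ n) x‖ ^ 2) (by positivity)]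
      field_simp
    · have i4 : Integrable (fun x => φ n x ^ 4) := by
        have a1 : Continuous (fun x => φ n x ^ 4) := (S.test n).c1.continuous.pow 4
        have a2 : HasCompactSupport ((fun y : ℝ => y ^ 4) ∘ φ n) :=
          (S.test n).2.1.comp_left (by simp)
        exact a1.integrable_of_hasCompactSupport a2
      have i4' : Integrable (fun x => φ n ((σ ^ 2) • x) ^ 4) :=
        i4.comp_smul (R := σ ^ 2) (by positivity)
      have j : Integrable (fun x => (1 / 2) * u x ^ 4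
          + ((1 / 2) * σ ^ 4) * φ n ((σ ^ 2) • x) ^ 4) := (u4.const_mul _).add (i4'.const_mul _)
      refine (integral_mono_of_nonneg (ae_of_all _ (fun x => by positivity)) j
        (ae_of_all _ (fun x => ?_))).trans (le_of_eq ?_)
      · beta_reduce
        nlinarith [sq_nonneg (u x ^ 2 - (σ * φ n ((σ ^ 2) • x)) ^ 2)]
      · rw [integral_add (u4.const_mul _) (i4'.const_mul _), integral_const_mul,
          integral_const_mul, integral_scale (fun x => φ n x ^ 4) (by positivity)]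
        field_simp

theorem final_pointwise {s w y σ κ : ℝ} (hs : 0 ≤ s) (hw : 0 ≤ w) (hy : 0 ≤ y) (hσ : 1 ≤ σ)
    (hκ : 0 < κ) :
    s ^ 3 * y ^ 3 - s * (σ * w) ^ 2 * y ^ 3
      ≤ (2 / 3) * (s ^ 3 * y ^ 3) - (2 / 3) * ((σ * w) ^ 3 * y ^ 3)
        + (2 / 3 * κ) * ((s - w) ^ 2 * y ^ 4) + (2 / 3 * κ * (σ - 1) ^ 2) * (w ^ 2 * y ^ 4)
        + (27 * (κ⁻¹) ^ 3) * s ^ 6 + (27 * (κ⁻¹) ^ 3) * (σ * w) ^ 6 := by
  set v := σ * w with hv
  have hv0 : 0 ≤ v := by positivity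
  have h1 := young34 (M := s + 2 * v) (by positivity) hy hκ
  have h2 : (s - v) ^ 2 * (s + 2 * v) ^ 4 ≤ 81 * (s ^ 6 + v ^ 6) := by
    rcases le_total s v with h | h
    · have a1 : (s - v) ^ 2 ≤ v ^ 2 := by nlinarith
      have a2 : (s + 2 * v) ^ 4 ≤ (3 * v) ^ 4 := by gcongr; linarith
      calc (s - v) ^ 2 * (s + 2 * v) ^ 4 ≤ v ^ 2 * (3 * v) ^ 4 := by gcongr
        _ = 81 * v ^ 6 := by ring
        _ ≤ _ := by nlinarith [pow_nonneg hs 6]
    · have a1 : (s - v) ^ 2 ≤ s ^ 2 := by nlinarith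
      have a2 : (s + 2 * v) ^ 4 ≤ (3 * s) ^ 4 := by gcongr; linarith
      calc (s - v) ^ 2 * (s + 2 * v) ^ 4 ≤ s ^ 2 * (3 * s) ^ 4 := by gcongr
        _ = 81 * s ^ 6 := by ring
        _ ≤ _ := by nlinarith [pow_nonneg hv0 6]
  have h3 : (s - v) ^ 2 ≤ 2 * (s - w) ^ 2 + 2 * ((σ - 1) ^ 2 * w ^ 2) := by
    have : s - v = (s - w) - (σ - 1) * w := by rw [hv]; ring
    rw [this]
    nlinarith [sq_nonneg ((s - w) + (σ - 1) * w)]
  have h4 : (s - v) ^ 2 * ((s + 2 * v) * y ^ 3)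
      ≤ (s - v) ^ 2 * (κ * y ^ 4 + (κ⁻¹) ^ 3 * (s + 2 * v) ^ 4) := by gcongr
  have h5 : (s - v) ^ 2 * (κ * y ^ 4)
      ≤ (2 * (s - w) ^ 2 + 2 * ((σ - 1) ^ 2 * w ^ 2)) * (κ * y ^ 4) := by gcongr
  have h6 : (κ⁻¹) ^ 3 * ((s - v) ^ 2 * (s + 2 * v) ^ 4) ≤ (κ⁻¹) ^ 3 * (81 * (s ^ 6 + v ^ 6)) := by
    gcongr
  nlinarith

theorem Sol.key (S : Sol Ω u G φ) (h0 : (0:E3) ∉ Ω)
    (hstar : ∀ x ∈ Ω, ∀ t : ℝ, 0 < t → t ≤ 1 → t • x ∈ Ω) {σ κ : ℝ} (hσ : 1 ≤ σ) (hκ : 0 < κ) :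
    (1 / 2) * (1 - (σ ^ 2)⁻¹) * (∫ x, u x ^ 4)
      ≤ (2 / 3 * κ) * ((σ ^ 2 - 1) ^ 2 * ∫ x, ‖G x‖ ^ 2)
        + (2 / 3 * κ * (σ - 1) ^ 2) * (∫ x, u x ^ 2 / ‖x‖ ^ 2)
        + (54 * (κ⁻¹) ^ 3) * ∫ x, u x ^ 6 := by
  have hσ0 : 0 < σ := by linarith
  have hc : 1 ≤ σ ^ 2 := one_le_pow₀ hσ
  have hc0 : σ ^ 2 ≠ 0 := by positivity
  obtain ⟨p1, p2⟩ := S.picone_dil h0 hstar hσ
  obtain ⟨d1, d2⟩ := S.dil hc
  obtain ⟨u6, uH⟩ := S.u6 h0
  have u3 := S.u3 h0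
  have hen := S.energy h0
  have hq := (Measure.quasiMeasurePreserving_smul (volume : Measure E3) (r := σ ^ 2)
    hc0).ae S.nonneg
  -- scaled integrals
  have e3 : ∀ x, (σ * u ((σ ^ 2) • x)) ^ 3 / W x
      = σ ^ 6 * (u ((σ ^ 2) • x) ^ 3 / W ((σ ^ 2) • x)) := by
    intro x
    rw [W_smul hσ0, div_W, div_eq_mul_inv, mul_inv, ← one_div (W x), div_W]
    field_simp
  have v3 : Integrable (fun x => (σ * u ((σ ^ 2) • x)) ^ 3 / W x) := by
    simp only [e3]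
    exact (u3.comp_smul (R := σ ^ 2) hc0).const_mul _
  have v3e : ∫ x, (σ * u ((σ ^ 2) • x)) ^ 3 / W x = ∫ x, u x ^ 3 / W x := by
    simp only [e3]
    rw [integral_const_mul, integral_scale (fun x => u x ^ 3 / W x) (by positivity)]
    field_simp
  have eH : ∀ x, u ((σ ^ 2) • x) ^ 2 / ‖x‖ ^ 2
      = σ ^ 4 * (u ((σ ^ 2) • x) ^ 2 / ‖(σ ^ 2) • x‖ ^ 2) := by
    intro x
    rw [norm_smul, Real.norm_eq_abs, abs_of_nonneg (by positivity), mul_pow, div_nsq,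
      div_eq_mul_inv, mul_inv, ← one_div (‖x‖ ^ 2), div_nsq]
    field_simp
  have vH : Integrable (fun x => u ((σ ^ 2) • x) ^ 2 / ‖x‖ ^ 2) := by
    simp only [eH]
    exact (uH.comp_smul (R := σ ^ 2) hc0).const_mul _
  have hH0 : 0 ≤ ∫ x, u x ^ 2 / ‖x‖ ^ 2 := integral_nonneg (fun x => by positivity)
  have vHe : ∫ x, u ((σ ^ 2) • x) ^ 2 / ‖x‖ ^ 2 ≤ ∫ x, u x ^ 2 / ‖x‖ ^ 2 := by
    simp only [eH]
    rw [integral_const_mul, integral_scale (fun x => u x ^ 2 / ‖x‖ ^ 2) (by positivity)]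
    have : σ ^ 4 * ((σ ^ 2) ^ 3)⁻¹ = (σ ^ 2)⁻¹ := by field_simp
    rw [← mul_assoc, this]
    exact mul_le_of_le_one_left hH0 (inv_le_one_of_one_le₀ hc)
  have v6 : Integrable (fun x => (σ * u ((σ ^ 2) • x)) ^ 6) := by
    simp only [mul_pow]
    exact (u6.comp_smul (R := σ ^ 2) hc0).const_mul _
  have v6e : ∫ x, (σ * u ((σ ^ 2) • x)) ^ 6 = ∫ x, u x ^ 6 := by
    simp only [mul_pow]
    rw [integral_const_mul, integral_scale (fun x => u x ^ 6) (by positivity)]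
    field_simp
  have j1 : Integrable (fun x => (2 / 3) * (u x ^ 3 / W x)
      - (2 / 3) * ((σ * u ((σ ^ 2) • x)) ^ 3 / W x)) := (u3.const_mul _).sub (v3.const_mul _)
  have j2 : Integrable (fun x => (2 / 3) * (u x ^ 3 / W x)
      - (2 / 3) * ((σ * u ((σ ^ 2) • x)) ^ 3 / W x)
      + (2 / 3 * κ) * ((u x - u ((σ ^ 2) • x)) ^ 2 / ‖x‖ ^ 2)) := j1.add (d1.const_mul _)
  have j3 : Integrable (fun x => (2 / 3) * (u x ^ 3 / W x)
      - (2 / 3) * ((σ * u ((σ ^ 2) • x)) ^ 3 / W x)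
      + (2 / 3 * κ) * ((u x - u ((σ ^ 2) • x)) ^ 2 / ‖x‖ ^ 2)
      + (2 / 3 * κ * (σ - 1) ^ 2) * (u ((σ ^ 2) • x) ^ 2 / ‖x‖ ^ 2)) := j2.add (vH.const_mul _)
  have j4 : Integrable (fun x => (2 / 3) * (u x ^ 3 / W x)
      - (2 / 3) * ((σ * u ((σ ^ 2) • x)) ^ 3 / W x)
      + (2 / 3 * κ) * ((u x - u ((σ ^ 2) • x)) ^ 2 / ‖x‖ ^ 2)
      + (2 / 3 * κ * (σ - 1) ^ 2) * (u ((σ ^ 2) • x) ^ 2 / ‖x‖ ^ 2)
      + (27 * (κ⁻¹) ^ 3) * u x ^ 6) := j3.add (u6.const_mul _)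
  have j5 : Integrable (fun x => (2 / 3) * (u x ^ 3 / W x)
      - (2 / 3) * ((σ * u ((σ ^ 2) • x)) ^ 3 / W x)
      + (2 / 3 * κ) * ((u x - u ((σ ^ 2) • x)) ^ 2 / ‖x‖ ^ 2)
      + (2 / 3 * κ * (σ - 1) ^ 2) * (u ((σ ^ 2) • x) ^ 2 / ‖x‖ ^ 2)
      + (27 * (κ⁻¹) ^ 3) * u x ^ 6
      + (27 * (κ⁻¹) ^ 3) * (σ * u ((σ ^ 2) • x)) ^ 6) := j4.add (v6.const_mul _)
  have j0 : Integrable (fun x => u x ^ 3 / W x - u x * (σ * u ((σ ^ 2) • x)) ^ 2 / W x) :=
    u3.sub p1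
  have main := integral_mono_ae j0 j5 (by
    filter_upwards [S.nonneg, hq] with x h1 h2
    simp only [div_W, div_nsq]
    exact final_pointwise h1 h2 (Y_nonneg x) hσ hκ)
  rw [integral_sub u3 p1, integral_add j4 (v6.const_mul _), integral_add j3 (u6.const_mul _),
    integral_add j2 (vH.const_mul _), integral_add j1 (d1.const_mul _),
    integral_sub (u3.const_mul _) (v3.const_mul _)] at main
  simp only [integral_const_mul] at main
  rw [v3e, v6e] at main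
  have t1 : (2 / 3 * κ) * ∫ x, (u x - u ((σ ^ 2) • x)) ^ 2 / ‖x‖ ^ 2
      ≤ (2 / 3 * κ) * ((σ ^ 2 - 1) ^ 2 * ∫ x, ‖G x‖ ^ 2) := by gcongr
  have t2 : (2 / 3 * κ * (σ - 1) ^ 2) * ∫ x, u ((σ ^ 2) • x) ^ 2 / ‖x‖ ^ 2
      ≤ (2 / 3 * κ * (σ - 1) ^ 2) * (∫ x, u x ^ 2 / ‖x‖ ^ 2) := by gcongr
  linarith

theorem Sol.false (S : Sol Ω u G φ) (hopen : IsOpen Ω) (hne : Ω.Nonempty) (h0 : (0:E3) ∉ Ω)
    (hstar : ∀ x ∈ Ω, ∀ t : ℝ, 0 < t → t ≤ 1 → t • x ∈ Ω) : False := by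
  set A := ∫ x, ‖G x‖ ^ 2 with hA
  set H := ∫ x, u x ^ 2 / ‖x‖ ^ 2 with hH
  set P := ∫ x, u x ^ 6 with hP
  set B := ∫ x, u x ^ 4 with hB
  have hA0 : 0 ≤ A := integral_nonneg (fun x => by positivity)
  have hH0 : 0 ≤ H := integral_nonneg (fun x => by positivity)
  have hP0 : 0 ≤ P := integral_nonneg (fun x => by positivity)
  have hB0 : 0 < B := by
    rw [hB, integral_pos_iff_support_of_nonneg_ae (ae_of_all _ (fun x => by positivity)) (S.u4 h0)]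
    refine lt_of_lt_of_le (hopen.measure_pos volume hne) (measure_mono_ae ?_)
    filter_upwards [S.pos] with x hx hxΩ
    exact (pow_pos (hx hxΩ) 4).ne'
  have key : ∀ η : ℝ, 0 < η → η ≤ 1 → (3 / 8) * B ≤ η * (6 * A + H + 54 * P) := by
    intro η hη hη1
    have hη2 : η ^ 2 ≤ 1 := pow_le_one₀ hη.le hη1
    have h := S.key h0 hstar (σ := 1 + η ^ 2) (κ := η⁻¹) (by nlinarith) (by positivity)
    rw [← hA, ← hH, ← hP, ← hB, inv_inv] at h
    have l1 : (3 / 4) * η ^ 2 ≤ 1 - ((1 + η ^ 2) ^ 2)⁻¹ := by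
      have : ((1 + η ^ 2) ^ 2)⁻¹ ≤ 1 - (3 / 4) * η ^ 2 := by
        rw [inv_eq_one_div, div_le_iff₀ (by positivity)]
        have h5 : 0 ≤ η ^ 2 := by positivity
        set t := η ^ 2
        nlinarith [mul_nonneg h5 (sub_nonneg.2 hη2), mul_nonneg (mul_nonneg h5 h5) (sub_nonneg.2 hη2)]
      linarith
    have l2 : ((1 + η ^ 2) ^ 2 - 1) ^ 2 ≤ 9 * η ^ 4 := by
      have h5 : 0 ≤ η ^ 2 := by positivity
      have h6 : (1 + η ^ 2) ^ 2 - 1 ≤ 3 * η ^ 2 := by nlinarith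
      have h7 : 0 ≤ (1 + η ^ 2) ^ 2 - 1 := by nlinarith
      calc ((1 + η ^ 2) ^ 2 - 1) ^ 2 ≤ (3 * η ^ 2) ^ 2 := by gcongr
        _ = 9 * η ^ 4 := by ring
    have r1 : (2 / 3 * η⁻¹) * (((1 + η ^ 2) ^ 2 - 1) ^ 2 * A) ≤ η ^ 3 * (6 * A) := by
      calc (2 / 3 * η⁻¹) * (((1 + η ^ 2) ^ 2 - 1) ^ 2 * A)
          ≤ (2 / 3 * η⁻¹) * ((9 * η ^ 4) * A) := by gcongr
        _ = η ^ 3 * (6 * A) := by field_simp; ring
    have r2 : (2 / 3 * η⁻¹ * (1 + η ^ 2 - 1) ^ 2) * H ≤ η ^ 3 * H := by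
      have : 2 / 3 * η⁻¹ * (1 + η ^ 2 - 1) ^ 2 = 2 / 3 * η ^ 3 := by field_simp; ring
      rw [this]
      have : 0 ≤ η ^ 3 * H := by positivity
      nlinarith
    have r3 : η ^ 2 * ((3 / 8) * B) ≤ η ^ 2 * (η * (6 * A + H + 54 * P)) := by
      have : (1 / 2) * ((3 / 4) * η ^ 2) * B ≤ (1 / 2) * (1 - ((1 + η ^ 2) ^ 2)⁻¹) * B := by
        gcongr
      nlinarith
    exact le_of_mul_le_mul_left r3 (by positivity)
  set Q := 6 * A + H + 54 * P with hQ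
  have hQ0 : 0 ≤ Q := by positivity
  have h1 := key (min 1 (B / (8 * (Q + 1)))) (lt_min one_pos (by positivity)) (min_le_left _ _)
  have h2 : min 1 (B / (8 * (Q + 1))) * Q ≤ B / (8 * (Q + 1)) * (Q + 1) := by
    gcongr
    · exact min_le_right _ _
    · linarith
  have h3 : B / (8 * (Q + 1)) * (Q + 1) = B / 8 := by field_simp
  linarith

theorem exists_sol (hu : MemLp u 2 volume) (hG : MemLp G 2 volume)
    (ht : ∀ n, IsTest Ω (φ n))
    (h1 : Tendsto (fun n => eLpNorm (fun x => φ n x - u x) 2 volume) atTop (𝓝 0))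
    (h2 : Tendsto (fun n => eLpNorm (fun x => gradient (φ n) x - G x) 2 volume) atTop (𝓝 0))
    (hpos : ∀ᵐ x, x ∈ Ω → 0 < u x)
    (heq : ∀ ψ, IsTest Ω ψ →
      Integrable (fun x => inner ℝ (G x) (gradient ψ x)) ∧
      Integrable (fun x => u x ^ 3 * ψ x) ∧
      Integrable (fun x => u x ^ 2 * ψ x / W x) ∧
      ∫ x, (inner ℝ (G x) (gradient ψ x) + u x ^ 3 * ψ x - u x ^ 2 * ψ x / W x) = 0) :
    ∃ φ' : ℕ → E3 → ℝ, Sol Ω u G φ' := by
  have m1 : ∀ n, MemLp (φ n) 2 volume := fun n =>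
    (ht n).c1.continuous.memLp_of_hasCompactSupport (ht n).2.1
  have m2 : ∀ n, MemLp (gradient (φ n)) 2 volume := fun n => memLp_grad (ht n).c1 (ht n).2.1
  have a1 : TendstoInMeasure volume φ atTop u :=
    tendstoInMeasure_of_tendsto_eLpNorm two_ne_zero (fun n => (m1 n).1) hu.1 h1
  obtain ⟨ns, hns, hae⟩ := a1.exists_seq_tendsto_ae
  have a2 : TendstoInMeasure volume (fun i => gradient (φ (ns i))) atTop G :=
    tendstoInMeasure_of_tendsto_eLpNorm two_ne_zero (fun n => (m2 _).1) hG.1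
      (h2.comp hns.tendsto_atTop)
  obtain ⟨ms, hms, hae2⟩ := a2.exists_seq_tendsto_ae
  have hT : Tendsto (fun i => ns (ms i)) atTop atTop := hns.tendsto_atTop.comp hms.tendsto_atTop
  refine ⟨fun i => φ (ns (ms i)), fun i => ht _, hu, hG, ?_, ?_, ?_, hae2, hpos, heq⟩
  · have := tendsto_integral_sq_of_eLpNorm (fun n => (m1 n).sub hu) h1
    simp only [Real.norm_eq_abs, sq_abs, Pi.sub_apply] at this
    exact this.comp hT
  · have := tendsto_integral_sq_of_eLpNorm (fun n => (m2 n).sub hG) h2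
    exact this.comp hT
  · filter_upwards [hae] with x hx
    exact hx.comp hms.tendsto_atTop

end Pool.Agent.Lib.MP_a271d0_an
end
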