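import Pool.Agent.Lib.MP_a271d0_an.GShear

set_option autoImplicit false
set_option linter.unusedSectionVars false
open MeasureTheory Filter Topology Set Module
open scoped ENNReal

namespace Pool.Agent.Lib.MP_a271d0_an.G

variable {E : Type*} [NormedAddCommGroup E] [InnerProductSpace ℝ E] [CompleteSpace E]
  [FiniteDimensional ℝ E] [MeasurableSpace E] [BorelSpace E]

theorem exists_graph {ρ : E → ℝ} (hρ : ContDiff ℝ ((⊤ : ℕ∞) : WithTop ℕ∞) ρ) (h0 : ρ 0 = 0)
    {e : E} (he : ‖e‖ = 1) {N : ℝ} (hN : 0 < N) (hd : ∀ y, fderiv ℝ ρ 0 y = -N * inner ℝ e y) :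
    ∃ f : E → ℝ, ContDiff ℝ ((⊤ : ℕ∞) : WithTop ℕ∞) f ∧ (∀ x (t : ℝ), f (x + t • e) = f x) ∧
      f 0 = 0 ∧ fderiv ℝ f 0 = 0 ∧
      ∀ᶠ x in 𝓝 (0:E), ρ (x - inner ℝ e x • e + f x • e) = 0 := by
  have hee : inner ℝ e e = (1:ℝ) := by rw [real_inner_self_eq_norm_sq, he]; norm_num
  set P : E →L[ℝ] E := ContinuousLinearMap.id ℝ E - (innerSL ℝ e).smulRight e with hP
  have hPx : ∀ x, P x = x - inner ℝ e x • e := fun x => by simp [hP]
  have hPe : ∀ x, inner ℝ e (P x) = (0:ℝ) := fun x => by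
    rw [hPx, inner_sub_right, inner_smul_right, hee]; ring
  set Θ : E → E := fun x => P x - (N⁻¹ * ρ x) • e with hΘ
  have hΘs : ContDiff ℝ ((⊤ : ℕ∞) : WithTop ℕ∞) Θ :=
    P.contDiff.sub ((contDiff_const.mul hρ).smul contDiff_const)
  have hΘ0 : Θ 0 = 0 := by simp [hΘ, h0]
  have hΘd : HasFDerivAt Θ (ContinuousLinearEquiv.refl ℝ E : E →L[ℝ] E) 0 := by
    have h1 := ((hρ.differentiable (by simp) 0).hasFDerivAt.const_mul N⁻¹).smul_const e
    have h2 : HasFDerivAt Θ _ 0 := P.hasFDerivAt.sub h1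
    refine h2.congr_fderiv ?_
    ext y
    simp only [ContinuousLinearEquiv.coe_refl, ContinuousLinearMap.id_apply,
      ContinuousLinearMap.sub_apply, ContinuousLinearMap.smulRight_apply,
      ContinuousLinearMap.smul_apply, smul_eq_mul, hd, hPx]
    have : N⁻¹ * (-N * inner ℝ e y) = -inner ℝ e y := by field_simp
    rw [this]; module
  set H := hΘs.contDiffAt.toOpenPartialHomeomorph Θ hΘd (by simp) with hH
  have hHc : (H : E → E) = Θ := rfl
  have hs : (0:E) ∈ H.source := hΘs.contDiffAt.mem_toOpenPartialHomeomorph_source hΘd (by simp)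
  have ht : (0:E) ∈ H.target := by
    have := H.map_source hs
    rwa [hHc, hΘ0] at this
  have hsy : H.symm 0 = 0 := by
    have := H.left_inv hs
    rwa [hHc, hΘ0] at this
  have hU : ∀ᶠ y in 𝓝 (0:E), y ∈ H.target ∧
      ContDiffAt ℝ ((⊤ : ℕ∞) : WithTop ℕ∞) H.symm y := by
    have h1 : Tendsto (fun y => fderiv ℝ Θ (H.symm y)) (𝓝 0)
        (𝓝 (ContinuousLinearEquiv.refl ℝ E : E →L[ℝ] E)) := by
      rw [← hΘd.fderiv]
      have h2 : Tendsto H.symm (𝓝 0) (𝓝 0) := by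
        have := H.continuousAt_symm ht
        rwa [ContinuousAt, hsy] at this
      exact ((hΘs.continuous_fderiv (by simp)).tendsto 0).comp h2
    filter_upwards [H.open_target.mem_nhds ht,
      h1.eventually (ContinuousLinearEquiv.refl ℝ E).nhds] with y hy hy'
    obtain ⟨A, hA⟩ := hy'
    refine ⟨hy, H.contDiffAt_symm (f₀' := A) hy ?_ hΘs.contDiffAt⟩
    rw [hA]
    exact (hΘs.differentiable (by simp) _).hasFDerivAt
  obtain ⟨r, hr, hrU⟩ := Metric.nhds_basis_closedBall.eventually_iff.1 hU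
  let b : ContDiffBump (0 : E) := ⟨r / 2, r, by positivity, by linarith⟩
  have hb : ContDiff ℝ ((⊤ : ℕ∞) : WithTop ℕ∞) b := b.contDiff
  have hg : ContDiff ℝ ((⊤ : ℕ∞) : WithTop ℕ∞) (fun y => b y * inner ℝ e (H.symm y)) := by
    rw [contDiff_iff_contDiffAt]
    intro y
    by_cases hy : y ∈ tsupport b
    · rw [b.tsupport_eq] at hy
      exact hb.contDiffAt.mul (contDiffAt_const.inner ℝ (hrU hy).2)
    · have h1 : (b : E → ℝ) =ᶠ[𝓝 y] fun _ => 0 := notMem_tsupport_iff_eventuallyEq.1 hy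
      refine (contDiffAt_const (c := (0:ℝ))).congr_of_eventuallyEq ?_
      filter_upwards [h1] with z hz
      simp [hz]
  have hev : ∀ᶠ x in 𝓝 (0:E), P x ∈ Metric.closedBall (0:E) (r / 2) := by
    have : Tendsto P (𝓝 0) (𝓝 0) := by simpa using P.continuous.tendsto 0
    exact this.eventually (Metric.closedBall_mem_nhds 0 (by positivity))
  refine ⟨fun x => b (P x) * inner ℝ e (H.symm (P x)), hg.comp P.contDiff, fun x t => ?_,
    by simp [hsy], ?_, ?_⟩
  · have : P (x + t • e) = P x := by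
      rw [hPx, hPx, inner_add_right, inner_smul_right, hee]; module
    simp only [this]
  · have h1 : (fun x => b (P x) * inner ℝ e (H.symm (P x)))
        =ᶠ[𝓝 0] fun x => innerSL ℝ e (H.symm (P x)) := by
      filter_upwards [hev] with x hx
      rw [b.one_of_mem_closedBall hx, one_mul, innerSL_apply_apply]
    rw [h1.fderiv_eq]
    have h2 : HasFDerivAt H.symm ((ContinuousLinearEquiv.refl ℝ E).symm : E →L[ℝ] E) (P 0) := by
      rw [map_zero]
      exact H.hasFDerivAt_symm ht (by rw [hsy]; exact hΘd)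
    have h3 := (innerSL ℝ e).hasFDerivAt.comp 0 (h2.comp 0 P.hasFDerivAt)
    have h4 : fderiv ℝ (fun x => innerSL ℝ e (H.symm (P x))) 0 = _ := h3.fderiv
    rw [h4]
    ext y
    simpa using hPe y
  · filter_upwards [hev] with x hx
    rw [b.one_of_mem_closedBall hx, one_mul]
    have h1 : P x ∈ H.target :=
      (hrU (Metric.closedBall_subset_closedBall (by linarith) hx)).1
    have h2 := H.right_inv h1
    rw [hHc] at h2
    set z := H.symm (P x)
    have h3 : P z - (N⁻¹ * ρ z) • e = P x := h2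
    have h4 := congrArg (inner ℝ e) h3
    rw [inner_sub_right, inner_smul_right, hPe, hPe, hee] at h4
    have h5 : ρ z = 0 := by
      have : N⁻¹ * ρ z = 0 := by linarith
      exact (mul_eq_zero.1 this).resolve_left (by positivity)
    rw [h5, mul_zero, zero_smul, sub_zero] at h3
    rw [← hPx, ← h3, hPx, sub_add_cancel, h5]

theorem exists_chart {ρ : E → ℝ} (hρ : ContDiff ℝ ((⊤ : ℕ∞) : WithTop ℕ∞) ρ) (h0 : ρ 0 = 0)
    (hd : fderiv ℝ ρ 0 ≠ 0) :
    ∃ Λ : ℝ, 0 < Λ ∧ ∃ e f, Chart {x | ρ x < 0} Λ e f := by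
  set a := gradient ρ 0 with ha
  have hN : 0 < ‖a‖ := by rw [ha, norm_grad]; exact norm_pos_iff.2 hd
  set e := -(‖a‖⁻¹) • a with he
  have he1 : ‖e‖ = 1 := by
    rw [he, norm_smul, norm_neg, norm_inv, norm_norm, inv_mul_cancel₀ hN.ne']
  have hee : inner ℝ e e = (1:ℝ) := by rw [real_inner_self_eq_norm_sq, he1]; norm_num
  have hd' : ∀ y, fderiv ℝ ρ 0 y = -‖a‖ * inner ℝ e y := by
    intro y
    rw [he, inner_smul_left, ← inner_gradient_left, ← ha]
    simp only [conj_trivial]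
    field_simp
  obtain ⟨f, hf, hinv, hf0, hfd, hev⟩ := exists_graph hρ h0 he1 hN hd'
  have hf1 : ContDiff ℝ 1 (fderiv ℝ f) := hf.fderiv_right (m := 1) (by
    have : ((2 : ℕ∞) : WithTop ℕ∞) ≤ ((⊤ : ℕ∞) : WithTop ℕ∞) := by exact_mod_cast le_top
    exact this)
  obtain ⟨K, V, hV, hK⟩ := (hf1.contDiffAt (x := 0)).exists_lipschitzOnWith
  have hneg : ∀ᶠ y in 𝓝 (0:E), fderiv ℝ ρ y e < 0 := by
    have h1 : Continuous (fun y => fderiv ℝ ρ y e) := by
      have := hρ.continuous_fderiv (by simp)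
      fun_prop
    refine h1.continuousAt.eventually (gt_mem_nhds ?_)
    change fderiv ℝ ρ 0 e < 0
    rw [hd', hee]; linarith
  obtain ⟨r, hr, hrn⟩ := Metric.nhds_basis_ball.eventually_iff.1 hneg
  have hz : ∀ᶠ x in 𝓝 (0:E), x - inner ℝ e x • e + f x • e ∈ Metric.ball (0:E) r := by
    have h1 : Continuous (fun x => x - inner ℝ e x • e + f x • e) := by
      have := hf.continuous
      fun_prop
    refine h1.continuousAt.eventually ?_
    simp only [inner_zero_right, zero_smul, sub_self, hf0, add_zero]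
    exact Metric.ball_mem_nhds 0 hr
  have hall : ∀ᶠ x in 𝓝 (0:E), x ∈ V ∧ (ρ x < 0 ↔ f x < inner ℝ e x) := by
    filter_upwards [hV, hev, hz, Metric.ball_mem_nhds 0 hr] with x h1 h2 h3 h4
    refine ⟨h1, ?_⟩
    set y := x - inner ℝ e x • e with hy
    have hconv : Convex ℝ {t : ℝ | y + t • e ∈ Metric.ball (0:E) r} := by
      intro t1 a1 t2 a2 c d hc hd hcd
      have := convex_ball (0:E) r a1 a2 hc hd hcd
      have e1 : c • (y + t1 • e) + d • (y + t2 • e) = y + (c • t1 + d • t2) • e := by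
        have : y = (c + d) • y := by rw [hcd, one_smul]
        conv_rhs => rw [this]
        simp only [smul_eq_mul]; module
      rwa [e1] at this
    have hder : ∀ t : ℝ, HasDerivAt (fun t : ℝ => ρ (y + t • e)) (fderiv ℝ ρ (y + t • e) e) t := by
      intro t
      have a1 : HasDerivAt (fun t : ℝ => y + t • e) e t := by
        simpa using ((hasDerivAt_id t).smul_const e).const_add y
      exact (hρ.differentiable (by simp) _).hasFDerivAt.comp_hasDerivAt t a1
    have hanti := strictAntiOn_of_deriv_neg hconv (f := fun t : ℝ => ρ (y + t • e))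
      (fun t _ => (hder t).continuousAt.continuousWithinAt)
      (fun t ht => by rw [(hder t).deriv]; exact hrn (interior_subset (s := {t : ℝ | y + t • e ∈ Metric.ball (0:E) r}) ht))
    have hx : y + inner ℝ e x • e = x := by rw [hy]; module
    have := hanti.lt_iff_gt (a := inner ℝ e x) (b := f x) (by simpa [hx] using h4) h3
    simp only [hx, h2] at this
    exact this
  obtain ⟨ε, hε, hεa⟩ := Metric.nhds_basis_closedBall.eventually_iff.1 hall
  have hin : ∀ x : E, (K + ε⁻¹) * ‖x‖ ≤ 1 → x ∈ Metric.closedBall (0:E) ε := by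
    intro x hx
    rw [mem_closedBall_zero_iff]
    have h1 : ε⁻¹ * ‖x‖ ≤ 1 := by
      have : 0 ≤ (K:ℝ) * ‖x‖ := by positivity
      linarith
    rwa [inv_mul_le_iff₀ hε, mul_one] at h1
  refine ⟨K + ε⁻¹, by positivity, e, f, he1, hf, hinv, hf0, hfd, fun x y hx hy => ?_,
    fun x hx => (hεa (hin x hx)).2⟩
  have h1 := hK.dist_le_mul x (hεa (hin x hx)).1 y (hεa (hin y hy)).1
  rw [dist_eq_norm, dist_eq_norm] at h1
  have : 0 ≤ ε⁻¹ * ‖x - y‖ := by positivity
  linarith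

theorem Chart.scale {Ω : Set E} {Λ : ℝ} {e : E} {f : E → ℝ} (C : Chart Ω Λ e f) {R : ℝ}
    (hR : 0 < R) : Chart ((fun x => R • x) '' Ω) (Λ / R) e (fun x => R * f (R⁻¹ • x)) := by
  have hn : ∀ x : E, Λ * ‖R⁻¹ • x‖ = Λ / R * ‖x‖ := by
    intro x
    rw [norm_smul, Real.norm_eq_abs, abs_of_pos (by positivity)]; ring
  have hfd : ∀ x, fderiv ℝ (fun x => R * f (R⁻¹ • x)) x = fderiv ℝ f (R⁻¹ • x) := by
    intro x
    have h1 : HasFDerivAt (fun x : E => R⁻¹ • x) (R⁻¹ • ContinuousLinearMap.id ℝ E) x :=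
      (hasFDerivAt_id x).const_smul R⁻¹
    have h2 : HasFDerivAt (fun x => R * f (R⁻¹ • x)) _ x :=
      ((C.diff (R⁻¹ • x)).hasFDerivAt.comp x h1).const_mul R
    rw [h2.fderiv]
    ext y
    simp [hR.ne']
  refine ⟨C.unit, ?_, fun x t => ?_, by simp [C.f0], by simp [hfd, C.d0], fun x y hx hy => ?_,
    fun x hx => ?_⟩
  · have := C.smooth
    fun_prop
  · simp only [smul_add, smul_smul, C.inv]
  · rw [hfd, hfd, ← hn (x - y), smul_sub]
    exact C.lip _ _ (by rwa [hn]) (by rwa [hn])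
  · have h1 : x ∈ (fun x => R • x) '' Ω ↔ R⁻¹ • x ∈ Ω := by
      constructor
      · rintro ⟨y, hy, rfl⟩
        simpa [smul_smul, hR.ne'] using hy
      · intro h
        exact ⟨_, h, by simp [smul_smul, hR.ne']⟩
    rw [h1, C.dom _ (by rwa [hn]), inner_smul_right, lt_inv_mul_iff₀ hR]

theorem exists_H10 {μ : Measure E} [μ.IsAddHaarMeasure] {Ω : Set E} {u : E → ℝ} {G : E → E}
    {φ : ℕ → E → ℝ} (hu : MemLp u 2 μ) (hG : MemLp G 2 μ) (ht : ∀ n, IsTest Ω (φ n))
    (h1 : Tendsto (fun n => eLpNorm (fun x => φ n x - u x) 2 μ) atTop (𝓝 0))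
    (h2 : Tendsto (fun n => eLpNorm (fun x => gradient (φ n) x - G x) 2 μ) atTop (𝓝 0)) :
    ∃ φ' : ℕ → E → ℝ, H10 μ Ω u G φ' := by
  have m1 : ∀ n, MemLp (φ n) 2 μ := fun n =>
    (ht n).c1.continuous.memLp_of_hasCompactSupport (ht n).2.1
  have m2 : ∀ n, MemLp (gradient (φ n)) 2 μ := fun n =>
    (cont_grad (ht n).c1).memLp_of_hasCompactSupport (cs_grad (ht n).2.1)
  have a1 : TendstoInMeasure μ φ atTop u :=
    tendstoInMeasure_of_tendsto_eLpNorm two_ne_zero (fun n => (m1 n).1) hu.1 h1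
  obtain ⟨ns, hns, hae⟩ := a1.exists_seq_tendsto_ae
  have a2 : TendstoInMeasure μ (fun i => gradient (φ (ns i))) atTop G :=
    tendstoInMeasure_of_tendsto_eLpNorm two_ne_zero (fun n => (m2 _).1) hG.1
      (h2.comp hns.tendsto_atTop)
  obtain ⟨ms, hms, hae2⟩ := a2.exists_seq_tendsto_ae
  have hT : Tendsto (fun i => ns (ms i)) atTop atTop := hns.tendsto_atTop.comp hms.tendsto_atTop
  refine ⟨fun i => φ (ns (ms i)), fun i => ht _, fun i => ?_, fun i => ?_, ?_, ?_, ?_, hae2⟩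
  · exact ((m1 _).sub hu).integrable_sq
  · exact (memLp_two_iff_integrable_sq_norm ((m2 _).sub hG).1).1 ((m2 _).sub hG)
  · have := tendsto_integral_sq_of_eLpNorm (fun n => (m1 n).sub hu) h1
    simp only [Real.norm_eq_abs, sq_abs, Pi.sub_apply] at this
    exact this.comp hT
  · have := tendsto_integral_sq_of_eLpNorm (fun n => (m2 n).sub hG) h2
    exact this.comp hT
  · filter_upwards [hae] with x hx
    exact hx.comp hms.tendsto_atTop

theorem final (μ : Measure E) [μ.IsAddHaarMeasure] {s p q m α γ : ℝ}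
    (P : Par (finrank ℝ E) s p q m α γ) {Ω : Set E} (hΩ : IsOpen Ω)
    (hb : Bornology.IsBounded Ω) {ρ : E → ℝ} (hρ : ContDiff ℝ ((⊤ : ℕ∞) : WithTop ℕ∞) ρ)
    (hΩρ : Ω = {x | ρ x < 0}) (hd : fderiv ℝ ρ 0 ≠ 0) (h0 : (0:E) ∈ frontier Ω) :
    ∃ R₀ : ℝ, 0 < R₀ ∧ ∀ R : ℝ, R₀ ≤ R → ∀ (u : E → ℝ) (G : E → E) (φ : ℕ → E → ℝ),
      ¬ Sol μ ((fun x => R • x) '' Ω) u G φ s p q := by
  rw [hΩ.frontier_eq] at h0
  have hρ0 : ρ 0 = 0 := by
    have h1 : closure Ω ⊆ {x | ρ x ≤ 0} := by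
      apply closure_minimal _ (isClosed_le hρ.continuous continuous_const)
      rw [hΩρ]; intro x hx; exact le_of_lt (show ρ x < 0 from hx)
    have h2 := h0.2
    rw [hΩρ] at h2
    exact le_antisymm (h1 h0.1) (not_lt.1 h2)
  obtain ⟨Λ, hΛ, e, f, C⟩ := exists_chart hρ hρ0 hd
  rw [← hΩρ] at C
  obtain ⟨Λ₀, hΛ₀, H⟩ := nonexist μ P
  obtain ⟨r, hr⟩ := hb.exists_norm_le
  refine ⟨Λ / Λ₀, by positivity, fun R hR u G φ => ?_⟩
  have hR0 : 0 < R := lt_of_lt_of_le (by positivity) hR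
  refine H (Λ / R) (by positivity) ?_ _ _ _ (R * r) u G φ
    ((C.scale hR0).flow (by positivity) μ) (isOpenMap_smul₀ hR0.ne' _ hΩ)
    ((closure_nonempty_iff.1 ⟨0, h0.1⟩).image _) ?_ ?_
  · rw [div_le_iff₀ hΛ₀] at hR
    rw [div_le_iff₀ hR0]; linarith
  · rintro ⟨y, hy, hy0⟩
    have : y = 0 := (smul_eq_zero.1 hy0).resolve_left hR0.ne'
    exact h0.2 (this ▸ hy)
  · rintro x ⟨y, hy, rfl⟩
    rw [norm_smul, Real.norm_eq_abs, abs_of_pos hR0]
    gcongr; exact hr y hy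

end Pool.Agent.Lib.MP_a271d0_an.G
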