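import Pool.Agent.Lib.MP_a271d0_an.GSol

-- part Pool.Agent.Lib.MP_a271d0_an.GCut
section

set_option autoImplicit false
set_option linter.unusedSectionVars false
open MeasureTheory Filter Topology Set Module
open scoped ENNReal

namespace Pool.Agent.Lib.MP_a271d0_an.G

variable {E : Type*} [NormedAddCommGroup E] [InnerProductSpace ℝ E] [CompleteSpace E]
  [FiniteDimensional ℝ E] [MeasurableSpace E] [BorelSpace E]

/-- cut-off at scale `1/Λ` -/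
structure Cut (L Λ : ℝ) (χ : E → ℝ) : Prop where
  smooth : ContDiff ℝ ((⊤ : ℕ∞) : WithTop ℕ∞) χ
  nonneg : ∀ x, 0 ≤ χ x
  le_one : ∀ x, χ x ≤ 1
  one : ∀ x, Λ * ‖x‖ ≤ 1 / 20 → χ x = 1
  supp : ∀ x ∈ tsupport χ, Λ * ‖x‖ ≤ 1 / 10
  lip : ∀ x y, |χ x - χ y| ≤ L * Λ * ‖x - y‖
  grad : ∀ x, ‖gradient χ x‖ ≤ L * Λ

theorem exists_cut (E : Type*) [NormedAddCommGroup E] [InnerProductSpace ℝ E] [CompleteSpace E]
    [FiniteDimensional ℝ E] :
    ∃ L : ℝ, 0 ≤ L ∧ ∀ Λ : ℝ, 0 < Λ → ∃ χ : E → ℝ, Cut L Λ χ := by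
  let b : ContDiffBump (0 : E) := ⟨1 / 20, 1 / 10, by norm_num, by norm_num⟩
  have hb : ContDiff ℝ ((⊤ : ℕ∞) : WithTop ℕ∞) b := b.contDiff
  obtain ⟨L, hL⟩ := hb.lipschitzWith_of_hasCompactSupport b.hasCompactSupport (by simp)
  refine ⟨L, L.2, fun Λ hΛ => ⟨fun x => b (Λ • x), ?_⟩⟩
  have hlip : ∀ x y : E, |b (Λ • x) - b (Λ • y)| ≤ L * Λ * ‖x - y‖ := by
    intro x y
    have := hL.dist_le_mul (Λ • x) (Λ • y)
    rw [Real.dist_eq, dist_eq_norm, ← smul_sub, norm_smul, Real.norm_eq_abs, abs_of_pos hΛ,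
      ← mul_assoc] at this
    exact this
  refine ⟨hb.comp (contDiff_const_smul Λ), fun x => b.nonneg, fun x => b.le_one, fun x hx => ?_,
    ?_, hlip, fun x => ?_⟩
  · apply b.one_of_mem_closedBall
    rw [mem_closedBall_zero_iff, norm_smul, Real.norm_eq_abs, abs_of_pos hΛ]
    exact hx
  · have h1 : tsupport (fun x : E => b (Λ • x)) ⊆ {x | Λ * ‖x‖ ≤ 1 / 10} := by
      apply closure_minimal
      · intro z hz
        have h2 : Λ • z ∈ tsupport b := subset_tsupport _ hz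
        rw [b.tsupport_eq, mem_closedBall_zero_iff, norm_smul, Real.norm_eq_abs,
          abs_of_pos hΛ] at h2
        exact h2
      · exact isClosed_le (by fun_prop) continuous_const
    exact fun x hx => h1 hx
  · rw [norm_grad]
    have h1 : LipschitzWith ⟨L * Λ, by positivity⟩ (fun x : E => b (Λ • x)) :=
      LipschitzWith.of_dist_le_mul (fun x y => by
        rw [Real.dist_eq, dist_eq_norm]; exact hlip x y)
    exact norm_fderiv_le_of_lipschitz ℝ h1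

theorem Cut.zero {L Λ : ℝ} {χ : E → ℝ} (C : Cut L Λ χ) {x : E} (hx : 1 / 10 < Λ * ‖x‖) :
    χ x = 0 ∧ gradient χ x = 0 := by
  have h : x ∉ tsupport χ := fun h => absurd (C.supp x h) (not_le.2 hx)
  exact ⟨image_eq_zero_of_notMem_tsupport h, grad_zero_of_notMem h⟩

theorem holder_real {α : Type*} [MeasurableSpace α] {μ : Measure α} {f g : α → ℝ} {a b : ℝ}
    (hab : a.HolderConjugate b) (hf0 : ∀ x, 0 ≤ f x) (hg0 : ∀ x, 0 ≤ g x)
    (hfm : AEStronglyMeasurable f μ) (hgm : AEStronglyMeasurable g μ)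
    (hf : Integrable (fun x => f x ^ a) μ) (hg : Integrable (fun x => g x ^ b) μ) :
    Integrable (fun x => f x * g x) μ ∧
    ∫ x, f x * g x ∂μ ≤ (∫ x, f x ^ a ∂μ) ^ (1 / a) * (∫ x, g x ^ b ∂μ) ^ (1 / b) := by
  have ha := hab.pos
  have hb := hab.symm.pos
  have m1 : MemLp f (ENNReal.ofReal a) μ := by
    rw [← integrable_norm_rpow_iff hfm (by simpa using ha) ENNReal.ofReal_ne_top,
      ENNReal.toReal_ofReal ha.le]
    simpa only [Real.norm_eq_abs, abs_of_nonneg (hf0 _)] using hf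
  have m2 : MemLp g (ENNReal.ofReal b) μ := by
    rw [← integrable_norm_rpow_iff hgm (by simpa using hb) ENNReal.ofReal_ne_top,
      ENNReal.toReal_ofReal hb.le]
    simpa only [Real.norm_eq_abs, abs_of_nonneg (hg0 _)] using hg
  refine ⟨?_, integral_mul_le_Lp_mul_Lq_of_nonneg hab (ae_of_all _ hf0) (ae_of_all _ hg0) m1 m2⟩
  refine ((hf.div_const a).add (hg.div_const b)).mono' (hfm.mul hgm) (ae_of_all _ (fun x => ?_))
  rw [Real.norm_eq_abs, abs_of_nonneg (mul_nonneg (hf0 x) (hg0 x))]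
  exact Real.young_inequality_of_nonneg (hf0 x) (hg0 x) hab

variable {μ : Measure E} [μ.IsAddHaarMeasure]
variable {Ω : Set E} {u : E → ℝ} {G : E → E} {φ : ℕ → E → ℝ} {s p q m α γ : ℝ}

theorem level_cut (S : Sol μ Ω u G φ s p q) (P : Par (finrank ℝ E) s p q m α γ) {η : ℝ}
    (hη : 0 < η) :
    ∃ T : ℝ, 0 ≤ T ∧
      Integrable (fun x => (max (|u x| ^ (m - 2) - T) 0) ^ ((finrank ℝ E : ℝ) / 2)) μ ∧
      ∫ x, (max (|u x| ^ (m - 2) - T) 0) ^ ((finrank ℝ E : ℝ) / 2) ∂μ ≤ η := by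
  have hn := P.hn
  have hm2 := P.m_gt
  have hum : AEMeasurable u μ := S.h.mw.aemeasurable
  have iU := (S.h.cS P.fr P.hm).1
  have em : (m - 2) * ((finrank ℝ E : ℝ) / 2) = m := by
    have : (finrank ℝ E : ℝ) - 2 ≠ 0 := by linarith
    rw [P.hm]; field_simp; ring
  have meas : ∀ j : ℕ, AEStronglyMeasurable
      (fun x => (max (|u x| ^ (m - 2) - j) 0) ^ ((finrank ℝ E : ℝ) / 2)) μ := by
    intro j
    apply AEMeasurable.aestronglyMeasurable; fun_prop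
  have bnd : ∀ j : ℕ, ∀ᵐ x ∂μ,
      ‖(max (|u x| ^ (m - 2) - j) 0) ^ ((finrank ℝ E : ℝ) / 2)‖ ≤ |u x| ^ m := by
    intro j
    refine ae_of_all _ (fun x => ?_)
    rw [Real.norm_eq_abs, abs_of_nonneg (by positivity)]
    have h1 : max (|u x| ^ (m - 2) - j) 0 ≤ |u x| ^ (m - 2) :=
      max_le (by simp) (by positivity)
    calc _ ≤ (|u x| ^ (m - 2)) ^ ((finrank ℝ E : ℝ) / 2) := by gcongr
      _ = _ := by rw [← Real.rpow_mul (abs_nonneg _), em]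
  have lim := tendsto_integral_of_dominated_convergence (f := fun _ => (0 : ℝ)) _ meas iU bnd
    (ae_of_all _ (fun x => by
      obtain ⟨j0, hj0⟩ := exists_nat_ge (|u x| ^ (m - 2))
      refine tendsto_const_nhds.congr' ?_
      filter_upwards [eventually_ge_atTop j0] with j hj
      have : (j0 : ℝ) ≤ j := by exact_mod_cast hj
      rw [max_eq_right (by linarith), Real.zero_rpow (by positivity)]))
  rw [integral_zero] at lim
  obtain ⟨j, hj⟩ := (lim.eventually (ge_mem_nhds hη)).exists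
  exact ⟨j, by positivity, iU.mono' (meas j) (bnd j), hj⟩

theorem absorb (S : Sol μ Ω u G φ s p q) (P : Par (finrank ℝ E) s p q m α γ) (h0 : (0:E) ∉ Ω)
    {ε : ℝ} (hε : 0 < ε) :
    ∃ T : ℝ, 0 ≤ T ∧ ∀ (Ψ : E ≃ₜ E) (κ : ℝ), Measure.map Ψ μ = ENNReal.ofReal κ • μ → 0 ≤ κ →
      κ ≤ 1 → ∀ (k : E → ℝ) (Gk : E → E) (ψ : ℕ → E → ℝ), H10 μ Ω k Gk ψ →
      Integrable (fun x => u (Ψ x) ^ (q - 2) * ‖x‖ ^ (-s) * k x ^ 2) μ ∧
      ∫ x, u (Ψ x) ^ (q - 2) * ‖x‖ ^ (-s) * k x ^ 2 ∂μ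
        ≤ ε * ∫ x, ‖Gk x‖ ^ 2 ∂μ + T * ∫ x, k x ^ 2 ∂μ := by
  have hn := P.hn
  have hm2 := P.m_gt
  obtain ⟨CS, hCS0, hCS⟩ := sob_H10 μ P.fr P.hm
  set C0 := (ε / 8) ^ (-(s / (2 - s))) with hC0
  have hC00 : 0 < C0 := by positivity
  set D := C0 * (CS ^ (2 / m) + 1) with hD
  have hD0 : 0 < D := by positivity
  set n2 := (finrank ℝ E : ℝ) / 2 with hn2
  have hn20 : 0 < n2 := by rw [hn2]; linarith
  obtain ⟨T, hT0, iT, eT⟩ := level_cut S P (η := (ε / 2 / D) ^ n2) (by positivity)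
  rw [← hn2] at iT eT
  refine ⟨C0 * T, by positivity, fun Ψ κ hmap hκ0 hκ1 k Gk ψ K => ?_⟩
  have hum : AEMeasurable u μ := S.h.mw.aemeasurable
  have hum' : AEMeasurable (fun x => u (Ψ x)) μ := by
    have h1 : AEMeasurable u (Measure.map Ψ μ) := by
      rw [hmap]; exact hum.smul_measure _
    exact h1.comp_aemeasurable Ψ.continuous.measurable.aemeasurable
  have hkm : AEMeasurable k μ := K.mw.aemeasurable
  have hm1 : ∀ f : E → ℝ, AEMeasurable f μ →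
      AEMeasurable (fun x => max (|f x| ^ (m - 2) - T) 0) μ := fun f hf => by fun_prop
  have hm3 : ∀ f : E → ℝ, AEMeasurable f μ →
      AEMeasurable (fun x => f x ^ (q - 2) * ‖x‖ ^ (-s) * k x ^ 2) μ := fun f hf => by fun_prop
  obtain ⟨iH, eH⟩ := K.hardy0 h0 P.fr
  obtain ⟨iS, eS⟩ := hCS _ _ _ _ K
  have hconj : n2.HolderConjugate (m / 2) := by
    rw [Real.holderConjugate_iff]
    have : (finrank ℝ E : ℝ) - 2 ≠ 0 := by linarith
    have : (finrank ℝ E : ℝ) ≠ 0 := by linarith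
    refine ⟨by rw [hn2]; linarith, ?_⟩
    rw [hn2, P.hm]; field_simp; ring
  have ek : ∀ x, (k x ^ 2) ^ (m / 2) = |k x| ^ m := by
    intro x
    rw [← sq_abs, ← Real.rpow_natCast, ← Real.rpow_mul (abs_nonneg _)]
    congr 1; push_cast; ring
  obtain ⟨iB, eB⟩ := holder_real (μ := μ) (f := fun x => max (|u (Ψ x)| ^ (m - 2) - T) 0)
    (g := fun x => k x ^ 2) hconj (fun x => le_max_right _ _) (fun x => sq_nonneg _)
    (hm1 _ hum').aestronglyMeasurable (K.mw.pow 2)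
    (int_comp hmap iT) (by simpa only [ek] using iS)
  simp only [ek] at eB
  rw [integral_comp hmap hκ0 (fun x => (max (|u x| ^ (m - 2) - T) 0) ^ n2)] at eB
  set Y := ∫ x, ‖Gk x‖ ^ 2 ∂μ with hY
  have hY0 : 0 ≤ Y := integral_nonneg (fun x => by positivity)
  have q0 : 0 ≤ ∫ x, (max (|u x| ^ (m - 2) - T) 0) ^ n2 ∂μ :=
    integral_nonneg (fun x => by positivity)
  have q1 : (κ * ∫ x, (max (|u x| ^ (m - 2) - T) 0) ^ n2 ∂μ) ^ (1 / n2) ≤ ε / 2 / D := by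
    have h1 : κ * ∫ x, (max (|u x| ^ (m - 2) - T) 0) ^ n2 ∂μ ≤ (ε / 2 / D) ^ n2 :=
      (mul_le_of_le_one_left q0 hκ1).trans eT
    calc _ ≤ ((ε / 2 / D) ^ n2) ^ (1 / n2) := by gcongr
      _ = _ := by
        rw [← Real.rpow_mul (by positivity), mul_one_div_cancel hn20.ne', Real.rpow_one]
  have q2 : (∫ x, |k x| ^ m ∂μ) ^ (1 / (m / 2)) ≤ (CS ^ (2 / m) + 1) * Y := by
    have h1 : 0 ≤ ∫ x, |k x| ^ m ∂μ := integral_nonneg (fun x => by positivity)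
    calc _ ≤ (CS * Y ^ (m / 2)) ^ (1 / (m / 2)) := by gcongr
      _ = CS ^ (2 / m) * Y := by
        rw [Real.mul_rpow hCS0 (by positivity), ← Real.rpow_mul hY0,
          mul_one_div_cancel (by positivity), Real.rpow_one, one_div_div]
      _ ≤ _ := by nlinarith
  have q3 : C0 * ∫ x, max (|u (Ψ x)| ^ (m - 2) - T) 0 * k x ^ 2 ∂μ ≤ ε / 2 * Y := by
    calc _ ≤ C0 * (ε / 2 / D * ((CS ^ (2 / m) + 1) * Y)) := by
          gcongr
          refine eB.trans ?_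
          gcongr
      _ = _ := by rw [hD]; field_simp
  have j1 : Integrable (fun x => ε / 8 * (‖x‖ ^ (-2 : ℝ) * k x ^ 2) + C0 * T * k x ^ 2) μ :=
    (iH.const_mul _).add (K.iw.const_mul _)
  have j2 := j1.add (iB.const_mul C0)
  have pw : ∀ᵐ x ∂μ, 0 ≤ u (Ψ x) ^ (q - 2) * ‖x‖ ^ (-s) * k x ^ 2 ∧
      u (Ψ x) ^ (q - 2) * ‖x‖ ^ (-s) * k x ^ 2
      ≤ ε / 8 * (‖x‖ ^ (-2 : ℝ) * k x ^ 2) + C0 * T * k x ^ 2
        + C0 * (max (|u (Ψ x)| ^ (m - 2) - T) 0 * k x ^ 2) := by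
    filter_upwards [ae_comp hmap S.nonneg] with x hx
    refine ⟨by positivity, ?_⟩
    have h1 := P.pw2' hx (norm_nonneg x) (κ := ε / 8) (by positivity)
    rw [← hC0] at h1
    have h2 : u (Ψ x) ^ (m - 2) ≤ T + max (|u (Ψ x)| ^ (m - 2) - T) 0 := by
      rw [abs_of_nonneg hx]
      linarith [le_max_left (u (Ψ x) ^ (m - 2) - T) 0]
    have h3 := mul_le_mul_of_nonneg_left h2 hC00.le
    have h4 := mul_le_mul_of_nonneg_right (h1.trans (add_le_add le_rfl h3)) (sq_nonneg (k x))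
    linarith
  have i0 : Integrable (fun x => u (Ψ x) ^ (q - 2) * ‖x‖ ^ (-s) * k x ^ 2) μ := by
    refine j2.mono' (hm3 _ hum').aestronglyMeasurable ?_
    filter_upwards [pw] with x hx
    rw [Real.norm_eq_abs, abs_of_nonneg hx.1]
    exact hx.2
  refine ⟨i0, ?_⟩
  have := integral_mono_ae i0 j2 (pw.mono (fun x hx => hx.2))
  simp only [Pi.add_apply] at this
  rw [integral_add j1 (iB.const_mul C0), integral_add (iH.const_mul _) (K.iw.const_mul _),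
    integral_const_mul, integral_const_mul, integral_const_mul] at this
  have h5 : ε / 8 * ∫ x, ‖x‖ ^ (-2 : ℝ) * k x ^ 2 ∂μ ≤ ε / 8 * (4 * Y) := by gcongr
  linarith

end Pool.Agent.Lib.MP_a271d0_an.G
end

-- part Pool.Agent.Lib.MP_a271d0_an.GFlow
section

set_option autoImplicit false
set_option linter.unusedSectionVars false
open MeasureTheory Filter Topology Set Module
open scoped ENNReal

namespace Pool.Agent.Lib.MP_a271d0_an.G

variable {E : Type*} [NormedAddCommGroup E] [InnerProductSpace ℝ E] [CompleteSpace E]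
  [FiniteDimensional ℝ E] [MeasurableSpace E] [BorelSpace E]

/-- approximate dilations that respect the domain near the origin -/
structure Flow (μ : Measure E) (Ω : Set E) (Λ : ℝ) (Φ Φ' : ℝ → E → E) : Prop where
  hom : ∀ t ∈ Icc (1:ℝ) 2, ∃ Ψ : E ≃ₜ E, (∀ x, Ψ x = Φ t x) ∧
    Measure.map Ψ μ = ENNReal.ofReal (t ^ (-(finrank ℝ E : ℝ))) • μ ∧
    ContDiff ℝ ((⊤ : ℕ∞) : WithTop ℕ∞) Ψ
  one : ∀ x, Φ 1 x = x
  cont : Continuous (fun z : E × ℝ => Φ z.2 z.1)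
  cont' : ∀ x, Continuous (fun t => Φ' t x)
  der : ∀ x t, HasDerivAt (fun t => Φ t x) (Φ' t x) t
  b1 : ∀ x, Λ * ‖x‖ ≤ 1 / 5 → ∀ t ∈ Icc (1:ℝ) 2, ‖Φ' t x‖ ≤ 2 * ‖x‖
  b2 : ∀ x, Λ * ‖x‖ ≤ 1 / 5 → ∀ t ∈ Icc (1:ℝ) 2, ‖Φ t x - t • x‖ ≤ 3 * Λ * (t - 1) * ‖x‖ ^ 2
  b3 : ∀ x, Λ * ‖x‖ ≤ 1 / 5 → ∀ t ∈ Icc (1:ℝ) 2,
    ‖fderiv ℝ (Φ t) x‖ ≤ t * (1 + Λ * (t - 1) * ‖x‖)
  dom : ∀ x, Λ * ‖x‖ ≤ 1 / 5 → ∀ t ∈ Icc (1:ℝ) 2, Φ t x ∈ Ω → x ∈ Ω
  back : ∀ x, ∀ t ∈ Icc (1:ℝ) 2, Λ * ‖Φ t x‖ ≤ 1 / 10 → Λ * ‖x‖ ≤ 1 / 5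

variable {μ : Measure E} [μ.IsAddHaarMeasure] {Ω : Set E} {Λ L : ℝ} {Φ Φ' : ℝ → E → E}
  {χ : E → ℝ}

theorem Flow.geo (F : Flow μ Ω Λ Φ Φ') (hΛ : 0 < Λ) {x : E} (hx : Λ * ‖x‖ ≤ 1 / 5) {t : ℝ}
    (ht : t ∈ Icc (1:ℝ) 2) :
    ‖x‖ ≤ ‖Φ t x‖ ∧ Λ * ‖Φ t x‖ ≤ 1 ∧ ‖x - Φ t x‖ ≤ 2 * (t - 1) * ‖x‖ ∧
      t * ‖x‖ ≤ ‖Φ t x‖ * (1 + 3 * (t - 1) * (Λ * ‖Φ t x‖)) := by
  have h1 := F.b2 x hx t ht
  obtain ⟨t1, t2⟩ := ht
  have hr := norm_nonneg x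
  have h2 : 3 * Λ * (t - 1) * ‖x‖ ^ 2 ≤ 3 / 5 * (t - 1) * ‖x‖ := by
    have : 3 * Λ * (t - 1) * ‖x‖ ^ 2 = 3 * (t - 1) * ‖x‖ * (Λ * ‖x‖) := by ring
    rw [this]
    have h3 : 0 ≤ 3 * (t - 1) * ‖x‖ := by
      have : 0 ≤ t - 1 := by linarith
      positivity
    nlinarith
  have h3 : ‖t • x‖ = t * ‖x‖ := by
    rw [norm_smul, Real.norm_eq_abs, abs_of_pos (by linarith)]
  have h4 : ‖t • x‖ ≤ ‖Φ t x‖ + ‖Φ t x - t • x‖ := by
    have := norm_sub_le (Φ t x) (Φ t x - t • x)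
    simpa using this
  have h5 : ‖Φ t x‖ ≤ ‖t • x‖ + ‖Φ t x - t • x‖ := by
    have := norm_add_le (t • x) (Φ t x - t • x)
    simpa using this
  have h6 : ‖x - Φ t x‖ ≤ (t - 1) * ‖x‖ + ‖Φ t x - t • x‖ := by
    have e : x - Φ t x = -((t - 1) • x + (Φ t x - t • x)) := by module
    rw [e, norm_neg]
    refine (norm_add_le _ _).trans ?_
    rw [norm_smul, Real.norm_eq_abs, abs_of_nonneg (by linarith)]
  rw [h3] at h4 h5
  have a1 : ‖x‖ ≤ ‖Φ t x‖ := by nlinarith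
  refine ⟨a1, ?_, by nlinarith, ?_⟩
  · have : ‖Φ t x‖ ≤ 3 * ‖x‖ := by nlinarith
    nlinarith
  · have h7 : ‖x‖ ^ 2 ≤ ‖Φ t x‖ ^ 2 := by gcongr
    have h8 : 3 * Λ * (t - 1) * ‖x‖ ^ 2 ≤ 3 * Λ * (t - 1) * ‖Φ t x‖ ^ 2 := by
      have : 0 ≤ t - 1 := by linarith
      gcongr
    nlinarith

theorem Flow.zero (F : Flow μ Ω Λ Φ Φ') {t : ℝ} (ht : t ∈ Icc (1:ℝ) 2) : Φ t 0 = 0 := by
  have := F.b2 0 (by simp) t ht
  simpa using this

theorem le_W {γ z : ℝ} (hγ0 : 0 < γ) (hγ1 : γ ≤ 1) (hΛ : 0 < Λ) (hz : 0 ≤ z) (h : Λ * z ≤ 1) :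
    Λ * z ≤ Λ ^ γ * z ^ γ := by
  rw [← Real.mul_rpow hΛ.le hz]
  have := Real.rpow_le_rpow_of_exponent_ge' (x := Λ * z) (y := 1) (z := γ) (by positivity) h
    hγ0.le hγ1
  rwa [Real.rpow_one] at this

theorem Flow.chi (F : Flow μ Ω Λ Φ Φ') (C : Cut L Λ χ) (hL : 0 ≤ L) (hΛ : 0 < Λ) {γ : ℝ}
    (hγ0 : 0 < γ) (hγ1 : γ ≤ 1) (x : E) {t : ℝ} (ht : t ∈ Icc (1:ℝ) 2) :
    |χ x ^ 2 - χ (Φ t x) ^ 2| ≤ 4 * L * (t - 1) * (Λ ^ γ * ‖Φ t x‖ ^ γ) := by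
  have ht1 : 0 ≤ t - 1 := by linarith [ht.1]
  rcases le_or_gt (Λ * ‖x‖) (1 / 5) with hx | hx
  · obtain ⟨g1, g2, g3, -⟩ := F.geo hΛ hx ht
    have h1 := C.lip x (Φ t x)
    have h2 := le_W hγ0 hγ1 hΛ (norm_nonneg _) g2
    have h3 : L * Λ * ‖x - Φ t x‖ ≤ L * Λ * (2 * (t - 1) * ‖Φ t x‖) := by
      gcongr
      exact g3.trans (by gcongr)
    have h4 : L * Λ * (2 * (t - 1) * ‖Φ t x‖) ≤ 2 * L * (t - 1) * (Λ ^ γ * ‖Φ t x‖ ^ γ) := by
      have : L * Λ * (2 * (t - 1) * ‖Φ t x‖) = 2 * L * (t - 1) * (Λ * ‖Φ t x‖) := by ring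
      rw [this]; gcongr
    have e : χ x ^ 2 - χ (Φ t x) ^ 2 = (χ x + χ (Φ t x)) * (χ x - χ (Φ t x)) := by ring
    rw [e, abs_mul, abs_of_nonneg (add_nonneg (C.nonneg _) (C.nonneg _))]
    have h5 : χ x + χ (Φ t x) ≤ 2 := by linarith [C.le_one x, C.le_one (Φ t x)]
    have h6 := mul_le_mul h5 (h1.trans (h3.trans h4)) (abs_nonneg _) (by norm_num)
    linarith
  · have h1 : χ x = 0 := (C.zero (by linarith)).1
    have h2 : χ (Φ t x) = 0 := by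
      refine (C.zero ?_).1
      by_contra h
      exact absurd (F.back x t ht (not_lt.1 h)) (not_le.2 hx)
    rw [h1, h2]
    simp only [sub_self, abs_zero]
    positivity

theorem Cut.sq_le (C : Cut L Λ χ) (x : E) : χ x ^ 2 ≤ 1 :=
  pow_le_one₀ (C.nonneg x) (C.le_one x)

variable {s p q m α γ : ℝ}

theorem Flow.P1 (F : Flow μ Ω Λ Φ Φ') (C : Cut L Λ χ) (hL : 0 ≤ L) (hΛ : 0 < Λ)
    (P : Par (finrank ℝ E) s p q m α γ) (x : E) {t : ℝ} (ht : t ∈ Icc (1:ℝ) 2) (g : E) :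
    χ x ^ 2 * ‖t ^ α • ContinuousLinearMap.adjoint (fderiv ℝ (Φ t) x) g‖ ^ 2
      ≤ t ^ (finrank ℝ E : ℝ) * (χ (Φ t x) ^ 2 * ‖g‖ ^ 2
        + (4 * L + 6) * (t - 1) * Λ ^ γ * (‖Φ t x‖ ^ γ * ‖g‖ ^ 2)) := by
  have ht1 : 0 ≤ t - 1 := by linarith [ht.1]
  have ht0 : 0 < t := by linarith [ht.1]
  rcases le_or_gt (Λ * ‖x‖) (1 / 5) with hx | hx
  · obtain ⟨g1, g2, g3, -⟩ := F.geo hΛ hx ht
    have h2 := le_W P.γ_pos P.γ_le_one hΛ (norm_nonneg _) g2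
    have h1 := F.chi C hL hΛ P.γ_pos P.γ_le_one x ht
    set W := Λ ^ γ * ‖Φ t x‖ ^ γ with hW
    have hW0 : 0 ≤ W := by positivity
    have h3 := norm_adjoint_apply_le (fderiv ℝ (Φ t) x) g
    have h4 := F.b3 x hx t ht
    have h5 : ‖t ^ α • ContinuousLinearMap.adjoint (fderiv ℝ (Φ t) x) g‖
        ≤ t ^ α * (t * (1 + Λ * (t - 1) * ‖x‖) * ‖g‖) := by
      rw [norm_smul, Real.norm_eq_abs, abs_of_pos (by positivity)]
      gcongr
      exact h3.trans (by gcongr)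
    have h6 := pow_le_pow_left₀ (norm_nonneg _) h5 2
    have e : (t ^ α * (t * (1 + Λ * (t - 1) * ‖x‖) * ‖g‖)) ^ 2
        = t ^ (finrank ℝ E : ℝ) * ((1 + (t - 1) * (Λ * ‖x‖)) ^ 2 * ‖g‖ ^ 2) := by
      have : t ^ (finrank ℝ E : ℝ) = (t ^ α) ^ 2 * t ^ 2 := by
        rw [← Real.rpow_two, ← Real.rpow_two, ← Real.rpow_mul ht0.le, ← Real.rpow_add ht0]
        congr 1; linarith [P.α2]
      rw [this]; ring
    rw [e] at h6
    have h7 : (1 + (t - 1) * (Λ * ‖x‖)) ^ 2 ≤ 1 + 3 * (t - 1) * W := by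
      have a1 : Λ * ‖x‖ ≤ W := (mul_le_mul_of_nonneg_left g1 hΛ.le).trans h2
      have a2 : 0 ≤ (t - 1) * (Λ * ‖x‖) := by positivity
      have a3 : (t - 1) * (Λ * ‖x‖) ≤ 1 := by nlinarith [ht.2]
      have a4 : (t - 1) * (Λ * ‖x‖) ≤ (t - 1) * W := by gcongr
      nlinarith
    have h8 : χ x ^ 2 * (1 + (t - 1) * (Λ * ‖x‖)) ^ 2
        ≤ χ (Φ t x) ^ 2 + (4 * L + 6) * (t - 1) * W := by
      have a1 := mul_le_mul_of_nonneg_left h7 (sq_nonneg (χ x))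
      have a2 : χ x ^ 2 * (3 * (t - 1) * W) ≤ 1 * (3 * (t - 1) * W) := by
        gcongr; exact C.sq_le x
      have a3 := le_abs_self (χ x ^ 2 - χ (Φ t x) ^ 2)
      have a4 : 0 ≤ (t - 1) * W := by positivity
      nlinarith
    have h9 := mul_le_mul_of_nonneg_right h8 (sq_nonneg ‖g‖)
    have h10 := mul_le_mul_of_nonneg_left h9 (Real.rpow_nonneg ht0.le (finrank ℝ E : ℝ))
    have h11 := mul_le_mul_of_nonneg_left h6 (sq_nonneg (χ x))
    rw [hW] at h10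
    linarith
  · rw [(C.zero (by linarith)).1]
    simp only [ne_eq, OfNat.ofNat_ne_zero, not_false_eq_true, zero_pow, zero_mul]
    positivity

theorem Flow.P2 (F : Flow μ Ω Λ Φ Φ') (C : Cut L Λ χ) (hL : 0 ≤ L) (hΛ : 0 < Λ)
    (P : Par (finrank ℝ E) s p q m α γ) (x : E) {t : ℝ} (ht : t ∈ Icc (1:ℝ) 2) {z : ℝ}
    (hz : 0 ≤ z) :
    χ x ^ 2 * (t ^ α * z) ^ (p + 1)
      ≤ t ^ (finrank ℝ E : ℝ) * (t ^ (-γ) * (χ (Φ t x) ^ 2 * z ^ (p + 1))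
        + (4 * L + 6) * (t - 1) * Λ ^ γ * (‖Φ t x‖ ^ γ * z ^ (p + 1))) := by
  have ht1 : 0 ≤ t - 1 := by linarith [ht.1]
  have ht0 : 0 < t := by linarith [ht.1]
  have h1 := F.chi C hL hΛ P.γ_pos P.γ_le_one x ht
  set W := Λ ^ γ * ‖Φ t x‖ ^ γ with hW
  have hW0 : 0 ≤ W := by positivity
  have e : (t ^ α * z) ^ (p + 1) = t ^ (finrank ℝ E : ℝ) * (t ^ (-γ) * z ^ (p + 1)) := by
    rw [Real.mul_rpow (by positivity) hz, ← Real.rpow_mul ht0.le, ← mul_assoc,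
      ← Real.rpow_add ht0]
    congr 2; linarith [P.hγ]
  have h2 : t ^ (-γ) ≤ 1 := Real.rpow_le_one_of_one_le_of_nonpos ht.1 (by linarith [P.γ_pos])
  have h3 : 0 ≤ t ^ (-γ) := by positivity
  have h8 : χ x ^ 2 * t ^ (-γ) ≤ t ^ (-γ) * χ (Φ t x) ^ 2 + (4 * L + 6) * (t - 1) * W := by
    have a3 := le_abs_self (χ x ^ 2 - χ (Φ t x) ^ 2)
    have a4 : 0 ≤ (t - 1) * W := by positivity
    have a5 : 0 ≤ 4 * L * (t - 1) * W := by positivity
    have a6 := mul_le_mul_of_nonneg_left (a3.trans h1) h3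
    have a7 : t ^ (-γ) * (4 * L * (t - 1) * W) ≤ 1 * (4 * L * (t - 1) * W) := by gcongr
    nlinarith
  have h9 := mul_le_mul_of_nonneg_right h8 (Real.rpow_nonneg hz (p + 1))
  have h10 := mul_le_mul_of_nonneg_left h9 (Real.rpow_nonneg ht0.le (finrank ℝ E : ℝ))
  rw [hW] at h10
  rw [e]
  linarith

theorem Flow.P3 (F : Flow μ Ω Λ Φ Φ') (C : Cut L Λ χ) (hL : 0 ≤ L) (hΛ : 0 < Λ)
    (P : Par (finrank ℝ E) s p q m α γ) (x : E) {t : ℝ} (ht : t ∈ Icc (1:ℝ) 2) {z : ℝ}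
    (hz : 0 ≤ z) :
    t ^ (finrank ℝ E : ℝ) * (χ (Φ t x) ^ 2 * (z ^ q * ‖Φ t x‖ ^ (-s))
        - (4 * L + 6) * (t - 1) * Λ ^ γ * (‖Φ t x‖ ^ γ * (z ^ q * ‖Φ t x‖ ^ (-s))))
      ≤ χ x ^ 2 * ((t ^ α * z) ^ q * ‖x‖ ^ (-s)) := by
  have ht1 : 0 ≤ t - 1 := by linarith [ht.1]
  have ht0 : 0 < t := by linarith [ht.1]
  have h1 := F.chi C hL hΛ P.γ_pos P.γ_le_one x ht
  set W := Λ ^ γ * ‖Φ t x‖ ^ γ with hW
  have hW0 : 0 ≤ W := by positivity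
  have e : (t ^ α * z) ^ q * ‖x‖ ^ (-s)
      = t ^ (finrank ℝ E : ℝ) * (z ^ q * (t * ‖x‖) ^ (-s)) := by
    rw [Real.mul_rpow (by positivity) hz, Real.mul_rpow ht0.le (norm_nonneg _),
      ← Real.rpow_mul ht0.le, P.αq, sub_eq_add_neg, Real.rpow_add ht0]
    ring
  have key : (χ (Φ t x) ^ 2 - (4 * L + 6) * (t - 1) * W) * ‖Φ t x‖ ^ (-s)
      ≤ χ x ^ 2 * (t * ‖x‖) ^ (-s) := by
    have a3 := neg_abs_le (χ x ^ 2 - χ (Φ t x) ^ 2)
    have a4 : 0 ≤ (t - 1) * W := by positivity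
    rcases le_or_gt (Λ * ‖x‖) (1 / 5) with hx | hx
    · rcases eq_or_ne x 0 with rfl | hx0
      · rw [F.zero ht, norm_zero, mul_zero, Real.zero_rpow (by linarith [P.hs0])]
        simp
      obtain ⟨g1, g2, -, g4⟩ := F.geo hΛ hx ht
      have hr : 0 < ‖x‖ := norm_pos_iff.2 hx0
      have hR : 0 < ‖Φ t x‖ := by linarith
      have h2 := le_W P.γ_pos P.γ_le_one hΛ (norm_nonneg _) g2
      have h3 : (‖Φ t x‖ * (1 + 3 * (t - 1) * (Λ * ‖Φ t x‖))) ^ (-s) ≤ (t * ‖x‖) ^ (-s) :=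
        Real.rpow_le_rpow_of_nonpos (by positivity) g4 (by linarith [P.hs0])
      rw [Real.mul_rpow hR.le (by positivity)] at h3
      have h4 := one_sub_le_rpow_neg (t := 3 * (t - 1) * (Λ * ‖Φ t x‖)) (s := s) (by positivity)
        P.hs0.le
      have h5 : s * (3 * (t - 1) * (Λ * ‖Φ t x‖)) ≤ 2 * (3 * (t - 1) * W) := by
        gcongr; exact P.hs2.le
      have h6 : ‖Φ t x‖ ^ (-s) * (1 - 6 * (t - 1) * W) ≤ (t * ‖x‖) ^ (-s) := by
        refine le_trans ?_ h3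
        gcongr; linarith
      have h7 := mul_le_mul_of_nonneg_left h6 (sq_nonneg (χ x))
      have h8 : χ (Φ t x) ^ 2 - (4 * L + 6) * (t - 1) * W ≤ χ x ^ 2 * (1 - 6 * (t - 1) * W) := by
        have a2 : χ x ^ 2 * (6 * (t - 1) * W) ≤ 1 * (6 * (t - 1) * W) := by
          gcongr; exact C.sq_le x
        nlinarith
      have h9 := mul_le_mul_of_nonneg_right h8 (Real.rpow_nonneg hR.le (-s))
      linarith
    · have h2 : χ x = 0 := (C.zero (by linarith)).1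
      rw [h2] at a3 h1 ⊢
      have h8 : χ (Φ t x) ^ 2 - (4 * L + 6) * (t - 1) * W ≤ 0 := by nlinarith
      have h9 := mul_le_mul_of_nonneg_right h8 (Real.rpow_nonneg (norm_nonneg (Φ t x)) (-s))
      simpa using h9
  have h9 := mul_le_mul_of_nonneg_left key (Real.rpow_nonneg hz q)
  have h10 := mul_le_mul_of_nonneg_left h9 (Real.rpow_nonneg ht0.le (finrank ℝ E : ℝ))
  rw [hW] at h10
  rw [e]
  linarith

theorem Cut.P4 (C : Cut L Λ χ) (hΛ : 0 < Λ) (hγ0 : 0 < γ) (hγ1 : γ ≤ 1) (x : E) :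
    1 - 20 * Λ ^ γ * ‖x‖ ^ γ ≤ χ x ^ 2 := by
  rcases le_or_gt (Λ * ‖x‖) (1 / 20) with hx | hx
  · rw [C.one x hx]
    have : 0 ≤ 20 * Λ ^ γ * ‖x‖ ^ γ := by positivity
    linarith
  · have h1 : 1 ≤ (20 * (Λ * ‖x‖)) ^ γ := Real.one_le_rpow (by linarith) hγ0.le
    rw [Real.mul_rpow (by norm_num) (by positivity), Real.mul_rpow hΛ.le (norm_nonneg _)] at h1
    have h2 : (20:ℝ) ^ γ ≤ 20 := by
      have := Real.rpow_le_rpow_of_exponent_le (x := 20) (by norm_num) hγ1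
      rwa [Real.rpow_one] at this
    have h3 : (20:ℝ) ^ γ * (Λ ^ γ * ‖x‖ ^ γ) ≤ 20 * (Λ ^ γ * ‖x‖ ^ γ) := by gcongr
    nlinarith [sq_nonneg (χ x)]

end Pool.Agent.Lib.MP_a271d0_an.G
end

-- part Pool.Agent.Lib.MP_a271d0_an.GStep
section

set_option autoImplicit false
set_option linter.unusedSectionVars false
open MeasureTheory Filter Topology Set Module
open scoped ENNReal

namespace Pool.Agent.Lib.MP_a271d0_an.G

variable {E : Type*} [NormedAddCommGroup E] [InnerProductSpace ℝ E] [CompleteSpace E]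
  [FiniteDimensional ℝ E] [MeasurableSpace E] [BorelSpace E]
variable {μ : Measure E} [μ.IsAddHaarMeasure] {Ω : Set E} {Λ L : ℝ} {Φ Φ' : ℝ → E → E}
  {χ : E → ℝ} {u : E → ℝ} {G : E → E} {φ : ℕ → E → ℝ} {s p q m α γ : ℝ}

/-- localised singular weight -/
noncomputable def wt (Λ γ : ℝ) (x : E) : ℝ := if Λ * ‖x‖ ≤ 1 / 5 then ‖x‖ ^ (γ - 2) else 0

theorem wt_nonneg (Λ γ : ℝ) (x : E) : 0 ≤ wt Λ γ x := by
  unfold wt; split_ifs <;> positivity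

theorem wt_le (Λ γ : ℝ) (x : E) : wt Λ γ x ≤ ‖x‖ ^ (γ - 2) := by
  unfold wt; split_ifs
  · exact le_rfl
  · positivity

theorem wt_meas (Λ γ : ℝ) : Measurable (wt Λ γ : E → ℝ) := by
  unfold wt
  refine Measurable.ite ?_ (by fun_prop) measurable_const
  exact measurableSet_le (by fun_prop) measurable_const

theorem one_le_wt (hΛ : 0 < Λ) (hγ1 : γ ≤ 1) {x : E} (hx0 : x ≠ 0) (hx : Λ * ‖x‖ ≤ 1 / 5) :
    1 ≤ Λ ^ (γ - 2) * wt Λ γ x := by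
  unfold wt
  rw [if_pos hx, ← Real.mul_rpow hΛ.le (norm_nonneg _)]
  have hr : 0 < ‖x‖ := norm_pos_iff.2 hx0
  exact Real.one_le_rpow_of_pos_of_le_one_of_nonpos (by positivity) (by linarith) (by linarith)

theorem pow_neg_le_one {t : ℝ} (ht : 1 ≤ t) : t ^ (-(finrank ℝ E : ℝ)) ≤ 1 :=
  Real.rpow_le_one_of_one_le_of_nonpos ht (by simp)

theorem Flow.I5a (F : Flow μ Ω Λ Φ Φ') (hΛ : 0 < Λ) (S : H10 μ Ω u G φ) (hγ0 : 0 < γ)
    {ρ : ℝ} (hρ : ∀ x ∈ Ω, ‖x‖ ≤ ρ) {t : ℝ} (ht : t ∈ Icc (1:ℝ) 2) :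
    Integrable (fun x => wt Λ γ x * (u (Φ t x) - u x) ^ 2) μ ∧
    ∫ x, wt Λ γ x * (u (Φ t x) - u x) ^ 2 ∂μ
      ≤ (t - 1) ^ 2 * (4 * ∫ x, ‖x‖ ^ γ * ‖G x‖ ^ 2 ∂μ) := by
  have hw : ∀ x ∈ Ω, ‖x‖ ^ γ ≤ |ρ| ^ γ := fun x hx =>
    Real.rpow_le_rpow (norm_nonneg _) ((hρ x hx).trans (le_abs_self ρ)) hγ0.le
  obtain ⟨-, cA⟩ := S.cAw (m := fun x => ‖x‖ ^ γ) (by fun_prop) (fun x => by positivity) hw
  have key := fun n => path_est μ (S.test n).c1 (Φ := Φ) (Φ' := Φ') ht.1 F.one F.cont F.cont'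
    F.der (w := wt Λ γ) (m := fun y => 4 * ‖y‖ ^ γ) (wt_meas Λ γ) (wt_nonneg Λ γ) (by fun_prop)
    (fun x => by positivity)
    (fun x t' ht' => by
      have ht'' : t' ∈ Icc (1:ℝ) 2 := ⟨ht'.1, ht'.2.trans ht.2⟩
      unfold wt
      split_ifs with hx
      · obtain ⟨g1, -⟩ := F.geo hΛ hx ht''
        have h1 := F.b1 x hx t' ht''
        have h2 : ‖Φ' t' x‖ ^ 2 ≤ (2 * ‖x‖) ^ 2 := by gcongr
        have h3 : ‖x‖ ^ (γ - 2) * (2 * ‖x‖) ^ 2 = 4 * ‖x‖ ^ γ := by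
          have : ‖x‖ ^ γ = ‖x‖ ^ (γ - 2) * ‖x‖ ^ 2 := by
            rw [← Real.rpow_two, ← Real.rpow_add' (norm_nonneg _) (by linarith)]
            congr 1; ring
          rw [this]; ring
        calc _ ≤ ‖x‖ ^ (γ - 2) * (2 * ‖x‖) ^ 2 := by gcongr
          _ = 4 * ‖x‖ ^ γ := h3
          _ ≤ _ := by gcongr
      · rw [zero_mul]; positivity)
    (by
      have := (int_w_grad_sq μ (S.test n).c1 (S.test n).2.1 hγ0.le).const_mul 4
      simpa only [mul_assoc] using this)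
    (fun t' ht' H hH => by
      obtain ⟨Ψ, h1, h2, -⟩ := F.hom t' ⟨ht'.1, ht'.2.trans ht.2⟩
      simp only [← h1]
      rw [← lintegral_map hH Ψ.continuous.measurable, h2, lintegral_smul_measure, smul_eq_mul]
      refine mul_le_of_le_one_left' ?_
      rw [ENNReal.ofReal_le_one]
      exact pow_neg_le_one ht'.1)
  obtain ⟨Ψ, h1, h2, -⟩ := F.hom t ht
  refine fatou_real (f := fun n x => wt Λ γ x * (φ n (Φ t x) - φ n x) ^ 2)
    (c := fun n => (t - 1) ^ 2 * (4 * ∫ x, ‖x‖ ^ γ * ‖gradient (φ n) x‖ ^ 2 ∂μ))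
    (fun n => (key n).1)
    (fun n => ae_of_all _ (fun x => mul_nonneg (wt_nonneg _ _ _) (sq_nonneg _))) ?_
    (fun n => ?_) ((cA.const_mul 4).const_mul _)
  · filter_upwards [S.aew, ae_comp h2 S.aew] with x a1 a2
    rw [h1] at a2
    exact ((a2.sub a1).pow 2).const_mul _
  · have := (key n).2
    simp only [mul_assoc] at this
    rwa [integral_const_mul] at this

theorem Flow.I5 (F : Flow μ Ω Λ Φ Φ') (hΛ : 0 < Λ) (S : H10 μ Ω u G φ) (hγ0 : 0 < γ)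
    (hα : 0 ≤ α) {ρ : ℝ} (hρ : ∀ x ∈ Ω, ‖x‖ ≤ ρ)
    (iH : Integrable (fun x => ‖x‖ ^ (γ - 2) * u x ^ 2) μ) {t : ℝ} (ht : t ∈ Icc (1:ℝ) 2) :
    Integrable (fun x => wt Λ γ x * (t ^ α * u (Φ t x) - u x) ^ 2) μ ∧
    ∫ x, wt Λ γ x * (t ^ α * u (Φ t x) - u x) ^ 2 ∂μ
      ≤ (t - 1) ^ 2 * (8 * ((α + 1) * 2 ^ α) ^ 2 * (∫ x, ‖x‖ ^ γ * ‖G x‖ ^ 2 ∂μ
        + ∫ x, ‖x‖ ^ (γ - 2) * u x ^ 2 ∂μ)) := by
  obtain ⟨i1, e1⟩ := F.I5a hΛ S hγ0 hρ ht
  obtain ⟨Ψ, h1, h2, -⟩ := F.hom t ht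
  set K := (α + 1) * 2 ^ α with hK
  have ht0 : 0 < t := by linarith [ht.1]
  have k1 : t ^ α ≤ K := by
    have : t ^ α ≤ 2 ^ α := by gcongr; exact ht.2
    have h3 : (0:ℝ) < 2 ^ α := by positivity
    rw [hK]; nlinarith
  have k2 : t ^ α - 1 ≤ K * (t - 1) := by
    have := rpow_sub_one_le (δ := t - 1) (by linarith [ht.1]) (by linarith [ht.2]) hα
    rwa [add_sub_cancel] at this
  have k3 : 0 ≤ t ^ α - 1 := by linarith [Real.one_le_rpow ht.1 hα]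
  have hum : AEMeasurable u μ := S.mw.aemeasurable
  have hum' : AEMeasurable (fun x => u (Φ t x)) μ := by
    have h3 : AEMeasurable u (Measure.map Ψ μ) := by
      rw [h2]; exact hum.smul_measure _
    simp only [← h1]
    exact h3.comp_aemeasurable Ψ.continuous.measurable.aemeasurable
  have j := (i1.const_mul (2 * K ^ 2)).add (iH.const_mul (2 * K ^ 2 * (t - 1) ^ 2))
  have pw : ∀ x, wt Λ γ x * (t ^ α * u (Φ t x) - u x) ^ 2
      ≤ 2 * K ^ 2 * (wt Λ γ x * (u (Φ t x) - u x) ^ 2)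
        + 2 * K ^ 2 * (t - 1) ^ 2 * (‖x‖ ^ (γ - 2) * u x ^ 2) := by
    intro x
    have a1 : (t ^ α * u (Φ t x) - u x) ^ 2
        ≤ 2 * (t ^ α) ^ 2 * (u (Φ t x) - u x) ^ 2 + 2 * (t ^ α - 1) ^ 2 * u x ^ 2 := by
      nlinarith [sq_nonneg (t ^ α * (u (Φ t x) - u x) - (t ^ α - 1) * u x)]
    have a2 : 2 * (t ^ α) ^ 2 * (u (Φ t x) - u x) ^ 2 ≤ 2 * K ^ 2 * (u (Φ t x) - u x) ^ 2 := by
      gcongr
    have a3 : 2 * (t ^ α - 1) ^ 2 * u x ^ 2 ≤ 2 * (K * (t - 1)) ^ 2 * u x ^ 2 := by gcongr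
    have a4 := mul_le_mul_of_nonneg_left (a1.trans (add_le_add a2 a3)) (wt_nonneg Λ γ x)
    have a5 : wt Λ γ x * (2 * (K * (t - 1)) ^ 2 * u x ^ 2)
        ≤ ‖x‖ ^ (γ - 2) * (2 * (K * (t - 1)) ^ 2 * u x ^ 2) := by
      gcongr; exact wt_le _ _ _
    linarith
  have hm : ∀ f : E → ℝ, AEMeasurable f μ →
      AEMeasurable (fun x => wt Λ γ x * (t ^ α * f x - u x) ^ 2) μ := fun f hf => by
    have := wt_meas (E := E) Λ γ
    fun_prop
  have i0 : Integrable (fun x => wt Λ γ x * (t ^ α * u (Φ t x) - u x) ^ 2) μ := by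
    refine j.mono' (hm _ hum').aestronglyMeasurable (ae_of_all _ (fun x => ?_))
    rw [Real.norm_eq_abs, abs_of_nonneg (mul_nonneg (wt_nonneg _ _ _) (sq_nonneg _))]
    exact pw x
  refine ⟨i0, ?_⟩
  have := integral_mono i0 j pw
  simp only [Pi.add_apply] at this
  rw [integral_add (i1.const_mul _) (iH.const_mul _), integral_const_mul,
    integral_const_mul] at this
  have a1 := mul_le_mul_of_nonneg_left e1 (show 0 ≤ 2 * K ^ 2 by positivity)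
  have a2 : 0 ≤ K ^ 2 * (t - 1) ^ 2 * ∫ x, ‖x‖ ^ (γ - 2) * u x ^ 2 ∂μ :=
    mul_nonneg (by positivity) (integral_nonneg (fun x => by positivity))
  linarith

theorem grad_const_mul {f : E → ℝ} (hf : Differentiable ℝ f) (a : ℝ) (x : E) :
    gradient (fun z => a * f z) x = a • gradient f x := by
  rw [grad_mul (differentiableAt_const a) (hf x), gradient_fun_const]
  simp

theorem Cut.mul (C : Cut L Λ χ) {Ω₁ : Set E} {w : E → ℝ} {Gw : E → E} {ψ : ℕ → E → ℝ}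
    (S : H10 μ Ω₁ w Gw ψ) (h0 : (0:E) ∉ Ω₁) (hn : 3 ≤ finrank ℝ E) (a : ℝ)
    (hsub : ∀ x ∈ Ω₁, Λ * ‖x‖ ≤ 1 / 5 → x ∈ Ω) :
    H10 μ Ω (fun x => a * χ x * w x) (fun x => (a * χ x) • Gw x + (a * w x) • gradient χ x)
      (fun n x => a * χ x * ψ n x) := by
  have hd : Differentiable ℝ χ := C.smooth.differentiable (by simp)
  have := S.mul h0 hn (m := fun x => a * χ x)
    (fun x _ => (contDiff_const.mul C.smooth).contDiffAt) (C := a ^ 2 * (1 + (L * Λ) ^ 2))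
    (by positivity) (fun x _ => ⟨by
      have h1 := C.sq_le x
      have h2 : a ^ 2 * χ x ^ 2 ≤ a ^ 2 * (1 + (L * Λ) ^ 2) := by
        gcongr; linarith [sq_nonneg (L * Λ)]
      linarith, by
      rw [grad_const_mul hd, norm_smul, mul_pow, Real.norm_eq_abs, sq_abs, mul_assoc]
      have h1 : ‖gradient χ x‖ ^ 2 ≤ (L * Λ) ^ 2 := by
        gcongr; exact C.grad x
      have h2 : 0 ≤ ‖x‖ ^ (-2 : ℝ) := by positivity
      gcongr
      nlinarith [sq_nonneg (L * Λ)]⟩) (Ω' := Ω)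
    (fun x hx => hsub x hx.1 ((C.supp x (tsupport_mul_subset_right hx.2)).trans (by norm_num)))
  convert this using 2 with x
  rw [grad_const_mul hd, smul_smul, mul_comm (w x) a]

theorem Cut.int (C : Cut L Λ χ) {f : E → ℝ} (hf : Integrable f μ) :
    Integrable (fun x => χ x ^ 2 * f x) μ :=
  hf.bdd_mul (c := 1) (C.smooth.continuous.pow 2).aestronglyMeasurable
    (ae_of_all _ (fun x => by
      rw [Real.norm_eq_abs, abs_of_nonneg (sq_nonneg _)]; exact C.sq_le x))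

theorem H10.intB {w : E → ℝ} {Gw : E → E} {ψ : ℕ → E → ℝ} (S : H10 μ Ω w Gw ψ)
    (P : Par (finrank ℝ E) s p q m α γ) (h0 : (0:E) ∉ Ω) (hw : ∀ᵐ x ∂μ, 0 ≤ w x) {a : ℝ}
    (ha : 0 ≤ a) :
    Integrable (fun x => (a * w x) ^ (p + 1)) μ ∧
      Integrable (fun x => (a * w x) ^ q * ‖x‖ ^ (-s)) μ := by
  have hum : AEMeasurable w μ := S.mw.aemeasurable
  constructor
  · refine ((S.intNN P h0).1.const_mul (a ^ (p + 1))).mono' ?_ ?_
    · apply AEMeasurable.aestronglyMeasurable; fun_prop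
    · filter_upwards [hw] with x hx
      have := P.NN1 (w x) x
      rw [abs_of_nonneg hx] at this
      rw [Real.norm_eq_abs, abs_of_nonneg (by positivity), Real.mul_rpow ha hx]
      gcongr
  · refine ((S.intNN P h0).1.const_mul (a ^ q)).mono' ?_ ?_
    · apply AEMeasurable.aestronglyMeasurable; fun_prop
    · filter_upwards [hw] with x hx
      have := P.NN2 (w x) x
      rw [abs_of_nonneg hx] at this
      rw [Real.norm_eq_abs, abs_of_nonneg (by positivity), Real.mul_rpow ha hx, mul_assoc]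
      gcongr

theorem Cut.cross (C : Cut L Λ χ) (hL : 0 ≤ L) (hΛ : 0 < Λ) (hγ1 : γ ≤ 1) {x : E} (hx0 : x ≠ 0)
    {δ : ℝ} (hδ : 0 < δ) (h : ℝ) (g : E) :
    2 * (χ x * h) * inner ℝ g (gradient χ x)
      ≤ L * Λ ^ γ * (δ * (‖x‖ ^ γ * ‖g‖ ^ 2) + δ⁻¹ * (wt Λ γ x * h ^ 2)) := by
  have hr : 0 < ‖x‖ := norm_pos_iff.2 hx0
  rcases le_or_gt (Λ * ‖x‖) (1 / 5) with hx | hx
  · have h1 := abs_real_inner_le_norm g (gradient χ x)
    have h2 : |2 * (χ x * h) * inner ℝ g (gradient χ x)| ≤ 2 * (1 * |h|) * (‖g‖ * (L * Λ)) := by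
      rw [abs_mul, abs_mul, abs_mul, abs_of_nonneg (C.nonneg x), abs_two]
      gcongr
      · exact C.le_one x
      · exact h1.trans (by gcongr; exact C.grad x)
    have h3 : 1 ≤ (Λ * ‖x‖) ^ (γ - 1) :=
      Real.one_le_rpow_of_pos_of_le_one_of_nonpos (by positivity) (by linarith) (by linarith)
    rw [Real.mul_rpow hΛ.le hr.le] at h3
    have a4 : ‖x‖ ^ (γ - 1) = ‖x‖ ^ (γ - 2) * ‖x‖ := by
      rw [← Real.rpow_add_one hr.ne']; congr 1; ring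
    have a3 : ‖x‖ ^ γ = ‖x‖ ^ (γ - 2) * ‖x‖ ^ 2 := by
      rw [← Real.rpow_two, ← Real.rpow_add hr]; congr 1; ring
    have a5 : Λ ^ γ = Λ ^ (γ - 1) * Λ := by
      rw [← Real.rpow_add_one hΛ.ne']; congr 1; ring
    have h4 : Λ ≤ Λ ^ γ * (‖x‖ ^ (γ - 2) * ‖x‖) := by
      rw [a5, ← a4]; nlinarith
    have h5 : 2 * (1 * |h|) * (‖g‖ * (L * Λ))
        ≤ 2 * (1 * |h|) * (‖g‖ * (L * (Λ ^ γ * (‖x‖ ^ (γ - 2) * ‖x‖)))) := by gcongr
    have h6 : 2 * (|h| * (‖x‖ * ‖g‖)) ≤ δ * (‖x‖ * ‖g‖) ^ 2 + δ⁻¹ * h ^ 2 := by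
      have b0 : 0 ≤ δ⁻¹ * (δ * (‖x‖ * ‖g‖) - |h|) ^ 2 := by positivity
      have b1 : δ⁻¹ * (δ * (‖x‖ * ‖g‖) - |h|) ^ 2
          = δ * (‖x‖ * ‖g‖) ^ 2 + δ⁻¹ * |h| ^ 2 - 2 * (|h| * (‖x‖ * ‖g‖)) := by
        field_simp; ring
      rw [sq_abs] at b1
      linarith
    have h7 := mul_le_mul_of_nonneg_left h6
      (show 0 ≤ L * Λ ^ γ * ‖x‖ ^ (γ - 2) by positivity)
    unfold wt
    rw [if_pos hx, a3]
    linarith [le_abs_self (2 * (χ x * h) * inner ℝ g (gradient χ x))]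
  · rw [(C.zero (by linarith)).1]
    have := wt_nonneg Λ γ x
    simp only [zero_mul, mul_zero]
    positivity

theorem Cut.pk (C : Cut L Λ χ) (hΛ : 0 < Λ) (hγ1 : γ ≤ 1) {x : E} (hx0 : x ≠ 0)
    (h : ℝ) (g : E) :
    (χ x * h) ^ 2 ≤ Λ ^ (γ - 2) * (wt Λ γ x * h ^ 2) ∧
    ‖χ x • g + h • gradient χ x‖ ^ 2
      ≤ 2 * (χ x ^ 2 * ‖g‖ ^ 2) + 2 * (L * Λ) ^ 2 * Λ ^ (γ - 2) * (wt Λ γ x * h ^ 2) := by
  have hw := wt_nonneg Λ γ x
  rcases le_or_gt (Λ * ‖x‖) (1 / 5) with hx | hx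
  · have h1 := mul_le_mul_of_nonneg_right (one_le_wt hΛ hγ1 hx0 hx) (sq_nonneg h)
    constructor
    · have h2 := mul_le_mul_of_nonneg_right (C.sq_le x) (sq_nonneg h)
      linarith
    · have h2 := norm_add_sq_le (χ x • g) (h • gradient χ x)
      rw [norm_smul, norm_smul, mul_pow, mul_pow, Real.norm_eq_abs, Real.norm_eq_abs, sq_abs,
        sq_abs] at h2
      have h3 : ‖gradient χ x‖ ^ 2 ≤ (L * Λ) ^ 2 := by
        gcongr; exact C.grad x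
      have h4 := mul_le_mul_of_nonneg_left h3 (sq_nonneg h)
      have h5 := mul_le_mul_of_nonneg_left h1 (sq_nonneg (L * Λ))
      linarith
  · rw [(C.zero (by linarith)).1, (C.zero (by linarith)).2]
    simp only [zero_mul, zero_smul, smul_zero, add_zero, norm_zero, ne_eq, OfNat.ofNat_ne_zero,
      not_false_eq_true, zero_pow, mul_zero, zero_add]
    constructor <;> positivity

theorem point_main (P : Par (finrank ℝ E) s p q m α γ) {a u v r : ℝ} (hu : 0 ≤ u) (hv : 0 ≤ v)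
    (hr : 0 ≤ r) (g g' d : E) :
    inner ℝ g (a • (a • (g' - g) + (v - u) • d) + (a * (v - u)) • d) + u ^ p * (a * (a * (v - u)))
        - u ^ (q - 1) * (a * (a * (v - u))) * r
      ≤ (a ^ 2 * ‖g'‖ ^ 2 - a ^ 2 * ‖g‖ ^ 2 - a ^ 2 * ‖g' - g‖ ^ 2) / 2
        + 2 * (a * (v - u)) * inner ℝ g d
        + (a ^ 2 * v ^ (p + 1) - a ^ 2 * u ^ (p + 1)) / (p + 1)
        - (a ^ 2 * (v ^ q * r) - a ^ 2 * (u ^ q * r)) / q
        + (q - 1) * (u ^ (q - 2) * r * (a * (v - u)) ^ 2 + v ^ (q - 2) * r * (a * (v - u)) ^ 2) := by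
  have hp := P.p_gt
  have hq := P.q_gt
  have e1 : inner ℝ g (a • (a • (g' - g) + (v - u) • d) + (a * (v - u)) • d)
      = (a ^ 2 * ‖g'‖ ^ 2 - a ^ 2 * ‖g‖ ^ 2 - a ^ 2 * ‖g' - g‖ ^ 2) / 2
        + 2 * (a * (v - u)) * inner ℝ g d := by
    rw [norm_sub_sq_real, real_inner_comm]
    simp only [inner_add_left, inner_smul_left, inner_sub_left, real_inner_self_eq_norm_sq,
      conj_trivial, real_inner_comm d g]
    ring
  have e2 : u ^ p * (v - u) ≤ (v ^ (p + 1) - u ^ (p + 1)) / (p + 1) := by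
    have := convex_rpow hu hv (r := p + 1) (by linarith)
    rw [add_sub_cancel_right] at this
    rw [le_div_iff₀ (by linarith)]; linarith
  have e3 := second_order hu hv hq.le
  have e4 := mul_le_mul_of_nonneg_left e2 (sq_nonneg a)
  have e5 := mul_le_mul_of_nonneg_left e3 (mul_nonneg (sq_nonneg a) hr)
  rw [e1]
  have e6 : (a ^ 2 * v ^ (p + 1) - a ^ 2 * u ^ (p + 1)) / (p + 1)
      = a ^ 2 * ((v ^ (p + 1) - u ^ (p + 1)) / (p + 1)) := by ring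
  have e7 : (a ^ 2 * (v ^ q * r) - a ^ 2 * (u ^ q * r)) / q
      = a ^ 2 * r * ((v ^ q - u ^ q) / q) := by ring
  rw [e6, e7]
  linarith

end Pool.Agent.Lib.MP_a271d0_an.G
end

-- part Pool.Agent.Lib.MP_a271d0_an.GMain
section

set_option autoImplicit false
set_option linter.unusedSectionVars false
open MeasureTheory Filter Topology Set Module
open scoped ENNReal

namespace Pool.Agent.Lib.MP_a271d0_an.G

variable {E : Type*} [NormedAddCommGroup E] [InnerProductSpace ℝ E] [CompleteSpace E]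
  [FiniteDimensional ℝ E] [MeasurableSpace E] [BorelSpace E]
variable {μ : Measure E} [μ.IsAddHaarMeasure] {Ω : Set E} {Λ L : ℝ} {Φ Φ' : ℝ → E → E}
  {χ : E → ℝ} {u : E → ℝ} {G : E → E} {φ : ℕ → E → ℝ} {s p q m α γ : ℝ}

theorem iadd {f g : E → ℝ} (hf : Integrable f μ) (hg : Integrable g μ) :
    Integrable (fun x => f x + g x) μ := hf.add hg

theorem isub {f g : E → ℝ} (hf : Integrable f μ) (hg : Integrable g μ) :
    Integrable (fun x => f x - g x) μ := hf.sub hg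

theorem chg_le {Ψ : E ≃ₜ E} {t : ℝ} (ht : 0 < t)
    (hmap : Measure.map Ψ μ = ENNReal.ofReal (t ^ (-(finrank ℝ E : ℝ))) • μ)
    {f₁ f₂ : E → ℝ} (h₁ : Integrable f₁ μ) (h₂ : Integrable f₂ μ) (a b : ℝ) :
    Integrable (fun x => t ^ (finrank ℝ E : ℝ) * (a * f₁ (Ψ x) + b * f₂ (Ψ x))) μ ∧
    ∫ x, t ^ (finrank ℝ E : ℝ) * (a * f₁ (Ψ x) + b * f₂ (Ψ x)) ∂μ
      = a * ∫ x, f₁ x ∂μ + b * ∫ x, f₂ x ∂μ := by
  have j : Integrable (fun x => a * f₁ x + b * f₂ x) μ := (h₁.const_mul a).add (h₂.const_mul b)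
  refine ⟨(int_comp hmap j).const_mul _, ?_⟩
  rw [integral_const_mul, integral_comp hmap (by positivity) (fun x => a * f₁ x + b * f₂ x),
    ← mul_assoc, ← Real.rpow_add ht, add_neg_cancel, Real.rpow_zero, one_mul,
    integral_add (h₁.const_mul a) (h₂.const_mul b), integral_const_mul, integral_const_mul]

theorem Flow.step (F : Flow μ Ω Λ Φ Φ') (C : Cut L Λ χ) (hL : 0 ≤ L) (hΛ : 0 < Λ)
    (P : Par (finrank ℝ E) s p q m α γ) (S : Sol μ Ω u G φ s p q) (h0 : (0:E) ∉ Ω) {ρ : ℝ}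
    (hρ : ∀ x ∈ Ω, ‖x‖ ≤ ρ) {Z : ℝ}
    (iA : Integrable (fun x => ‖x‖ ^ γ * ‖G x‖ ^ 2) μ)
    (eA : ∫ x, ‖x‖ ^ γ * ‖G x‖ ^ 2 ∂μ ≤ Z)
    (iB : Integrable (fun x => ‖x‖ ^ γ * u x ^ (p + 1)) μ)
    (eB : ∫ x, ‖x‖ ^ γ * u x ^ (p + 1) ∂μ ≤ Z)
    (iK : Integrable (fun x => ‖x‖ ^ γ * (u x ^ q * ‖x‖ ^ (-s))) μ)
    (eK : ∫ x, ‖x‖ ^ γ * (u x ^ q * ‖x‖ ^ (-s)) ∂μ ≤ Z)
    (iH : Integrable (fun x => ‖x‖ ^ (γ - 2) * u x ^ 2) μ)
    (eH : ∫ x, ‖x‖ ^ (γ - 2) * u x ^ 2 ∂μ ≤ Z) :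
    ∃ D : ℝ, 0 ≤ D ∧ ∀ δ : ℝ, 0 < δ → δ ≤ 1 →
      (1 - (1 + δ) ^ (-γ)) * (∫ x, χ x ^ 2 * u x ^ (p + 1) ∂μ) / (p + 1)
        ≤ δ * Λ ^ γ * (3 * (4 * L + 6) + L + L * (16 * ((α + 1) * 2 ^ α) ^ 2)) * Z
          + δ ^ 2 * D := by
  have hp := P.p_gt
  have hq := P.q_gt
  have hα := P.α_pos
  have hγ0 := P.γ_pos
  have hγ1 := P.γ_le_one
  have hA0 : 0 ≤ ∫ x, ‖x‖ ^ γ * ‖G x‖ ^ 2 ∂μ := integral_nonneg (fun x => by positivity)
  have hZ : 0 ≤ Z := hA0.trans eA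
  obtain ⟨T, hT0, hT⟩ := absorb S P h0 (ε := 1 / (20 * (q - 1))) (by
    have : 0 < q - 1 := by linarith
    positivity)
  set M := 16 * ((α + 1) * 2 ^ α) ^ 2 with hM
  have hM0 : 0 ≤ M := by positivity
  have hq1 : 0 < q - 1 := by linarith
  refine ⟨((L * Λ) ^ 2 + 5 * (q - 1) * T) * Λ ^ (γ - 2) * (M * Z), by positivity,
    fun δ hδ hδ1 => ?_⟩
  set t := 1 + δ with htd
  have ht : t ∈ Icc (1:ℝ) 2 := ⟨by linarith, by linarith⟩
  have ht0 : 0 < t := by linarith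
  have htδ : t - 1 = δ := by linarith
  obtain ⟨Ψ, h1, hmap, hsm⟩ := F.hom t ht
  have hΨ : ⇑Ψ = Φ t := funext h1
  have hκ0 : 0 ≤ t ^ (-(finrank ℝ E : ℝ)) := by positivity
  obtain ⟨CD, hCD⟩ : ∃ CD, ∀ x, Ψ x ∈ Ω → ‖fderiv ℝ Ψ x‖ ≤ CD := by
    have hc : IsCompact (Ψ ⁻¹' Metric.closedBall 0 ρ) :=
      Ψ.isCompact_preimage.2 (isCompact_closedBall 0 ρ)
    obtain ⟨CD, h⟩ := hc.exists_bound_of_continuousOn
      (hsm.continuous_fderiv (by simp)).continuousOn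
    exact ⟨CD, fun x hx => h x (by simpa using hρ _ hx)⟩
  have V := S.h.comp hmap hκ0 hsm hCD
  have h0' : (0:E) ∉ Ψ ⁻¹' Ω := by
    rw [mem_preimage, h1, F.zero ht]; exact h0
  have K1 := C.mul (Ω := Ω) V h0' P.fr (t ^ α)
    (fun x hx hx' => F.dom x hx' t ht (by rw [← h1]; exact hx))
  have K2 := C.mul (Ω := Ω) S.h h0 P.fr 1 (fun x hx _ => hx)
  set Gv : E → E := fun x => t ^ α • ContinuousLinearMap.adjoint (fderiv ℝ Ψ x) (G (Ψ x))
    with hGv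
  set v : E → ℝ := fun x => t ^ α * u (Ψ x) with hv
  have K : H10 μ Ω (fun x => χ x * (v x - u x))
      (fun x => χ x • (Gv x - G x) + (v x - u x) • gradient χ x)
      (fun n x => t ^ α * χ x * φ n (Ψ x) - 1 * χ x * φ n x) := by
    convert K1.sub K2 using 2 with x x
    · simp only [hv]; ring
    · simp only [hv, hGv]; module
  have Θ := C.mul (Ω := Ω) K h0 P.fr 1 (fun x hx _ => hx)
  simp only [one_mul] at Θ
  obtain ⟨iE, eE⟩ := S.eq_limit P h0 Θ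
  have hun := S.nonneg
  have hun' : ∀ᵐ x ∂μ, 0 ≤ u (Ψ x) := ae_comp hmap hun
  have : Nontrivial E := Module.nontrivial_of_finrank_pos (R := ℝ) (by linarith [P.fr])
  have hne : ∀ᵐ x ∂μ, x ≠ 0 := μ.ae_ne 0
  -- integrability
  have iGv : Integrable (fun x => ‖Gv x‖ ^ 2) μ := by
    have := V.iG.const_mul ((t ^ α) ^ 2)
    refine this.congr (ae_of_all _ (fun x => ?_))
    simp only [hGv, norm_smul, mul_pow, Real.norm_eq_abs, sq_abs]
  have mGv : AEStronglyMeasurable Gv μ := V.mG.const_smul (t ^ α)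
  have iD : Integrable (fun x => ‖Gv x - G x‖ ^ 2) μ := by
    refine ((iGv.const_mul 2).add (S.h.iG.const_mul 2)).mono' ((mGv.sub S.h.mG).norm.pow 2)
      (ae_of_all _ (fun x => ?_))
    rw [Real.norm_eq_abs, abs_of_nonneg (sq_nonneg _)]
    have := norm_add_sq_le (Gv x) (-G x)
    rw [norm_neg, ← sub_eq_add_neg] at this
    exact this
  obtain ⟨iv1, iv2⟩ := V.intB P h0' hun' (a := t ^ α) (by positivity)
  have iu1 := S.intB P h0
  have iu2 := S.intK P h0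
  obtain ⟨iW, eW⟩ := F.I5 hΛ S.h hγ0 hα.le hρ iH ht
  simp only [← h1] at iW eW
  rw [htδ] at eW
  change Integrable (fun x => wt Λ γ x * (v x - u x) ^ 2) μ at iW
  change ∫ x, wt Λ γ x * (v x - u x) ^ 2 ∂μ ≤ _ at eW
  change Integrable (fun x => v x ^ (p + 1)) μ at iv1
  change Integrable (fun x => v x ^ q * ‖x‖ ^ (-s)) μ at iv2
  obtain ⟨is0, es0⟩ := hT (Homeomorph.refl E) 1 (by simp) zero_le_one le_rfl _ _ _ K
  obtain ⟨is1, es1⟩ := hT Ψ _ hmap hκ0 (pow_neg_le_one ht.1) _ _ _ K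
  simp only [Homeomorph.refl_apply, id] at is0 es0
  -- changes of variables
  have I1 : ∫ x, χ x ^ 2 * ‖Gv x‖ ^ 2 ∂μ ≤ ∫ x, χ x ^ 2 * ‖G x‖ ^ 2 ∂μ
      + (4 * L + 6) * δ * Λ ^ γ * ∫ x, ‖x‖ ^ γ * ‖G x‖ ^ 2 ∂μ := by
    obtain ⟨j, e⟩ := chg_le ht0 hmap (C.int S.h.iG) iA 1 ((4 * L + 6) * δ * Λ ^ γ)
    simp only [one_mul] at j e
    rw [← e]
    refine integral_mono (C.int iGv) j (fun x => ?_)
    have := F.P1 C hL hΛ P x ht (G (Ψ x))
    rw [htδ, ← h1, ← hΨ] at this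
    exact this
  have I2 : ∫ x, χ x ^ 2 * v x ^ (p + 1) ∂μ ≤ t ^ (-γ) * ∫ x, χ x ^ 2 * u x ^ (p + 1) ∂μ
      + (4 * L + 6) * δ * Λ ^ γ * ∫ x, ‖x‖ ^ γ * u x ^ (p + 1) ∂μ := by
    obtain ⟨j, e⟩ := chg_le ht0 hmap (C.int iu1) iB (t ^ (-γ)) ((4 * L + 6) * δ * Λ ^ γ)
    rw [← e]
    refine integral_mono_ae (C.int iv1) j (hun'.mono (fun x hx => ?_))
    have := F.P2 C hL hΛ P x ht hx
    rw [htδ, ← h1] at this
    exact this
  have I3 : ∫ x, χ x ^ 2 * (u x ^ q * ‖x‖ ^ (-s)) ∂μ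
      - (4 * L + 6) * δ * Λ ^ γ * ∫ x, ‖x‖ ^ γ * (u x ^ q * ‖x‖ ^ (-s)) ∂μ
      ≤ ∫ x, χ x ^ 2 * (v x ^ q * ‖x‖ ^ (-s)) ∂μ := by
    obtain ⟨j, e⟩ := chg_le ht0 hmap (C.int iu2) iK 1 (-((4 * L + 6) * δ * Λ ^ γ))
    simp only [one_mul, neg_mul, ← sub_eq_add_neg] at j e
    rw [← e]
    refine integral_mono_ae j (C.int iv2) (hun'.mono (fun x hx => ?_))
    have := F.P3 C hL hΛ P x ht hx
    rw [htδ, ← h1] at this
    exact this
  have I6 : ∫ x, (χ x * (v x - u x)) ^ 2 ∂μ ≤ Λ ^ (γ - 2) * ∫ x, wt Λ γ x * (v x - u x) ^ 2 ∂μ := by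
    rw [← integral_const_mul]
    exact integral_mono_ae K.iw (iW.const_mul _)
      (hne.mono (fun x hx => (C.pk hΛ hγ1 hx _ (0:E)).1))
  have I7 : ∫ x, ‖χ x • (Gv x - G x) + (v x - u x) • gradient χ x‖ ^ 2 ∂μ
      ≤ 2 * ∫ x, χ x ^ 2 * ‖Gv x - G x‖ ^ 2 ∂μ
        + 2 * (L * Λ) ^ 2 * Λ ^ (γ - 2) * ∫ x, wt Λ γ x * (v x - u x) ^ 2 ∂μ := by
    rw [← integral_const_mul, ← integral_const_mul,
      ← integral_add ((C.int iD).const_mul _) (iW.const_mul _)]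
    exact integral_mono_ae K.iG (((C.int iD).const_mul _).add (iW.const_mul _))
      (hne.mono (fun x hx => (C.pk hΛ hγ1 hx _ _).2))
  -- the main inequality
  have j1 : Integrable (fun x => (χ x ^ 2 * ‖Gv x‖ ^ 2 - χ x ^ 2 * ‖G x‖ ^ 2
      - χ x ^ 2 * ‖Gv x - G x‖ ^ 2) / 2) μ :=
    (((C.int iGv).sub (C.int S.h.iG)).sub (C.int iD)).div_const 2
  have j2 : Integrable (fun x => L * Λ ^ γ * (δ * (‖x‖ ^ γ * ‖G x‖ ^ 2)
      + δ⁻¹ * (wt Λ γ x * (v x - u x) ^ 2))) μ :=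
    ((iA.const_mul _).add (iW.const_mul _)).const_mul _
  have j3 : Integrable (fun x => (χ x ^ 2 * v x ^ (p + 1) - χ x ^ 2 * u x ^ (p + 1)) / (p + 1)) μ :=
    ((C.int iv1).sub (C.int iu1)).div_const _
  have j4 : Integrable (fun x => (χ x ^ 2 * (v x ^ q * ‖x‖ ^ (-s))
      - χ x ^ 2 * (u x ^ q * ‖x‖ ^ (-s))) / q) μ := ((C.int iv2).sub (C.int iu2)).div_const _
  have j5 : Integrable (fun x => (q - 1) * (u x ^ (q - 2) * ‖x‖ ^ (-s) * (χ x * (v x - u x)) ^ 2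
      + 4 * (u (Ψ x) ^ (q - 2) * ‖x‖ ^ (-s) * (χ x * (v x - u x)) ^ 2))) μ :=
    (is0.add (is1.const_mul 4)).const_mul _
  have j12 := iadd j1 j2
  have j123 := iadd j12 j3
  have j1234 := isub j123 j4
  have t4 : (t ^ α) ^ (q - 2) ≤ 4 := by
    rw [← Real.rpow_mul ht0.le]
    have a1 : α * (q - 2) ≤ 2 := by linarith [P.αq, P.α2, P.hs0]
    calc t ^ (α * (q - 2)) ≤ t ^ (2:ℝ) := Real.rpow_le_rpow_of_exponent_le ht.1 a1
      _ ≤ 2 ^ (2:ℝ) := by gcongr; exact ht.2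
      _ = 4 := by norm_num
  have main := integral_mono_ae iE (iadd j1234 j5) (by
    filter_upwards [hun, hun', hne] with x a1 a2 a3
    have a4 : 0 ≤ v x := by simp only [hv]; positivity
    have b1 := point_main P (a := χ x) a1 a4 (Real.rpow_nonneg (norm_nonneg x) (-s)) (G x) (Gv x)
      (gradient χ x)
    have b2 := C.cross hL hΛ hγ1 a3 hδ (v x - u x) (G x)
    have b3 : v x ^ (q - 2) ≤ 4 * u (Ψ x) ^ (q - 2) := by
      simp only [hv]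
      rw [Real.mul_rpow (by positivity) a2]
      gcongr
    have b4 : (q - 1) * (v x ^ (q - 2) * ‖x‖ ^ (-s) * (χ x * (v x - u x)) ^ 2)
        ≤ (q - 1) * (4 * u (Ψ x) ^ (q - 2) * ‖x‖ ^ (-s) * (χ x * (v x - u x)) ^ 2) := by
      gcongr
    linarith)
  rw [eE] at main
  rw [integral_add j1234 j5, integral_sub j123 j4, integral_add j12 j3, integral_add j1 j2,
    integral_div, integral_div, integral_div, integral_const_mul, integral_const_mul,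
    integral_sub (isub (C.int iGv) (C.int S.h.iG)) (C.int iD),
    integral_sub (C.int iGv) (C.int S.h.iG), integral_add (iA.const_mul _) (iW.const_mul _),
    integral_sub (C.int iv1) (C.int iu1), integral_sub (C.int iv2) (C.int iu2),
    integral_add is0 (is1.const_mul 4), integral_const_mul, integral_const_mul,
    integral_const_mul] at main
  set A := ∫ x, ‖x‖ ^ γ * ‖G x‖ ^ 2 ∂μ
  set Bγ := ∫ x, ‖x‖ ^ γ * u x ^ (p + 1) ∂μ
  set Kγ := ∫ x, ‖x‖ ^ γ * (u x ^ q * ‖x‖ ^ (-s)) ∂μ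
  set H := ∫ x, ‖x‖ ^ (γ - 2) * u x ^ 2 ∂μ
  set Hh := ∫ x, wt Λ γ x * (v x - u x) ^ 2 ∂μ
  set a1 := ∫ x, χ x ^ 2 * ‖Gv x‖ ^ 2 ∂μ
  set a0 := ∫ x, χ x ^ 2 * ‖G x‖ ^ 2 ∂μ
  set Y := ∫ x, χ x ^ 2 * ‖Gv x - G x‖ ^ 2 ∂μ
  set b1 := ∫ x, χ x ^ 2 * v x ^ (p + 1) ∂μ
  set b0 := ∫ x, χ x ^ 2 * u x ^ (p + 1) ∂μ
  set k1 := ∫ x, χ x ^ 2 * (v x ^ q * ‖x‖ ^ (-s)) ∂μ
  set k0 := ∫ x, χ x ^ 2 * (u x ^ q * ‖x‖ ^ (-s)) ∂μ
  set s0 := ∫ x, u x ^ (q - 2) * ‖x‖ ^ (-s) * (χ x * (v x - u x)) ^ 2 ∂μ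
  set s1 := ∫ x, u (Ψ x) ^ (q - 2) * ‖x‖ ^ (-s) * (χ x * (v x - u x)) ^ 2 ∂μ
  set Yk := ∫ x, ‖χ x • (Gv x - G x) + (v x - u x) • gradient χ x‖ ^ 2 ∂μ
  set kk := ∫ x, (χ x * (v x - u x)) ^ 2 ∂μ
  set J := (4 * L + 6) * δ * Λ ^ γ with hJ
  have hJ0 : 0 ≤ J := by positivity
  have c0 : Hh ≤ δ ^ 2 * (M * Z) := by
    refine eW.trans ?_
    have : 8 * ((α + 1) * 2 ^ α) ^ 2 * (A + H) ≤ 8 * ((α + 1) * 2 ^ α) ^ 2 * (Z + Z) := by gcongr
    have h2 : 8 * ((α + 1) * 2 ^ α) ^ 2 * (Z + Z) = M * Z := by rw [hM]; ring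
    rw [h2] at this
    gcongr
  have c1 : (a1 - a0 - Y) / 2 ≤ J * Z - Y / 2 := by
    have : J * A ≤ J * Z := by gcongr
    have : 0 ≤ J * Z := by positivity
    linarith
  have c2 : L * Λ ^ γ * (δ * A + δ⁻¹ * Hh) ≤ L * Λ ^ γ * (δ * Z + δ * (M * Z)) := by
    have : δ⁻¹ * Hh ≤ δ * (M * Z) := by
      rw [inv_mul_le_iff₀ hδ]; linarith
    gcongr
  have c3 : (b1 - b0) / (p + 1) ≤ -((1 - t ^ (-γ)) * b0 / (p + 1)) + J * Z := by
    have d1 : J * Bγ ≤ J * Z := by gcongr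
    have d2 : (b1 - b0) / (p + 1) ≤ (-((1 - t ^ (-γ)) * b0) + J * Z) / (p + 1) := by
      gcongr; linarith
    have d3 : J * Z / (p + 1) ≤ J * Z := div_le_self (by positivity) (by linarith)
    rw [add_div, neg_div] at d2
    linarith
  have c4 : -((k1 - k0) / q) ≤ J * Z := by
    have d1 : J * Kγ ≤ J * Z := by gcongr
    have d2 : (k0 - k1) / q ≤ (J * Z) / q := by
      gcongr; linarith
    have d3 : J * Z / q ≤ J * Z := div_le_self (by positivity) (by linarith)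
    have : -((k1 - k0) / q) = (k0 - k1) / q := by ring
    linarith
  have c5 : (q - 1) * (s0 + 4 * s1)
      ≤ Y / 2 + δ ^ 2 * (((L * Λ) ^ 2 + 5 * (q - 1) * T) * Λ ^ (γ - 2) * (M * Z)) := by
    have d1 : (q - 1) * (s0 + 4 * s1) ≤ (q - 1) * (5 * (1 / (20 * (q - 1)) * Yk + T * kk)) := by
      gcongr; linarith
    have d2 : (q - 1) * (5 * (1 / (20 * (q - 1)) * Yk + T * kk))
        = Yk / 4 + 5 * (q - 1) * T * kk := by field_simp; ring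
    have d3 : 5 * (q - 1) * T * kk ≤ 5 * (q - 1) * T * (Λ ^ (γ - 2) * (δ ^ 2 * (M * Z))) := by
      gcongr
      exact I6.trans (by gcongr)
    have d4 : 2 * (L * Λ) ^ 2 * Λ ^ (γ - 2) * Hh
        ≤ 2 * (L * Λ) ^ 2 * Λ ^ (γ - 2) * (δ ^ 2 * (M * Z)) := by gcongr
    have d5 : 0 ≤ (L * Λ) ^ 2 * Λ ^ (γ - 2) * (δ ^ 2 * (M * Z)) := by positivity
    linarith
  rw [hJ] at c1 c3 c4
  linarith

theorem nonexist (μ : Measure E) [μ.IsAddHaarMeasure] (P : Par (finrank ℝ E) s p q m α γ) :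
    ∃ Λ₀ : ℝ, 0 < Λ₀ ∧ ∀ Λ : ℝ, 0 < Λ → Λ ≤ Λ₀ → ∀ (Ω : Set E) (Φ Φ' : ℝ → E → E) (ρ : ℝ)
      (u : E → ℝ) (G : E → E) (φ : ℕ → E → ℝ), Flow μ Ω Λ Φ Φ' → IsOpen Ω → Ω.Nonempty →
      (0:E) ∉ Ω → (∀ x ∈ Ω, ‖x‖ ≤ ρ) → ¬ Sol μ Ω u G φ s p q := by
  obtain ⟨CW, hCW0, hCW⟩ := weighted μ P
  obtain ⟨L, hL, hcut⟩ := exists_cut E
  have hp := P.p_gt
  have hα := P.α_pos
  have hγ0 := P.γ_pos
  have hγ1 := P.γ_le_one
  set K := 3 * (4 * L + 6) + L + L * (16 * ((α + 1) * 2 ^ α) ^ 2) with hK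
  have hK0 : 0 ≤ K := by positivity
  set β := γ / (3 * (p + 1)) with hβ
  have hβ0 : 0 < β := by positivity
  set ε := β / (2 * ((20 * β + K) * CW + 1)) with hε
  have hε0 : 0 < ε := by positivity
  refine ⟨ε ^ (1 / γ), by positivity, fun Λ hΛ hΛ0 Ω Φ Φ' ρ u G φ F hΩ hne h0 hρ S => ?_⟩
  have hΛε : Λ ^ γ ≤ ε := by
    calc Λ ^ γ ≤ (ε ^ (1 / γ)) ^ γ := by gcongr
      _ = ε := by rw [← Real.rpow_mul hε0.le, one_div_mul_cancel hγ0.ne', Real.rpow_one]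
  obtain ⟨χ, C⟩ := hcut Λ hΛ
  obtain ⟨⟨iA, eA⟩, ⟨iB, eB⟩, ⟨iK, eK⟩, ⟨iH, eH⟩⟩ := hCW Ω u G φ ρ S h0 hρ
  obtain ⟨D, hD0, hD⟩ := F.step C hL hΛ P S h0 hρ iA eA iB eB iK eK iH eH
  rw [← hK] at hD
  have iu1 := S.intB P h0
  set B := ∫ x, u x ^ (p + 1) ∂μ with hB
  have hBpos : 0 < B := by
    rw [hB, integral_pos_iff_support_of_nonneg_ae
      (S.nonneg.mono (fun x hx => Real.rpow_nonneg hx _)) iu1]
    refine lt_of_lt_of_le (hΩ.measure_pos μ hne) (measure_mono_ae ?_)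
    filter_upwards [S.pos] with x hx hxΩ
    exact (Real.rpow_pos_of_pos (hx hxΩ) _).ne'
  have I4 : B - 20 * Λ ^ γ * (CW * B) ≤ ∫ x, χ x ^ 2 * u x ^ (p + 1) ∂μ := by
    have h1 : ∫ x, (u x ^ (p + 1) - 20 * Λ ^ γ * (‖x‖ ^ γ * u x ^ (p + 1))) ∂μ
        ≤ ∫ x, χ x ^ 2 * u x ^ (p + 1) ∂μ := by
      refine integral_mono_ae (iu1.sub (iB.const_mul _)) (C.int iu1) ?_
      filter_upwards [S.nonneg] with x hx
      have := mul_le_mul_of_nonneg_right (C.P4 hΛ hγ0 hγ1 x) (Real.rpow_nonneg hx (p + 1))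
      linarith
    rw [integral_sub iu1 (iB.const_mul _), integral_const_mul] at h1
    have h2 : 20 * Λ ^ γ * ∫ x, ‖x‖ ^ γ * u x ^ (p + 1) ∂μ ≤ 20 * Λ ^ γ * (CW * B) := by gcongr
    linarith
  set b0 := ∫ x, χ x ^ 2 * u x ^ (p + 1) ∂μ
  have hb0 : 0 ≤ b0 := integral_nonneg_of_ae (S.nonneg.mono (fun x hx => by positivity))
  set δ := min 1 (β * B / (4 * (D + 1))) with hδ
  have hδ0 : 0 < δ := lt_min one_pos (by positivity)
  have h1 := hD δ hδ0 (min_le_left _ _)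
  have h2 := gamma_lower hδ0.le (min_le_left _ _) hγ0.le hγ1
  have h3 : δ * (β * b0) ≤ (1 - (1 + δ) ^ (-γ)) * b0 / (p + 1) := by
    have : δ * (β * b0) = γ * δ / 3 * b0 / (p + 1) := by rw [hβ]; field_simp
    rw [this]; gcongr
  have h4 : β * b0 ≤ Λ ^ γ * K * (CW * B) + δ * D := by
    apply le_of_mul_le_mul_left _ hδ0
    linarith
  have h5 : δ * D ≤ β * B / 4 := by
    have a1 : δ ≤ β * B / (4 * (D + 1)) := min_le_right _ _
    rw [le_div_iff₀ (by positivity)] at a1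
    nlinarith
  have h6 : Λ ^ γ * ((20 * β + K) * CW) ≤ β / 2 := by
    have a1 : Λ ^ γ * ((20 * β + K) * CW) ≤ ε * ((20 * β + K) * CW + 1) := by
      gcongr; linarith
    have a2 : ε * ((20 * β + K) * CW + 1) = β / 2 := by rw [hε]; field_simp
    linarith
  have h7 := mul_le_mul_of_nonneg_right h6 hBpos.le
  have h8 := mul_le_mul_of_nonneg_left I4 hβ0.le
  have h9 : 0 < β * B := by positivity
  linarith

end Pool.Agent.Lib.MP_a271d0_an.G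
end

-- part Pool.Agent.Lib.MP_a271d0_an.GShear
section

set_option autoImplicit false
set_option linter.unusedSectionVars false
open MeasureTheory Filter Topology Set Module
open scoped ENNReal

namespace Pool.Agent.Lib.MP_a271d0_an.G

variable {E : Type*} [NormedAddCommGroup E] [InnerProductSpace ℝ E] [CompleteSpace E]
  [FiniteDimensional ℝ E] [MeasurableSpace E] [BorelSpace E]

/-- shear along `e` -/
def shear (e : E) (g : E → ℝ) (hg : Continuous g) (inv : ∀ x (t : ℝ), g (x + t • e) = g x) :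
    E ≃ₜ E where
  toFun x := x + g x • e
  invFun x := x + (-g x) • e
  left_inv x := by simp only [inv]; module
  right_inv x := by simp only [inv]; module
  continuous_toFun := by fun_prop
  continuous_invFun := by fun_prop

theorem fderiv_inv_zero {e : E} {g : E → ℝ} (hg : Differentiable ℝ g)
    (inv : ∀ x (t : ℝ), g (x + t • e) = g x) (x : E) : fderiv ℝ g x e = 0 := by
  have h1 : HasDerivAt (fun t : ℝ => x + t • e) e 0 := by
    simpa using ((hasDerivAt_id (0:ℝ)).smul_const e).const_add x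
  have h2 : HasFDerivAt g (fderiv ℝ g x) (x + (0:ℝ) • e) := by
    simpa using (hg x).hasFDerivAt
  have h3 := h2.comp_hasDerivAt (0:ℝ) h1
  have h4 : (g ∘ fun t : ℝ => x + t • e) = fun _ => g x := funext (fun t => inv x t)
  rw [h4] at h3
  exact h3.unique (hasDerivAt_const _ _)

theorem map_shear (μ : Measure E) [μ.IsAddHaarMeasure] {e : E} {g : E → ℝ}
    (hg : Differentiable ℝ g) (inv : ∀ x (t : ℝ), g (x + t • e) = g x) :
    Measure.map (fun x => x + g x • e) μ = μ := by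
  have hd : ∀ x, HasFDerivAt (fun x => x + g x • e)
      (ContinuousLinearMap.id ℝ E + (fderiv ℝ g x).smulRight e) x := fun x =>
    (hasFDerivAt_id x).add ((hg x).hasFDerivAt.smul_const e)
  have hbij := (shear e g hg.continuous inv).bijective
  have h := map_withDensity_abs_det_fderiv_eq_addHaar μ (s := univ)
    MeasurableSet.univ.nullMeasurableSet (fun x _ => (hd x).hasFDerivWithinAt) hbij.1.injOn
  have hdet : ∀ x, (ContinuousLinearMap.id ℝ E + (fderiv ℝ g x).smulRight e).det = 1 := by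
    intro x
    have e1 : ((ContinuousLinearMap.id ℝ E + (fderiv ℝ g x).smulRight e : E →L[ℝ] E) : E →ₗ[ℝ] E)
        = LinearMap.transvection ((fderiv ℝ g x : E →L[ℝ] ℝ) : E →ₗ[ℝ] ℝ) e := by
      ext y; simp [LinearMap.transvection.apply]
    unfold ContinuousLinearMap.det
    rw [e1, LinearMap.transvection.det]
    simp [fderiv_inv_zero hg inv x]
  have himg : (fun x => x + g x • e) '' univ = univ := by
    rw [image_univ]; exact hbij.2.range_eq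
  simp only [hdet, abs_one, ENNReal.ofReal_one, Measure.restrict_univ, himg] at h
  rwa [show (fun _ : E => (1 : ℝ≥0∞)) = 1 from rfl, withDensity_one] at h

/-- boundary chart at the origin at scale `1/Λ` -/
structure Chart (Ω : Set E) (Λ : ℝ) (e : E) (f : E → ℝ) : Prop where
  unit : ‖e‖ = 1
  smooth : ContDiff ℝ ((⊤ : ℕ∞) : WithTop ℕ∞) f
  inv : ∀ x (t : ℝ), f (x + t • e) = f x
  f0 : f 0 = 0
  d0 : fderiv ℝ f 0 = 0
  lip : ∀ x y, Λ * ‖x‖ ≤ 1 → Λ * ‖y‖ ≤ 1 → ‖fderiv ℝ f x - fderiv ℝ f y‖ ≤ Λ * ‖x - y‖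
  dom : ∀ x, Λ * ‖x‖ ≤ 1 → (x ∈ Ω ↔ f x < inner ℝ e x)

variable {Ω : Set E} {Λ : ℝ} {e : E} {f : E → ℝ}

theorem Chart.diff (C : Chart Ω Λ e f) : Differentiable ℝ f := C.smooth.differentiable (by simp)

theorem Chart.E1 (C : Chart Ω Λ e f) {x : E} (hx : Λ * ‖x‖ ≤ 1) :
    ‖fderiv ℝ f x‖ ≤ Λ * ‖x‖ := by
  have := C.lip x 0 hx (by simp)
  simpa [C.d0] using this

theorem Chart.E2 (C : Chart Ω Λ e f) (hΛ : 0 < Λ) {x : E} (hx : Λ * ‖x‖ ≤ 1) :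
    |f x| ≤ Λ * ‖x‖ ^ 2 := by
  have := (convex_closedBall (0:E) ‖x‖).norm_image_sub_le_of_norm_fderiv_le (𝕜 := ℝ) (f := f)
    (C := Λ * ‖x‖) (fun y _ => C.diff y) (fun y hy => by
      rw [mem_closedBall_zero_iff] at hy
      have h1 : Λ * ‖y‖ ≤ Λ * ‖x‖ := by gcongr
      exact (C.E1 (h1.trans hx)).trans h1) (x := 0) (y := x) (by simp) (by simp)
  rw [C.f0, sub_zero, sub_zero, Real.norm_eq_abs] at this
  linarith

theorem Chart.E3 (C : Chart Ω Λ e f) (hΛ : 0 < Λ) {x : E} (hx : Λ * ‖x‖ ≤ 1 / 5) {t : ℝ}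
    (ht : t ∈ Icc (0:ℝ) 2) : |fderiv ℝ f (t • x) x - f x| ≤ 3 * Λ * ‖x‖ ^ 2 := by
  have h1 : ‖t • x‖ ≤ 2 * ‖x‖ := by
    rw [norm_smul, Real.norm_eq_abs, abs_of_nonneg ht.1]; gcongr; exact ht.2
  have h2 : Λ * ‖t • x‖ ≤ Λ * (2 * ‖x‖) := by gcongr
  have h3 := (C.E1 (x := t • x) (by linarith)).trans h2
  have h4 := (fderiv ℝ f (t • x)).le_opNorm x
  have h5 : ‖fderiv ℝ f (t • x)‖ * ‖x‖ ≤ Λ * (2 * ‖x‖) * ‖x‖ := by gcongr
  have h6 := C.E2 hΛ (x := x) (by linarith)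
  have h7 := abs_sub (fderiv ℝ f (t • x) x) (f x)
  rw [Real.norm_eq_abs] at h4
  linarith

theorem Chart.der (C : Chart Ω Λ e f) (x : E) (t : ℝ) :
    HasDerivAt (fun t : ℝ => f (t • x) - t * f x) (fderiv ℝ f (t • x) x - f x) t := by
  have h1 : HasDerivAt (fun t : ℝ => t • x) x t := by
    simpa using (hasDerivAt_id t).smul_const x
  have h2 := (C.diff (t • x)).hasFDerivAt.comp_hasDerivAt t h1
  have h3 : HasDerivAt (fun t : ℝ => t * f x) (f x) t := by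
    simpa using (hasDerivAt_id t).mul_const (f x)
  exact h2.sub h3

theorem Chart.E4 (C : Chart Ω Λ e f) (hΛ : 0 < Λ) {x : E} (hx : Λ * ‖x‖ ≤ 1 / 5) {t : ℝ}
    (ht : t ∈ Icc (0:ℝ) 2) : |f (t • x) - t * f x| ≤ 3 * Λ * ‖x‖ ^ 2 * |t - 1| := by
  have := (convex_Icc (0:ℝ) 2).norm_image_sub_le_of_norm_hasDerivWithin_le
    (f := fun t : ℝ => f (t • x) - t * f x) (f' := fun t => fderiv ℝ f (t • x) x - f x)
    (C := 3 * Λ * ‖x‖ ^ 2) (fun t _ => (C.der x t).hasDerivWithinAt)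
    (fun t ht => C.E3 hΛ hx ht) (x := 1) (y := t) ⟨by norm_num, by norm_num⟩ ht
  simpa using this

theorem Chart.flow (C : Chart Ω Λ e f) (hΛ : 0 < Λ) (μ : Measure E) [μ.IsAddHaarMeasure] :
    Flow μ Ω Λ (fun t x => t • x + (f (t • x) - t * f x) • e)
      (fun t x => x + (fderiv ℝ f (t • x) x - f x) • e) := by
  have hc := C.smooth.continuous
  have hd : Continuous (fderiv ℝ f) := C.smooth.continuous_fderiv (by simp)
  have nb : ∀ (y : E) (a : ℝ), ‖y + a • e‖ ≤ ‖y‖ + |a| := by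
    intro y a
    refine (norm_add_le _ _).trans ?_
    rw [norm_smul, C.unit, mul_one, Real.norm_eq_abs]
  have inv' : ∀ x (t : ℝ), (fun y => -f y) (x + t • e) = (fun y => -f y) x := by
    intro x t; simp only [C.inv]
  refine ⟨fun t ht => ?_, fun x => by simp, by fun_prop, fun x => by fun_prop, fun x t => ?_,
    fun x hx t ht => ?_, fun x hx t ht => ?_, fun x hx t ht => ?_, fun x hx t ht hy => ?_,
    fun x t ht hy => ?_⟩
  · have ht0 : 0 < t := by linarith [ht.1]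
    have key : ∀ x, ((shear e (fun y => -f y) hc.neg inv').trans
        ((Homeomorph.smulOfNeZero t ht0.ne').trans (shear e f hc C.inv))) x
        = t • x + (f (t • x) - t * f x) • e := by
      intro x
      change t • (x + (-f x) • e) + f (t • (x + (-f x) • e)) • e = _
      rw [smul_add, smul_smul, C.inv]
      module
    refine ⟨_, key, ?_, ?_⟩
    · have m1 := map_shear μ (C.diff.neg) inv'
      have m2 := map_shear μ C.diff C.inv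
      have e1 : ⇑((shear e (fun y => -f y) hc.neg inv').trans
          ((Homeomorph.smulOfNeZero t ht0.ne').trans (shear e f hc C.inv)))
          = (fun x => x + f x • e) ∘ ((fun x => t • x) ∘ (fun x => x + (-f) x • e)) := rfl
      rw [e1, ← Measure.map_map (by fun_prop) (by fun_prop),
        ← Measure.map_map (by fun_prop) (by fun_prop), m1, Measure.map_addHaar_smul μ ht0.ne',
        Measure.map_smul, m2, abs_of_pos (by positivity), Real.rpow_neg ht0.le,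
        Real.rpow_natCast]
    · rw [funext key]
      have := C.smooth
      fun_prop
  · have h1 : HasDerivAt (fun t : ℝ => t • x) x t := by
      simpa using (hasDerivAt_id t).smul_const x
    exact h1.add ((C.der x t).smul_const e)
  · have h1 := C.E3 hΛ hx (t := t) ⟨by linarith [ht.1], ht.2⟩
    have h2 := nb x (fderiv ℝ f (t • x) x - f x)
    nlinarith [norm_nonneg x]
  · have h1 := C.E4 hΛ hx (t := t) ⟨by linarith [ht.1], ht.2⟩
    rw [abs_of_nonneg (show 0 ≤ t - 1 by linarith [ht.1])] at h1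
    rw [add_sub_cancel_left, norm_smul, C.unit, mul_one, Real.norm_eq_abs]
    linarith
  · have ht0 : 0 < t := by linarith [ht.1]
    have h1 : HasFDerivAt (fun x : E => t • x) (t • ContinuousLinearMap.id ℝ E) x :=
      (hasFDerivAt_id x).const_smul t
    have h2 := (C.diff (t • x)).hasFDerivAt.comp x h1
    have h3 := (C.diff x).hasFDerivAt.const_mul t
    have h4 : HasFDerivAt (fun x : E => t • x + (f (t • x) - t * f x) • e) _ x :=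
      h1.add ((h2.sub h3).smul_const e)
    rw [h4.fderiv]
    refine ContinuousLinearMap.opNorm_le_bound _ (by
      have : 0 ≤ t - 1 := by linarith [ht.1]
      positivity) (fun y => ?_)
    have h5 : ‖t • x‖ ≤ 2 * ‖x‖ := by
      rw [norm_smul, Real.norm_eq_abs, abs_of_pos ht0]; gcongr; exact ht.2
    have h6 : Λ * ‖t • x‖ ≤ Λ * (2 * ‖x‖) := by gcongr
    have h7 := C.lip (t • x) x (by linarith) (by linarith)
    have h8 : ‖t • x - x‖ = (t - 1) * ‖x‖ := by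
      rw [show t • x - x = (t - 1) • x by module, norm_smul, Real.norm_eq_abs,
        abs_of_nonneg (by linarith [ht.1])]
    rw [h8] at h7
    have h9 := (fderiv ℝ f (t • x) - fderiv ℝ f x).le_opNorm y
    have h10 : ‖fderiv ℝ f (t • x) - fderiv ℝ f x‖ * ‖y‖ ≤ Λ * ((t - 1) * ‖x‖) * ‖y‖ := by gcongr
    have e1 : (t • ContinuousLinearMap.id ℝ E + ((fderiv ℝ f (t • x)).comp
        (t • ContinuousLinearMap.id ℝ E) - t • fderiv ℝ f x).smulRight e) y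
        = t • (y + ((fderiv ℝ f (t • x) - fderiv ℝ f x) y) • e) := by
      simp only [ContinuousLinearMap.add_apply, ContinuousLinearMap.smul_apply,
        ContinuousLinearMap.id_apply, ContinuousLinearMap.smulRight_apply,
        ContinuousLinearMap.sub_apply, ContinuousLinearMap.comp_apply, map_smul, smul_eq_mul]
      module
    rw [e1, norm_smul, Real.norm_eq_abs, abs_of_pos ht0, mul_assoc]
    gcongr
    have h11 := nb y ((fderiv ℝ f (t • x) - fderiv ℝ f x) y)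
    rw [Real.norm_eq_abs] at h9
    linarith
  · have ht0 : 0 < t := by linarith [ht.1]
    have h1 := C.E4 hΛ hx (t := t) ⟨ht0.le, ht.2⟩
    rw [abs_of_nonneg (show 0 ≤ t - 1 by linarith [ht.1])] at h1
    have h2 := nb (t • x) (f (t • x) - t * f x)
    have h5 : ‖t • x‖ ≤ 2 * ‖x‖ := by
      rw [norm_smul, Real.norm_eq_abs, abs_of_pos ht0]; gcongr; exact ht.2
    have h3 : 3 * Λ * ‖x‖ ^ 2 * (t - 1) ≤ ‖x‖ := by
      have a1 : 3 * Λ * ‖x‖ ^ 2 * (t - 1) ≤ 3 * Λ * ‖x‖ ^ 2 * 1 := by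
        gcongr; linarith [ht.2]
      nlinarith [norm_nonneg x]
    have h4 : Λ * ‖t • x + (f (t • x) - t * f x) • e‖ ≤ Λ * (3 * ‖x‖) := by
      gcongr; linarith
    rw [C.dom _ (by linarith), C.inv, inner_add_right, inner_smul_right, inner_smul_right,
      real_inner_self_eq_norm_sq, C.unit] at hy
    rw [C.dom x (by linarith)]
    apply lt_of_mul_lt_mul_left _ ht0.le
    linarith
  · have ht0 : 0 < t := by linarith [ht.1]
    set y := t • x + (f (t • x) - t * f x) • e with hyd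
    have hi0 : 0 < t⁻¹ := by positivity
    have hi1 : t⁻¹ ≤ 1 := inv_le_one_of_one_le₀ ht.1
    have e1 : x = t⁻¹ • y + (f (t⁻¹ • y) - t⁻¹ * f y) • e := by
      rw [hyd, smul_add, smul_smul, smul_smul, inv_mul_cancel₀ ht0.ne', one_smul, C.inv, C.inv,
        add_assoc, ← add_smul]
      have : t⁻¹ * (f (t • x) - t * f x) + (f x - t⁻¹ * f (t • x)) = 0 := by field_simp; ring
      rw [this]; simp
    have h1 := C.E4 hΛ (x := y) (by linarith) (t := t⁻¹) ⟨hi0.le, by linarith⟩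
    have h2 := nb (t⁻¹ • y) (f (t⁻¹ • y) - t⁻¹ * f y)
    rw [← e1] at h2
    have h5 : ‖t⁻¹ • y‖ ≤ 1 * ‖y‖ := by
      rw [norm_smul, Real.norm_eq_abs, abs_of_pos hi0]; gcongr
    have h3 : 3 * Λ * ‖y‖ ^ 2 * |t⁻¹ - 1| ≤ ‖y‖ := by
      have a0 : |t⁻¹ - 1| ≤ 1 := by rw [abs_le]; constructor <;> linarith
      have a1 : 3 * Λ * ‖y‖ ^ 2 * |t⁻¹ - 1| ≤ 3 * Λ * ‖y‖ ^ 2 * 1 := by gcongr
      nlinarith [norm_nonneg y]
    have h4 : Λ * ‖x‖ ≤ Λ * (2 * ‖y‖) := by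
      gcongr; linarith
    linarith

end Pool.Agent.Lib.MP_a271d0_an.G
end
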