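import Mathlib

-- part Pool.Agent.Lib.MP_a271d0_an.Basic
section

set_option autoImplicit false
open MeasureTheory Filter Topology

namespace Pool.Agent.Lib.MP_a271d0_an

section general
variable {α : Type*} [MeasurableSpace α] {μ : Measure α}

/-- Fatou's lemma for real integrals. -/
theorem fatou_real {f : ℕ → α → ℝ} {g : α → ℝ} {c : ℕ → ℝ} {L : ℝ}
    (hint : ∀ n, Integrable (f n) μ) (hpos : ∀ n, ∀ᵐ x ∂μ, 0 ≤ f n x)
    (hlim : ∀ᵐ x ∂μ, Tendsto (fun n => f n x) atTop (𝓝 (g x)))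
    (hle : ∀ n, ∫ x, f n x ∂μ ≤ c n) (hc : Tendsto c atTop (𝓝 L)) :
    Integrable g μ ∧ ∫ x, g x ∂μ ≤ L := by
  have hgm : AEStronglyMeasurable g μ :=
    aestronglyMeasurable_of_tendsto_ae atTop (fun n => (hint n).1) hlim
  have hpos' : ∀ᵐ x ∂μ, ∀ n, 0 ≤ f n x := ae_all_iff.2 hpos
  have hg0 : ∀ᵐ x ∂μ, 0 ≤ g x := by
    filter_upwards [hpos', hlim] with x h1 h2
    exact ge_of_tendsto' h2 h1
  have hL : 0 ≤ L := by
    refine ge_of_tendsto' hc (fun n => ?_)
    exact (integral_nonneg_of_ae (hpos n)).trans (hle n)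
  have key : ∫⁻ x, ENNReal.ofReal (g x) ∂μ ≤ ENNReal.ofReal L := by
    calc ∫⁻ x, ENNReal.ofReal (g x) ∂μ
        = ∫⁻ x, liminf (fun n => ENNReal.ofReal (f n x)) atTop ∂μ := by
          apply lintegral_congr_ae
          filter_upwards [hlim] with x hx
          exact ((ENNReal.tendsto_ofReal hx).liminf_eq).symm
      _ ≤ liminf (fun n => ∫⁻ x, ENNReal.ofReal (f n x) ∂μ) atTop :=
          lintegral_liminf_le' (fun n => (hint n).1.aemeasurable.ennreal_ofReal)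
      _ ≤ liminf (fun n => ENNReal.ofReal (c n)) atTop := by
          apply liminf_le_liminf
          · refine Eventually.of_forall (fun n => ?_)
            rw [← ofReal_integral_eq_lintegral_ofReal (hint n) (hpos n)]
            exact ENNReal.ofReal_le_ofReal (hle n)
          · isBoundedDefault
          · isBoundedDefault
      _ = ENNReal.ofReal L := (ENNReal.tendsto_ofReal hc).liminf_eq
  have hgi : Integrable g μ := by
    refine ⟨hgm, ?_⟩
    rw [hasFiniteIntegral_iff_ofReal hg0]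
    exact key.trans_lt ENNReal.ofReal_lt_top
  refine ⟨hgi, ?_⟩
  rw [← ofReal_integral_eq_lintegral_ofReal hgi hg0] at key
  exact (ENNReal.ofReal_le_ofReal_iff hL).1 key

/-- Generalised dominated convergence. -/
theorem gdct {f : ℕ → α → ℝ} {g a : α → ℝ} {b : ℕ → α → ℝ}
    (hm : ∀ n, AEStronglyMeasurable (f n) μ)
    (ha : Integrable a μ) (hb : ∀ n, Integrable (b n) μ)
    (hb0 : ∀ n, ∀ᵐ x ∂μ, 0 ≤ b n x)
    (hbound : ∀ n, ∀ᵐ x ∂μ, |f n x| ≤ a x + b n x)
    (hg : ∀ᵐ x ∂μ, |g x| ≤ a x)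
    (hlim : ∀ᵐ x ∂μ, Tendsto (fun n => f n x) atTop (𝓝 (g x)))
    (hbl : Tendsto (fun n => ∫ x, b n x ∂μ) atTop (𝓝 0)) :
    Tendsto (fun n => ∫ x, f n x ∂μ) atTop (𝓝 (∫ x, g x ∂μ)) := by
  set c : ℕ → α → ℝ := fun n x => max (-a x) (min (f n x) (a x)) with hcdef
  have hcm : ∀ n, AEStronglyMeasurable (c n) μ := fun n =>
    ha.1.neg.sup ((hm n).inf ha.1)
  have hcb : ∀ n, ∀ᵐ x ∂μ, ‖c n x‖ ≤ a x := by
    intro n
    filter_upwards [hg] with x hx
    have h0 : 0 ≤ a x := (abs_nonneg _).trans hx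
    rw [Real.norm_eq_abs, abs_le]
    constructor
    · exact le_max_left _ _
    · exact max_le (by linarith) (min_le_right _ _)
  have hci : ∀ n, Integrable (c n) μ := fun n => ha.mono' (hcm n) (hcb n)
  have hfi : ∀ n, Integrable (f n) μ := fun n =>
    (ha.add (hb n)).mono' (hm n) (by simpa using hbound n)
  have h1 : Tendsto (fun n => ∫ x, c n x ∂μ) atTop (𝓝 (∫ x, g x ∂μ)) := by
    refine tendsto_integral_of_dominated_convergence a hcm ha hcb ?_
    filter_upwards [hg, hlim] with x hx hl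
    have h2 : Tendsto (fun n => c n x) atTop (𝓝 (max (-a x) (min (g x) (a x)))) :=
      tendsto_const_nhds.max (hl.min tendsto_const_nhds)
    rw [abs_le] at hx
    rwa [min_eq_left hx.2, max_eq_right hx.1] at h2
  have h2 : Tendsto (fun n => ∫ x, (f n x - c n x) ∂μ) atTop (𝓝 0) := by
    refine squeeze_zero_norm (fun n => ?_) hbl
    refine norm_integral_le_of_norm_le (hb n) ?_
    filter_upwards [hbound n, hb0 n, hg] with x hx h0 hgx
    have h0' : 0 ≤ a x := (abs_nonneg _).trans hgx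
    rw [abs_le] at hx
    rw [Real.norm_eq_abs, abs_le]
    simp only [hcdef]
    constructor
    · have : max (-a x) (min (f n x) (a x)) ≤ f n x + b n x := by
        apply max_le
        · linarith [hx.1]
        · linarith [min_le_left (f n x) (a x)]
      linarith
    · have : f n x - b n x ≤ max (-a x) (min (f n x) (a x)) := by
        apply le_max_of_le_right
        apply le_min
        · linarith
        · linarith [hx.2]
      linarith
  have h3 := h1.add h2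
  rw [add_zero] at h3
  refine h3.congr (fun n => ?_)
  rw [integral_sub (hfi n) (hci n)]
  ring

/-- From convergence in the extended L2 seminorm to real integrals. -/
theorem tendsto_integral_sq_of_eLpNorm {F : Type*} [NormedAddCommGroup F] {f : ℕ → α → F}
    (hf : ∀ n, MemLp (f n) 2 μ)
    (h : Tendsto (fun n => eLpNorm (f n) 2 μ) atTop (𝓝 0)) :
    Tendsto (fun n => ∫ x, ‖f n x‖ ^ 2 ∂μ) atTop (𝓝 0) := by
  have h1 : ∀ n, ∫ x, ‖f n x‖ ^ 2 ∂μ = ((eLpNorm (f n) 2 μ).toReal) ^ 2 := by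
    intro n
    rw [(hf n).eLpNorm_eq_integral_rpow_norm two_ne_zero ENNReal.ofNat_ne_top]
    have h0 : 0 ≤ ∫ x, ‖f n x‖ ^ 2 ∂μ := integral_nonneg (fun x => by positivity)
    simp only [ENNReal.toReal_ofNat, Real.rpow_ofNat]
    rw [ENNReal.toReal_ofReal (Real.rpow_nonneg h0 _), ← Real.rpow_natCast,
      ← Real.rpow_mul h0]
    norm_num
  simp_rw [h1]
  have h2 : Tendsto (fun n => (eLpNorm (f n) 2 μ).toReal) atTop (𝓝 0) := by
    have := (ENNReal.tendsto_toReal ENNReal.zero_ne_top).comp h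
    simpa [Function.comp_def] using this
  simpa using h2.pow 2

end general

end Pool.Agent.Lib.MP_a271d0_an
end

-- part Pool.Agent.Lib.MP_a271d0_an.Hardy
section

set_option autoImplicit false
open MeasureTheory Filter Topology Set

namespace Pool.Agent.Lib.MP_a271d0_an

abbrev E3 := EuclideanSpace ℝ (Fin 3)

theorem norm_grad (ψ : E3 → ℝ) (x : E3) : ‖gradient ψ x‖ = ‖fderiv ℝ ψ x‖ := by
  simp [gradient]

theorem cont_grad {ψ : E3 → ℝ} (h : ContDiff ℝ 1 ψ) : Continuous (gradient ψ) := by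
  have h1 : Continuous (fderiv ℝ ψ) := h.continuous_fderiv one_ne_zero
  exact (InnerProductSpace.toDual ℝ E3).symm.continuous.comp h1

theorem cs_grad {ψ : E3 → ℝ} (h : HasCompactSupport ψ) : HasCompactSupport (gradient ψ) := by
  have h1 : HasCompactSupport (fderiv ℝ ψ) := h.fderiv ℝ
  exact h1.comp_left (g := (InnerProductSpace.toDual ℝ E3).symm) (by simp)

theorem int_grad_sq {ψ : E3 → ℝ} (h : ContDiff ℝ 1 ψ) (hc : HasCompactSupport ψ) :
    Integrable (fun x => ‖gradient ψ x‖ ^ 2) := by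
  have h1 : Continuous (fun x => ‖gradient ψ x‖ ^ 2) := (cont_grad h).norm.pow 2
  have h2 : HasCompactSupport ((fun y : E3 => ‖y‖ ^ 2) ∘ gradient ψ) :=
    (cs_grad hc).comp_left (by simp)
  exact h1.integrable_of_hasCompactSupport h2

theorem memLp_grad {ψ : E3 → ℝ} (h : ContDiff ℝ 1 ψ) (hc : HasCompactSupport ψ) :
    MemLp (gradient ψ) 2 volume :=
  (cont_grad h).memLp_of_hasCompactSupport (cs_grad hc)

theorem integral_scale (f : E3 → ℝ) {c : ℝ} (hc : 0 < c) :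
    ∫ x, f (c • x) = (c ^ 3)⁻¹ * ∫ x, f x := by
  rw [Measure.integral_comp_smul volume f c]
  simp only [finrank_euclideanSpace, Fintype.card_fin, smul_eq_mul]
  rw [abs_of_pos (by positivity)]

theorem sq_integral_le {m : ℝ → ℝ} (hm : Continuous m) {c : ℝ} (hc : 1 ≤ c) :
    (∫ t in (1:ℝ)..c, m t) ^ 2 ≤ (c - 1) * ∫ t in (1:ℝ)..c, m t ^ 2 := by
  rcases hc.eq_or_lt with rfl | hc'
  · simp
  set I := ∫ t in (1:ℝ)..c, m t with hI
  set J := ∫ t in (1:ℝ)..c, m t ^ 2 with hJ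
  have hL : 0 < c - 1 := by linarith
  have h0 : 0 ≤ ∫ t in (1:ℝ)..c, ((c - 1) * m t - I) ^ 2 :=
    intervalIntegral.integral_nonneg hc (fun t _ => sq_nonneg _)
  have h1 : ∫ t in (1:ℝ)..c, ((c - 1) * m t - I) ^ 2
      = (c - 1) ^ 2 * J - 2 * (c - 1) * I * I + (c - 1) * I ^ 2 := by
    have e : ∀ t, ((c - 1) * m t - I) ^ 2
        = ((c - 1) ^ 2 * m t ^ 2 - (2 * (c - 1) * I) * m t) + I ^ 2 := fun t => by ring
    simp_rw [e]
    rw [intervalIntegral.integral_add, intervalIntegral.integral_sub,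
      intervalIntegral.integral_const_mul, intervalIntegral.integral_const_mul,
      intervalIntegral.integral_const]
    · simp only [smul_eq_mul]; rfl
    · exact (by fun_prop : Continuous fun t => (c - 1) ^ 2 * m t ^ 2).intervalIntegrable _ _
    · exact (by fun_prop : Continuous fun t => (2 * (c - 1) * I) * m t).intervalIntegrable _ _
    · exact (by fun_prop : Continuous fun t =>
        (c - 1) ^ 2 * m t ^ 2 - (2 * (c - 1) * I) * m t).intervalIntegrable _ _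
    · exact continuous_const.intervalIntegrable _ _
  rw [h1] at h0
  have h2 : (c - 1) * (I ^ 2) ≤ (c - 1) * ((c - 1) * J) := by nlinarith
  exact le_of_mul_le_mul_left h2 hL

theorem dil_pointwise {ψ : E3 → ℝ} (h : ContDiff ℝ 1 ψ) {c : ℝ} (hc : 1 ≤ c) (x : E3) :
    (ψ x - ψ (c • x)) ^ 2 / ‖x‖ ^ 2
      ≤ (c - 1) * ∫ t in (1:ℝ)..c, ‖gradient ψ (t • x)‖ ^ 2 := by
  have hm : Continuous fun t : ℝ => ‖gradient ψ (t • x)‖ :=
    ((cont_grad h).comp (by fun_prop)).norm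
  have hR : 0 ≤ (c - 1) * ∫ t in (1:ℝ)..c, ‖gradient ψ (t • x)‖ ^ 2 :=
    mul_nonneg (by linarith) (intervalIntegral.integral_nonneg hc (fun t _ => sq_nonneg _))
  rcases eq_or_ne x 0 with rfl | hx
  · simpa using hR
  have hxn : 0 < ‖x‖ := norm_pos_iff.2 hx
  have hd : ∀ t : ℝ, HasDerivAt (fun t : ℝ => ψ (t • x)) (fderiv ℝ ψ (t • x) x) t := by
    intro t
    have h1 : HasFDerivAt ψ (fderiv ℝ ψ (t • x)) (t • x) :=
      (h.differentiable one_ne_zero (t • x)).hasFDerivAt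
    have h2 : HasDerivAt (fun t : ℝ => t • x) x t := by
      simpa using (hasDerivAt_id t).smul_const x
    exact h1.comp_hasDerivAt t h2
  have hcont : Continuous fun t : ℝ => fderiv ℝ ψ (t • x) x := by
    have h1 : Continuous (fderiv ℝ ψ) := h.continuous_fderiv one_ne_zero
    fun_prop
  have hftc : ∫ t in (1:ℝ)..c, fderiv ℝ ψ (t • x) x = ψ (c • x) - ψ ((1:ℝ) • x) :=
    intervalIntegral.integral_eq_sub_of_hasDerivAt (fun t _ => hd t)
      (hcont.intervalIntegrable _ _)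
  rw [one_smul] at hftc
  have hb : |ψ (c • x) - ψ x| ≤ (∫ t in (1:ℝ)..c, ‖gradient ψ (t • x)‖) * ‖x‖ := by
    rw [← hftc, ← intervalIntegral.integral_mul_const]
    refine (intervalIntegral.abs_integral_le_integral_abs hc).trans ?_
    refine intervalIntegral.integral_mono_on hc (hcont.abs.intervalIntegrable _ _)
      ((hm.mul continuous_const).intervalIntegrable _ _) (fun t _ => ?_)
    rw [norm_grad]
    exact (fderiv ℝ ψ (t • x)).le_opNorm x
  have hsq := sq_integral_le hm hc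
  rw [div_le_iff₀ (by positivity)]
  have h3 : (ψ x - ψ (c • x)) ^ 2 = |ψ (c • x) - ψ x| ^ 2 := by rw [sq_abs]; ring
  rw [h3]
  calc |ψ (c • x) - ψ x| ^ 2 ≤ ((∫ t in (1:ℝ)..c, ‖gradient ψ (t • x)‖) * ‖x‖) ^ 2 :=
        pow_le_pow_left₀ (abs_nonneg _) hb 2
    _ = (∫ t in (1:ℝ)..c, ‖gradient ψ (t • x)‖) ^ 2 * ‖x‖ ^ 2 := by ring
    _ ≤ _ := by gcongr

theorem dil_est {ψ : E3 → ℝ} (h : ContDiff ℝ 1 ψ) (hcs : HasCompactSupport ψ) {c : ℝ}
    (hc : 1 ≤ c) :
    Integrable (fun x => (ψ x - ψ (c • x)) ^ 2 / ‖x‖ ^ 2) ∧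
      ∫ x, (ψ x - ψ (c • x)) ^ 2 / ‖x‖ ^ 2 ≤ (c - 1) ^ 2 * ∫ x, ‖gradient ψ x‖ ^ 2 := by
  set A := ∫ x, ‖gradient ψ x‖ ^ 2 with hA
  have hA0 : 0 ≤ A := integral_nonneg (fun x => by positivity)
  set ν : Measure ℝ := volume.restrict (Ioc 1 c) with hν
  set f : E3 → ℝ → ℝ := fun x t => ‖gradient ψ (t • x)‖ ^ 2 with hf
  have hfc : Continuous (Function.uncurry f) := by
    have := cont_grad h
    simp only [hf]
    fun_prop
  have hsc : ∀ t ∈ Ioc (1:ℝ) c, ∫ x, f x t = (t ^ 3)⁻¹ * A := by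
    intro t ht
    exact integral_scale (fun x => ‖gradient ψ x‖ ^ 2) (by linarith [ht.1])
  have hcontI : IntegrableOn (fun t : ℝ => (t ^ 3)⁻¹ * A) (Ioc 1 c) := by
    refine (ContinuousOn.integrableOn_Icc (a := 1) (b := c) ?_).mono_set Ioc_subset_Icc_self
    refine ContinuousOn.mul (ContinuousOn.inv₀ (by fun_prop) ?_) continuousOn_const
    intro t ht
    have : 0 < t := by linarith [ht.1]
    positivity
  have hfi : Integrable (Function.uncurry f) (volume.prod ν) := by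
    rw [integrable_prod_iff' hfc.aestronglyMeasurable]
    constructor
    · rw [hν, ae_restrict_iff' measurableSet_Ioc]
      refine ae_of_all _ (fun t ht => ?_)
      exact (int_grad_sq h hcs).comp_smul (R := t) (by linarith [ht.1])
    · refine hcontI.congr_fun (fun t ht => ?_) measurableSet_Ioc
      beta_reduce
      rw [← hsc t ht]
      simp only [Function.uncurry, hf]
      congr 1
      ext x
      rw [Real.norm_eq_abs, abs_of_nonneg (by positivity)]
  have hW : Integrable (fun x => ∫ t, f x t ∂ν) := hfi.integral_prod_left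
  have hWle : ∫ x, ∫ t, f x t ∂ν ≤ (c - 1) * A := by
    rw [integral_integral_swap hfi, hν]
    rw [setIntegral_congr_fun measurableSet_Ioc hsc]
    calc ∫ t in Ioc (1:ℝ) c, (t ^ 3)⁻¹ * A ≤ ∫ t in Ioc (1:ℝ) c, A := by
          refine setIntegral_mono_on hcontI (by simp) measurableSet_Ioc (fun t ht => ?_)
          have h1 : (1:ℝ) ≤ t ^ 3 := one_le_pow₀ ht.1.le
          have h2 : (t ^ 3)⁻¹ ≤ 1 := inv_le_one_of_one_le₀ h1
          nlinarith
      _ = (c - 1) * A := by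
          simp [hc]
  have hpt : ∀ x, (ψ x - ψ (c • x)) ^ 2 / ‖x‖ ^ 2 ≤ (c - 1) * ∫ t, f x t ∂ν := by
    intro x
    have := dil_pointwise h hc x
    rwa [intervalIntegral.integral_of_le hc] at this
  have hmeas : AEStronglyMeasurable (fun x : E3 => (ψ x - ψ (c • x)) ^ 2 / ‖x‖ ^ 2) volume := by
    have := h.continuous
    apply Measurable.aestronglyMeasurable
    fun_prop
  have hI : Integrable (fun x => (ψ x - ψ (c • x)) ^ 2 / ‖x‖ ^ 2) := by
    refine (hW.const_mul (c - 1)).mono' hmeas (ae_of_all _ (fun x => ?_))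
    rw [Real.norm_eq_abs, abs_of_nonneg (by positivity)]
    exact hpt x
  refine ⟨hI, ?_⟩
  calc ∫ x, (ψ x - ψ (c • x)) ^ 2 / ‖x‖ ^ 2 ≤ ∫ x, (c - 1) * ∫ t, f x t ∂ν :=
        integral_mono hI (hW.const_mul (c - 1)) hpt
    _ = (c - 1) * ∫ x, ∫ t, f x t ∂ν := integral_const_mul _ _
    _ ≤ (c - 1) * ((c - 1) * A) := by gcongr
    _ = (c - 1) ^ 2 * A := by ring

theorem int_hardy {ψ : E3 → ℝ} (h : Continuous ψ) (hcs : HasCompactSupport ψ)
    (h0 : (0:E3) ∉ tsupport ψ) : Integrable (fun x => ψ x ^ 2 / ‖x‖ ^ 2) := by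
  have hopen : IsOpen (tsupport ψ)ᶜ := (isClosed_tsupport ψ).isOpen_compl
  obtain ⟨r, hr, hball⟩ := Metric.isOpen_iff.1 hopen 0 h0
  have hi : Integrable (fun x => ψ x ^ 2) := by
    have h1 : Continuous (fun x => ψ x ^ 2) := h.pow 2
    have h2 : HasCompactSupport ((fun y : ℝ => y ^ 2) ∘ ψ) := hcs.comp_left (by simp)
    exact h1.integrable_of_hasCompactSupport h2
  refine (hi.div_const (r ^ 2)).mono' ?_ (ae_of_all _ (fun x => ?_))
  · apply Measurable.aestronglyMeasurable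
    fun_prop
  · rw [Real.norm_eq_abs, abs_of_nonneg (by positivity)]
    by_cases hx : ‖x‖ < r
    · have : x ∉ tsupport ψ := hball (by simpa using hx)
      rw [image_eq_zero_of_notMem_tsupport this]
      simp
    · push Not at hx
      gcongr

theorem hardy {ψ : E3 → ℝ} (h : ContDiff ℝ 1 ψ) (hcs : HasCompactSupport ψ)
    (h0 : (0:E3) ∉ tsupport ψ) :
    ∫ x, ψ x ^ 2 / ‖x‖ ^ 2 ≤ 36 * ∫ x, ‖gradient ψ x‖ ^ 2 := by
  have hI := int_hardy h.continuous hcs h0
  obtain ⟨h1, h2⟩ := dil_est h hcs (c := 4) (by norm_num)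
  have hI4 : Integrable (fun x : E3 => ψ ((4:ℝ) • x) ^ 2 / ‖(4:ℝ) • x‖ ^ 2) :=
    hI.comp_smul (R := (4:ℝ)) (by norm_num)
  have hs := integral_scale (fun x => ψ x ^ 2 / ‖x‖ ^ 2) (c := 4) (by norm_num)
  have hle : ∫ x, ψ x ^ 2 / ‖x‖ ^ 2 ≤ ∫ x, (2 * ((ψ x - ψ ((4:ℝ) • x)) ^ 2 / ‖x‖ ^ 2)
      + 32 * (ψ ((4:ℝ) • x) ^ 2 / ‖(4:ℝ) • x‖ ^ 2)) := by
    refine integral_mono hI ((h1.const_mul 2).add (hI4.const_mul 32)) (fun x => ?_)
    have hn : ‖(4:ℝ) • x‖ ^ 2 = 16 * ‖x‖ ^ 2 := by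
      rw [norm_smul]; norm_num; ring
    simp only [hn]
    rcases eq_or_ne x 0 with rfl | hx
    · simp
    have hxn : 0 < ‖x‖ ^ 2 := by positivity
    have : 2 * ((ψ x - ψ ((4:ℝ) • x)) ^ 2 / ‖x‖ ^ 2) + 32 * (ψ ((4:ℝ) • x) ^ 2 / (16 * ‖x‖ ^ 2))
        = (2 * (ψ x - ψ ((4:ℝ) • x)) ^ 2 + 2 * ψ ((4:ℝ) • x) ^ 2) / ‖x‖ ^ 2 := by
      field_simp; ring
    rw [this]
    gcongr
    nlinarith [sq_nonneg (ψ x - 2 * ψ ((4:ℝ) • x))]
  rw [integral_add (h1.const_mul 2) (hI4.const_mul 32), integral_const_mul, integral_const_mul,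
    hs] at hle
  norm_num at hle h2
  linarith

theorem sobolev : ∃ C : ℝ, 0 ≤ C ∧ ∀ ψ : E3 → ℝ, ContDiff ℝ 1 ψ → HasCompactSupport ψ →
    ∫ x, ψ x ^ 6 ≤ C * (∫ x, ‖gradient ψ x‖ ^ 2) ^ 3 := by
  refine ⟨(SNormLESNormFDerivOfEqConst ℝ (volume : Measure E3) (2 : NNReal) : ℝ) ^ 6,
    by positivity, fun ψ h hcs => ?_⟩
  have key := eLpNorm_le_eLpNorm_fderiv_of_eq (volume : Measure E3) h hcs
    (p := 2) (p' := 6) (by norm_num) (by simp) (by simp; norm_num)
  have m1 : MemLp ψ (6 : NNReal) volume := h.continuous.memLp_of_hasCompactSupport hcs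
  have m2 : MemLp (fderiv ℝ ψ) (2 : NNReal) volume :=
    (h.continuous_fderiv one_ne_zero).memLp_of_hasCompactSupport (hcs.fderiv ℝ)
  rw [m1.eLpNorm_eq_integral_rpow_norm (by simp) (by simp),
    m2.eLpNorm_eq_integral_rpow_norm (by simp) (by simp)] at key
  simp only [ENNReal.coe_toReal, NNReal.coe_ofNat, Real.rpow_ofNat] at key
  have e1 : ∫ x, ‖ψ x‖ ^ 6 = ∫ x, ψ x ^ 6 := by
    congr 1; ext x
    rw [Real.norm_eq_abs]
    exact Even.pow_abs (by decide) _
  have e2 : ∫ x, ‖fderiv ℝ ψ x‖ ^ 2 = ∫ x, ‖gradient ψ x‖ ^ 2 := by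
    simp_rw [norm_grad]
  rw [e1, e2] at key
  set P := ∫ x, ψ x ^ 6 with hP
  set A := ∫ x, ‖gradient ψ x‖ ^ 2 with hA
  have hP0 : 0 ≤ P := integral_nonneg (fun x => by positivity)
  have hA0 : 0 ≤ A := integral_nonneg (fun x => by positivity)
  set K : NNReal := SNormLESNormFDerivOfEqConst ℝ (volume : Measure E3) (2 : NNReal) with hK
  have key2 : P ^ (6:ℝ)⁻¹ ≤ K * A ^ (2:ℝ)⁻¹ := by
    rw [← ENNReal.ofReal_coe_nnreal, ← ENNReal.ofReal_mul (by positivity)] at key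
    exact (ENNReal.ofReal_le_ofReal_iff (by positivity)).1 key
  have e3 : P = (P ^ (6:ℝ)⁻¹) ^ 6 := by
    rw [← Real.rpow_natCast, ← Real.rpow_mul hP0]; norm_num
  have e4 : A ^ 3 = (A ^ (2:ℝ)⁻¹) ^ 6 := by
    rw [← Real.rpow_natCast (A ^ (2:ℝ)⁻¹), ← Real.rpow_mul hA0]; norm_num
  rw [e3, e4, ← mul_pow]
  exact pow_le_pow_left₀ (by positivity) key2 6

end Pool.Agent.Lib.MP_a271d0_an
end
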