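import Mathlib
import Pool.Agent.Lib.MP_a271d0_an.Hardy

-- part Pool.Agent.Lib.MP_a271d0_an.GIneq
section

set_option autoImplicit false

namespace Pool.Agent.Lib.MP_a271d0_an

open Real

theorem young_w {a y s t κ : ℝ} (ha : 0 ≤ a) (hy : 0 ≤ y) (hs : 0 ≤ s) (hst : s < t)
    (hκ : 0 < κ) :
    a * y ^ s ≤ κ * y ^ t + κ ^ (-(s / (t - s))) * a ^ (t / (t - s)) := by
  have hd : 0 < t - s := by linarith
  have ht : 0 < t := by linarith
  rcases le_total a (κ * y ^ (t - s)) with h | h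
  · have h1 : a * y ^ s ≤ κ * y ^ (t - s) * y ^ s := by gcongr
    have h2 : y ^ (t - s) * y ^ s = y ^ t := by
      rw [← rpow_add' hy (by linarith)]; congr 1; ring
    have h3 : 0 ≤ κ ^ (-(s / (t - s))) * a ^ (t / (t - s)) := by positivity
    rw [mul_assoc, h2] at h1
    linarith
  · have h0 : y ^ (t - s) ≤ a / κ := by rw [le_div_iff₀ hκ]; linarith
    have h1 : y ^ s ≤ (a / κ) ^ (s / (t - s)) := by
      have : y ^ s = (y ^ (t - s)) ^ (s / (t - s)) := by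
        rw [← rpow_mul hy]; congr 1; field_simp
      rw [this]
      exact rpow_le_rpow (by positivity) h0 (by positivity)
    have h2 : a * (a / κ) ^ (s / (t - s)) = κ ^ (-(s / (t - s))) * a ^ (t / (t - s)) := by
      have e : t / (t - s) = 1 + s / (t - s) := by field_simp; ring
      rw [div_rpow ha hκ.le, rpow_neg hκ.le, e, rpow_add' ha (by rw [← e]; positivity), rpow_one]
      field_simp
    have h3 : 0 ≤ κ * y ^ t := by positivity
    have h4 : a * y ^ s ≤ a * (a / κ) ^ (s / (t - s)) := by gcongr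
    linarith

theorem convex_rpow {u v r : ℝ} (hu : 0 ≤ u) (hv : 0 ≤ v) (hr : 1 ≤ r) :
    r * u ^ (r - 1) * (v - u) ≤ v ^ r - u ^ r := by
  rcases hu.eq_or_lt with rfl | hu'
  · rcases hr.eq_or_lt with rfl | hr'
    · simp
    · rw [zero_rpow (by linarith), zero_rpow (by linarith)]
      simp only [mul_zero, zero_mul, sub_zero]
      positivity
  have h1 := one_add_mul_self_le_rpow_one_add (s := v / u - 1)
    (by have : 0 ≤ v / u := by positivity
        linarith) hr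
  rw [add_sub_cancel, div_rpow hv hu, le_div_iff₀ (by positivity)] at h1
  have h2 : u ^ r = u ^ (r - 1) * u := by
    rw [← rpow_add_one hu'.ne']; congr 1; ring
  have h3 : (1 + r * (v / u - 1)) * u ^ r = u ^ r + r * u ^ (r - 1) * (v - u) := by
    rw [h2]; field_simp
  linarith

theorem second_order {u v q : ℝ} (hu : 0 ≤ u) (hv : 0 ≤ v) (hq : 2 ≤ q) :
    (v ^ q - u ^ q) / q - u ^ (q - 1) * (v - u)
      ≤ (q - 1) * (u ^ (q - 2) + v ^ (q - 2)) * (v - u) ^ 2 := by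
  have hq0 : 0 < q := by linarith
  have h1 := convex_rpow hv hu (r := q) (by linarith)
  have h2 : (v ^ q - u ^ q) / q ≤ v ^ (q - 1) * (v - u) := by
    rw [div_le_iff₀ hq0]; nlinarith
  have e : q - 1 - 1 = q - 2 := by ring
  have a1 := convex_rpow hu hv (r := q - 1) (by linarith)
  have a2 := convex_rpow hv hu (r := q - 1) (by linarith)
  rw [e] at a1 a2
  have p1 : 0 ≤ (q - 1) * u ^ (q - 2) := mul_nonneg (by linarith) (by positivity)
  have p2 : 0 ≤ (q - 1) * v ^ (q - 2) := mul_nonneg (by linarith) (by positivity)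
  have h3 : (v ^ (q - 1) - u ^ (q - 1)) * (v - u)
      ≤ (q - 1) * (u ^ (q - 2) + v ^ (q - 2)) * (v - u) ^ 2 := by
    rcases le_total u v with h | h
    · have b : v ^ (q - 1) - u ^ (q - 1) ≤ (q - 1) * v ^ (q - 2) * (v - u) := by linarith
      have b2 := mul_le_mul_of_nonneg_right b (sub_nonneg.2 h)
      nlinarith [mul_nonneg p1 (sq_nonneg (v - u))]
    · have b : u ^ (q - 1) - v ^ (q - 1) ≤ (q - 1) * u ^ (q - 2) * (u - v) := by linarith
      have b2 := mul_le_mul_of_nonneg_right b (sub_nonneg.2 h)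
      nlinarith [mul_nonneg p2 (sq_nonneg (v - u))]
  nlinarith

theorem rpow_interp {t r m : ℝ} (ht : 0 ≤ t) (h2 : 2 ≤ r) (hm : r ≤ m) :
    t ^ r ≤ t ^ 2 + t ^ m := by
  rcases le_total t 1 with h | h
  · have h1 : t ^ r ≤ t ^ (2:ℝ) := rpow_le_rpow_of_exponent_ge' ht h (by norm_num) h2
    rw [rpow_two] at h1
    have : 0 ≤ t ^ m := by positivity
    linarith
  · have h1 : t ^ r ≤ t ^ m := rpow_le_rpow_of_exponent_le h hm
    have : 0 ≤ t ^ 2 := by positivity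
    linarith

/-- crude Young inequality -/
theorem young_crude {a b r : ℝ} (ha : 0 ≤ a) (hb : 0 ≤ b) (hr : 0 < r) :
    a ^ r * b ≤ a ^ (r + 1) + b ^ (r + 1) := by
  rcases le_total b a with h | h
  · have h1 : a ^ r * b ≤ a ^ r * a := by gcongr
    rw [← rpow_add_one' ha (by linarith)] at h1
    have : 0 ≤ b ^ (r + 1) := by positivity
    linarith
  · have h1 : a ^ r * b ≤ b ^ r * b := by gcongr
    rw [← rpow_add_one' hb (by linarith)] at h1
    have : 0 ≤ a ^ (r + 1) := by positivity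
    linarith

theorem one_sub_le_rpow_neg {t s : ℝ} (ht : 0 ≤ t) (hs : 0 ≤ s) : 1 - s * t ≤ (1 + t) ^ (-s) := by
  rw [rpow_def_of_pos (by linarith)]
  have h1 := add_one_le_exp (log (1 + t) * -s)
  have h2 : log (1 + t) ≤ t := by
    have := log_le_sub_one_of_pos (show 0 < 1 + t by linarith)
    linarith
  nlinarith

theorem gamma_lower {δ γ : ℝ} (hδ : 0 ≤ δ) (hδ1 : δ ≤ 1) (hγ : 0 ≤ γ) (hγ1 : γ ≤ 1) :
    γ * δ / 3 ≤ 1 - (1 + δ) ^ (-γ) := by
  have hc : 0 < 1 + δ := by linarith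
  have h1 : δ / 2 ≤ log (1 + δ) := by
    have h := one_sub_inv_le_log_of_pos hc
    have h2 : (1 + δ)⁻¹ ≤ 1 - δ / 2 := by
      rw [inv_eq_one_div, div_le_iff₀ hc]; nlinarith
    linarith
  have h2 : 1 + γ * δ / 2 ≤ (1 + δ) ^ γ := by
    rw [rpow_def_of_pos hc]
    have := add_one_le_exp (log (1 + δ) * γ)
    nlinarith
  rw [rpow_neg hc.le]
  have h0 : 0 ≤ γ * δ := by positivity
  have h01 : γ * δ ≤ 1 := by nlinarith
  have h3 : ((1 + δ) ^ γ)⁻¹ ≤ (1 + γ * δ / 2)⁻¹ := inv_anti₀ (by positivity) h2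
  have h4 : (1 + γ * δ / 2)⁻¹ ≤ 1 - γ * δ / 3 := by
    rw [inv_eq_one_div, div_le_iff₀ (by positivity)]; nlinarith
  linarith

theorem gamma_upper {δ γ : ℝ} (hδ : 0 ≤ δ) (hγ : 0 ≤ γ) (hγ1 : γ ≤ 1) :
    1 - (1 + δ) ^ (-γ) ≤ δ := by
  have := one_sub_le_rpow_neg hδ hγ
  nlinarith

theorem rpow_sub_one_le {δ α : ℝ} (hδ : 0 ≤ δ) (hδ1 : δ ≤ 1) (hα : 0 ≤ α) :
    (1 + δ) ^ α - 1 ≤ (α + 1) * 2 ^ α * δ := by
  have h1 : (1 + δ) ^ α ≤ (1 + δ) ^ (α + 1) :=
    rpow_le_rpow_of_exponent_le (by linarith) (by linarith)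
  have h2 := convex_rpow (u := 1 + δ) (v := 1) (r := α + 1) (by linarith) (by norm_num)
    (by linarith)
  rw [one_rpow, add_sub_cancel_right] at h2
  have h3 : (1 + δ) ^ α ≤ 2 ^ α := rpow_le_rpow (by linarith) (by linarith) hα
  have h4 : (α + 1) * (1 + δ) ^ α * δ ≤ (α + 1) * 2 ^ α * δ := by gcongr
  nlinarith

end Pool.Agent.Lib.MP_a271d0_an
end

-- part Pool.Agent.Lib.MP_a271d0_an.GHardy
section

set_option autoImplicit false
set_option linter.unusedSectionVars false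
open MeasureTheory Filter Topology Set Module
open scoped ENNReal

namespace Pool.Agent.Lib.MP_a271d0_an.G

variable {E : Type*} [NormedAddCommGroup E] [InnerProductSpace ℝ E] [CompleteSpace E]

theorem norm_grad (ψ : E → ℝ) (x : E) : ‖gradient ψ x‖ = ‖fderiv ℝ ψ x‖ := by
  simp [gradient]

theorem cont_grad {ψ : E → ℝ} (h : ContDiff ℝ 1 ψ) : Continuous (gradient ψ) := by
  have h1 : Continuous (fderiv ℝ ψ) := h.continuous_fderiv one_ne_zero
  exact (InnerProductSpace.toDual ℝ E).symm.continuous.comp h1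

theorem cs_grad {ψ : E → ℝ} (h : HasCompactSupport ψ) : HasCompactSupport (gradient ψ) := by
  have h1 : HasCompactSupport (fderiv ℝ ψ) := h.fderiv ℝ
  exact h1.comp_left (g := (InnerProductSpace.toDual ℝ E).symm) (by simp)

theorem grad_zero_of_notMem {ψ : E → ℝ} {x : E} (hx : x ∉ tsupport ψ) : gradient ψ x = 0 := by
  have h1 : ψ =ᶠ[𝓝 x] fun _ => 0 := notMem_tsupport_iff_eventuallyEq.1 hx
  rw [h1.gradient_eq, gradient_fun_const]

theorem tsupport_grad (ψ : E → ℝ) : tsupport (gradient ψ) ⊆ tsupport ψ := by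
  apply closure_minimal _ (isClosed_tsupport ψ)
  intro x hx
  by_contra h
  exact hx (grad_zero_of_notMem h)

omit [InnerProductSpace ℝ E] [CompleteSpace E] in
theorem cont_mul_away {m g : E → ℝ} (hm : ∀ x, x ≠ 0 → ContinuousAt m x) (hg : Continuous g)
    (h0 : (0:E) ∉ tsupport g) : Continuous (fun x => m x * g x) := by
  rw [continuous_iff_continuousAt]
  intro x
  rcases eq_or_ne x 0 with rfl | hx
  · have h1 : g =ᶠ[𝓝 0] fun _ => 0 := notMem_tsupport_iff_eventuallyEq.1 h0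
    have h2 : (fun x => m x * g x) =ᶠ[𝓝 0] fun _ => 0 := by
      filter_upwards [h1] with y hy
      simp [hy]
    exact continuousAt_const.congr h2.symm
  · exact (hm x hx).mul hg.continuousAt

omit [InnerProductSpace ℝ E] [CompleteSpace E] in
theorem contAt_norm_rpow (b : ℝ) (x : E) (hx : x ≠ 0) : ContinuousAt (fun x : E => ‖x‖ ^ b) x :=
  continuous_norm.continuousAt.rpow_const (Or.inl (norm_ne_zero_iff.2 hx))

variable [FiniteDimensional ℝ E] [MeasurableSpace E] [BorelSpace E]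
  (μ : Measure E) [μ.IsAddHaarMeasure]

theorem int_grad_sq {ψ : E → ℝ} (h : ContDiff ℝ 1 ψ) (hc : HasCompactSupport ψ) :
    Integrable (fun x => ‖gradient ψ x‖ ^ 2) μ := by
  have h1 : Continuous (fun x => ‖gradient ψ x‖ ^ 2) := (cont_grad h).norm.pow 2
  have h2 : HasCompactSupport ((fun y : E => ‖y‖ ^ 2) ∘ gradient ψ) :=
    (cs_grad hc).comp_left (by simp)
  exact h1.integrable_of_hasCompactSupport h2

theorem int_w_grad_sq {ψ : E → ℝ} (h : ContDiff ℝ 1 ψ) (hc : HasCompactSupport ψ) {a : ℝ}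
    (ha : 0 ≤ a) : Integrable (fun x => ‖x‖ ^ a * ‖gradient ψ x‖ ^ 2) μ := by
  have h1 : Continuous (fun x => ‖gradient ψ x‖ ^ 2) := (cont_grad h).norm.pow 2
  have h2 : HasCompactSupport ((fun y : E => ‖y‖ ^ 2) ∘ gradient ψ) :=
    (cs_grad hc).comp_left (by simp)
  have h3 : Continuous (fun x : E => ‖x‖ ^ a) := continuous_norm.rpow_const (fun _ => Or.inr ha)
  have h4 : HasCompactSupport (fun x => ‖x‖ ^ a * ‖gradient ψ x‖ ^ 2) := h2.mul_left
  exact (h3.mul h1).integrable_of_hasCompactSupport h4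

omit [CompleteSpace E] in
theorem int_w_sq {ψ : E → ℝ} (h : Continuous ψ) (hc : HasCompactSupport ψ)
    (h0 : (0:E) ∉ tsupport ψ) (b : ℝ) : Integrable (fun x => ‖x‖ ^ b * ψ x ^ 2) μ := by
  have h1 : Continuous (fun x => ψ x ^ 2) := h.pow 2
  have h2 : HasCompactSupport ((fun y : ℝ => y ^ 2) ∘ ψ) := hc.comp_left (by simp)
  have h3 : tsupport (fun x => ψ x ^ 2) ⊆ tsupport ψ :=
    closure_mono (fun x hx hx' => hx (by simp [hx']))
  have h4 : HasCompactSupport (fun x => ‖x‖ ^ b * ψ x ^ 2) := h2.mul_left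
  exact (cont_mul_away (contAt_norm_rpow b) h1 (fun hh => h0 (h3 hh))).integrable_of_hasCompactSupport h4

omit [CompleteSpace E] in
theorem integral_scale (f : E → ℝ) {c : ℝ} (hc : 0 < c) :
    ∫ x, f (c • x) ∂μ = c ^ (-(finrank ℝ E : ℝ)) * ∫ x, f x ∂μ := by
  rw [Measure.integral_comp_smul μ f c, smul_eq_mul, abs_of_pos (by positivity),
    Real.rpow_neg hc.le, Real.rpow_natCast]

theorem path_est {ψ : E → ℝ} (hψ : ContDiff ℝ 1 ψ) {Φ Φ' : ℝ → E → E} {c : ℝ} (hc : 1 ≤ c)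
    (hΦ1 : ∀ x, Φ 1 x = x) (hΦc : Continuous (fun z : E × ℝ => Φ z.2 z.1))
    (hΦ'c : ∀ x, Continuous (fun t => Φ' t x))
    (hd : ∀ x t, HasDerivAt (fun t => Φ t x) (Φ' t x) t)
    {w m : E → ℝ} (hw : Measurable w) (hw0 : ∀ x, 0 ≤ w x) (hm : Measurable m)
    (hm0 : ∀ x, 0 ≤ m x)
    (hb : ∀ x, ∀ t ∈ Icc 1 c, w x * ‖Φ' t x‖ ^ 2 ≤ m (Φ t x))
    (hint : Integrable (fun x => m x * ‖gradient ψ x‖ ^ 2) μ)
    (hmap : ∀ t ∈ Icc 1 c, ∀ F : E → ℝ≥0∞, Measurable F → ∫⁻ x, F (Φ t x) ∂μ ≤ ∫⁻ x, F x ∂μ) :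
    Integrable (fun x => w x * (ψ (Φ c x) - ψ x) ^ 2) μ ∧
      ∫ x, w x * (ψ (Φ c x) - ψ x) ^ 2 ∂μ ≤ (c - 1) ^ 2 * ∫ x, m x * ‖gradient ψ x‖ ^ 2 ∂μ := by
  set F : E → ℝ≥0∞ := fun x => ENNReal.ofReal (m x * ‖gradient ψ x‖ ^ 2) with hF
  have hgc := cont_grad hψ
  have hFm : Measurable F := by
    have := hgc.measurable
    simp only [hF]
    fun_prop
  have hΦt : ∀ x, Continuous (fun t => Φ t x) := fun x =>
    hΦc.comp (Continuous.prodMk continuous_const continuous_id)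
  have hΦx : Continuous (fun x => Φ c x) :=
    hΦc.comp (Continuous.prodMk continuous_id continuous_const)
  have hL : 0 ≤ c - 1 := by linarith
  have hpt : ∀ x, ENNReal.ofReal (w x * (ψ (Φ c x) - ψ x) ^ 2)
      ≤ ENNReal.ofReal (c - 1) * ∫⁻ t in Ioc 1 c, F (Φ t x) := by
    intro x
    set g : ℝ → ℝ := fun t => fderiv ℝ ψ (Φ t x) (Φ' t x) with hg
    have hgcont : Continuous g := by
      have h1 : Continuous (fderiv ℝ ψ) := hψ.continuous_fderiv one_ne_zero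
      exact (h1.comp (hΦt x)).clm_apply (hΦ'c x)
    have hder : ∀ t, HasDerivAt (fun t => ψ (Φ t x)) (g t) t := fun t =>
      (hψ.differentiable one_ne_zero _).hasFDerivAt.comp_hasDerivAt t (hd x t)
    have hftc : ∫ t in (1:ℝ)..c, g t = ψ (Φ c x) - ψ (Φ 1 x) :=
      intervalIntegral.integral_eq_sub_of_hasDerivAt (fun t _ => hder t)
        (hgcont.intervalIntegrable _ _)
    rw [hΦ1] at hftc
    have hsq := sq_integral_le hgcont hc
    rw [hftc, intervalIntegral.integral_of_le hc] at hsq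
    have hi : IntegrableOn (fun t => w x * g t ^ 2) (Ioc 1 c) := by
      have : Continuous (fun t => w x * g t ^ 2) := by fun_prop
      exact this.integrableOn_Icc.mono_set Ioc_subset_Icc_self
    calc ENNReal.ofReal (w x * (ψ (Φ c x) - ψ x) ^ 2)
        ≤ ENNReal.ofReal ((c - 1) * ∫ t in Ioc 1 c, w x * g t ^ 2) := by
          apply ENNReal.ofReal_le_ofReal
          rw [integral_const_mul]
          have := mul_le_mul_of_nonneg_left hsq (hw0 x)
          linarith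
      _ = ENNReal.ofReal (c - 1) * ∫⁻ t in Ioc 1 c, ENNReal.ofReal (w x * g t ^ 2) := by
          rw [ENNReal.ofReal_mul hL, ofReal_integral_eq_lintegral_ofReal hi
            (ae_of_all _ (fun t => mul_nonneg (hw0 x) (sq_nonneg _)))]
      _ ≤ _ := by
          gcongr ?_ * ?_
          · exact le_rfl
          refine setLIntegral_mono' measurableSet_Ioc (fun t ht => ?_)
          apply ENNReal.ofReal_le_ofReal
          have h1 : |g t| ≤ ‖gradient ψ (Φ t x)‖ * ‖Φ' t x‖ := by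
            rw [norm_grad]
            exact (fderiv ℝ ψ (Φ t x)).le_opNorm _
          have h2 : g t ^ 2 ≤ (‖gradient ψ (Φ t x)‖ * ‖Φ' t x‖) ^ 2 := by
            rw [← sq_abs (g t)]
            exact pow_le_pow_left₀ (abs_nonneg _) h1 2
          have h3 := hb x t (Ioc_subset_Icc_self ht)
          calc w x * g t ^ 2 ≤ w x * (‖gradient ψ (Φ t x)‖ * ‖Φ' t x‖) ^ 2 :=
                mul_le_mul_of_nonneg_left h2 (hw0 x)
            _ = (w x * ‖Φ' t x‖ ^ 2) * ‖gradient ψ (Φ t x)‖ ^ 2 := by ring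
            _ ≤ _ := by gcongr
  set A := ∫ x, m x * ‖gradient ψ x‖ ^ 2 ∂μ with hA
  have hA0 : 0 ≤ A := integral_nonneg (fun x => mul_nonneg (hm0 x) (sq_nonneg _))
  have hFA : ∫⁻ x, F x ∂μ = ENNReal.ofReal A :=
    (ofReal_integral_eq_lintegral_ofReal hint
      (ae_of_all _ (fun x => mul_nonneg (hm0 x) (sq_nonneg _)))).symm
  have key : ∫⁻ x, ENNReal.ofReal (w x * (ψ (Φ c x) - ψ x) ^ 2) ∂μ
      ≤ ENNReal.ofReal ((c - 1) ^ 2 * A) := by
    calc ∫⁻ x, ENNReal.ofReal (w x * (ψ (Φ c x) - ψ x) ^ 2) ∂μ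
        ≤ ∫⁻ x, (ENNReal.ofReal (c - 1) * ∫⁻ t in Ioc 1 c, F (Φ t x)) ∂μ := lintegral_mono hpt
      _ = ENNReal.ofReal (c - 1) * ∫⁻ x, (∫⁻ t in Ioc 1 c, F (Φ t x)) ∂μ :=
          lintegral_const_mul' _ _ ENNReal.ofReal_ne_top
      _ = ENNReal.ofReal (c - 1) * ∫⁻ t in Ioc 1 c, ∫⁻ x, F (Φ t x) ∂μ := by
          rw [lintegral_lintegral_swap]
          exact (hFm.comp hΦc.measurable).aemeasurable
      _ ≤ ENNReal.ofReal (c - 1) * ∫⁻ _ in Ioc (1:ℝ) c, ENNReal.ofReal A := by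
          gcongr ?_ * ?_
          · exact le_rfl
          refine setLIntegral_mono' measurableSet_Ioc (fun t ht => ?_)
          rw [← hFA]
          exact hmap t (Ioc_subset_Icc_self ht) F hFm
      _ = ENNReal.ofReal ((c - 1) ^ 2 * A) := by
          rw [setLIntegral_const, Real.volume_Ioc, ← ENNReal.ofReal_mul hA0,
            ← ENNReal.ofReal_mul hL]
          congr 1; ring
  have hnn : ∀ᵐ x ∂μ, 0 ≤ w x * (ψ (Φ c x) - ψ x) ^ 2 :=
    ae_of_all _ (fun x => mul_nonneg (hw0 x) (sq_nonneg _))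
  have hI : Integrable (fun x => w x * (ψ (Φ c x) - ψ x) ^ 2) μ := by
    refine ⟨?_, ?_⟩
    · have h1 := hψ.continuous.measurable
      have h2 := hΦx.measurable
      apply Measurable.aestronglyMeasurable
      fun_prop
    · rw [hasFiniteIntegral_iff_ofReal hnn]
      exact key.trans_lt ENNReal.ofReal_lt_top
  refine ⟨hI, ?_⟩
  rw [← ofReal_integral_eq_lintegral_ofReal hI hnn] at key
  exact (ENNReal.ofReal_le_ofReal_iff (by positivity)).1 key

omit [CompleteSpace E] in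
theorem lintegral_smul_le {t : ℝ} (ht : 1 ≤ t) (F : E → ℝ≥0∞) (hF : Measurable F) :
    ∫⁻ x, F (t • x) ∂μ ≤ ∫⁻ x, F x ∂μ := by
  have ht0 : t ≠ 0 := by linarith
  rw [← lintegral_map hF (measurable_const_smul t), Measure.map_addHaar_smul μ ht0,
    lintegral_smul_measure, smul_eq_mul]
  refine mul_le_of_le_one_left' ?_
  rw [ENNReal.ofReal_le_one, abs_of_pos (by positivity)]
  exact inv_le_one_of_one_le₀ (one_le_pow₀ ht)

theorem hardy_w {ψ : E → ℝ} (h : ContDiff ℝ 1 ψ) (hcs : HasCompactSupport ψ)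
    (h0 : (0:E) ∉ tsupport ψ) {a ν : ℝ} (ha : 0 ≤ a) (hν : 2 * ν = finrank ℝ E + a - 2)
    (hν0 : 0 < ν) :
    ν ^ 2 * ∫ x, ‖x‖ ^ (a - 2) * ψ x ^ 2 ∂μ ≤ ∫ x, ‖x‖ ^ a * ‖gradient ψ x‖ ^ 2 ∂μ := by
  set H := ∫ x, ‖x‖ ^ (a - 2) * ψ x ^ 2 ∂μ with hH
  set A := ∫ x, ‖x‖ ^ a * ‖gradient ψ x‖ ^ 2 ∂μ with hA
  have hI := int_w_sq μ h.continuous hcs h0 (a - 2)
  have key : ∀ δ : ℝ, 0 < δ → (δ⁻¹ * ((1 + δ) ^ (-ν) - 1)) ^ 2 * H ≤ A := by
    intro δ hδ
    set c := 1 + δ with hc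
    have hc1 : 1 < c := by linarith
    have hc0 : 0 < c := by linarith
    obtain ⟨h1, h2⟩ := path_est μ h (Φ := fun t x => t • x) (Φ' := fun _ x => x) hc1.le
      (fun x => one_smul _ _) (by fun_prop) (fun x => continuous_const)
      (fun x t => by simpa using (hasDerivAt_id t).smul_const x)
      (w := fun x => ‖x‖ ^ (a - 2)) (m := fun x => ‖x‖ ^ a) (by fun_prop)
      (fun x => by positivity) (by fun_prop) (fun x => by positivity)
      (fun x t ht => by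
        have e : ‖x‖ ^ (a - 2) * ‖x‖ ^ 2 ≤ ‖x‖ ^ a := by
          rcases (norm_nonneg x).eq_or_lt with hx | hx
          · rw [← hx]; simp only [ne_eq, OfNat.ofNat_ne_zero, not_false_eq_true, zero_pow,
              mul_zero]; positivity
          · rw [← Real.rpow_two, ← Real.rpow_add hx]; simp
        refine e.trans (Real.rpow_le_rpow (norm_nonneg _) ?_ ha)
        rw [norm_smul, Real.norm_eq_abs, abs_of_pos (by linarith [ht.1])]
        nlinarith [norm_nonneg x, ht.1])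
      (int_w_grad_sq μ h hcs ha) (fun t ht F hF => lintegral_smul_le μ ht.1 F hF)
    set b := c ^ (-ν) with hb
    have hb0 : 0 < b := by positivity
    have hb1 : b < 1 := Real.rpow_lt_one_of_one_lt_of_neg hc1 (by linarith)
    have e1 : ∀ x : E, ‖x‖ ^ (a - 2) * ψ (c • x) ^ 2
        = c ^ (-(a - 2)) * (‖c • x‖ ^ (a - 2) * ψ (c • x) ^ 2) := by
      intro x
      rw [norm_smul, Real.norm_eq_abs, abs_of_pos hc0, Real.mul_rpow hc0.le (norm_nonneg _),
        Real.rpow_neg hc0.le]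
      field_simp
    have hI2 : Integrable (fun x : E => ‖x‖ ^ (a - 2) * ψ (c • x) ^ 2) μ := by
      simp only [e1]
      exact (hI.comp_smul (R := c) hc0.ne').const_mul _
    have e2 : ∫ x, ‖x‖ ^ (a - 2) * ψ (c • x) ^ 2 ∂μ = b ^ 2 * H := by
      simp only [e1]
      rw [integral_const_mul, integral_scale μ (fun x => ‖x‖ ^ (a - 2) * ψ x ^ 2) hc0,
        ← mul_assoc, ← Real.rpow_add hc0, hb, ← Real.rpow_natCast, ← Real.rpow_mul hc0.le]
      congr 2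
      push_cast
      linarith
    have hle : H ≤ ∫ x, ((1 - b)⁻¹ * (‖x‖ ^ (a - 2) * (ψ (c • x) - ψ x) ^ 2)
        + b⁻¹ * (‖x‖ ^ (a - 2) * ψ (c • x) ^ 2)) ∂μ := by
      refine integral_mono hI ((h1.const_mul _).add (hI2.const_mul _)) (fun x => ?_)
      have hw : 0 ≤ ‖x‖ ^ (a - 2) := by positivity
      have h3 : ψ x ^ 2 ≤ (1 - b)⁻¹ * (ψ (c • x) - ψ x) ^ 2 + b⁻¹ * ψ (c • x) ^ 2 := by
        have hb2 : 0 < 1 - b := by linarith
        have : (1 - b)⁻¹ * (ψ (c • x) - ψ x) ^ 2 + b⁻¹ * ψ (c • x) ^ 2 - ψ x ^ 2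
            = (ψ (c • x) - b * ψ x) ^ 2 / (b * (1 - b)) := by
          field_simp; ring
        have h4 : 0 ≤ (ψ (c • x) - b * ψ x) ^ 2 / (b * (1 - b)) := by positivity
        linarith
      have := mul_le_mul_of_nonneg_left h3 hw
      beta_reduce
      linarith
    rw [integral_add (h1.const_mul _) (hI2.const_mul _), integral_const_mul, integral_const_mul,
      e2] at hle
    have hb2 : 0 < 1 - b := by linarith
    have h5 : (1 - b)⁻¹ * ∫ x, ‖x‖ ^ (a - 2) * (ψ (c • x) - ψ x) ^ 2 ∂μ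
        ≤ (1 - b)⁻¹ * ((c - 1) ^ 2 * A) := by gcongr
    have h6 : b⁻¹ * (b ^ 2 * H) = b * H := by field_simp
    have h7 : (1 - b) * H ≤ (1 - b)⁻¹ * (δ ^ 2 * A) := by
      have : c - 1 = δ := by rw [hc]; ring
      rw [this] at h5
      linarith
    have h8 : (1 - b) ^ 2 * H ≤ δ ^ 2 * A := by
      have := mul_le_mul_of_nonneg_left h7 hb2.le
      rw [← mul_assoc, ← mul_assoc, mul_inv_cancel₀ hb2.ne', one_mul] at this
      nlinarith
    have h9 : (δ⁻¹ * (b - 1)) ^ 2 * H = (δ ^ 2)⁻¹ * ((1 - b) ^ 2 * H) := by field_simp; ring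
    rw [h9, inv_mul_le_iff₀ (by positivity)]
    exact h8
  have hder : HasDerivAt (fun c : ℝ => c ^ (-ν)) (-ν) 1 := by
    simpa using (Real.hasStrictDerivAt_rpow_const_of_ne one_ne_zero (-ν)).hasDerivAt
  have hs := hder.tendsto_slope_zero_right
  simp only [Real.one_rpow, smul_eq_mul] at hs
  have h2 := (hs.pow 2).mul_const H
  rw [neg_sq] at h2
  refine le_of_tendsto h2 ?_
  filter_upwards [self_mem_nhdsWithin] with δ hδ
  exact key δ hδ

theorem sobolev {m : ℝ} (hn : 3 ≤ finrank ℝ E)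
    (hm : m = 2 * finrank ℝ E / (finrank ℝ E - 2)) :
    ∃ C : ℝ, 0 ≤ C ∧ ∀ ψ : E → ℝ, ContDiff ℝ 1 ψ → HasCompactSupport ψ →
    ∫ x, |ψ x| ^ m ∂μ ≤ C * (∫ x, ‖gradient ψ x‖ ^ 2 ∂μ) ^ (m / 2) := by
  have hn' : (3:ℝ) ≤ finrank ℝ E := by exact_mod_cast hn
  have hm0 : 0 < m := by rw [hm]; apply div_pos <;> linarith
  refine ⟨(SNormLESNormFDerivOfEqConst ℝ μ (2 : NNReal) : ℝ) ^ m,
    by positivity, fun ψ h hcs => ?_⟩
  obtain ⟨m', rfl⟩ : ∃ m' : NNReal, (m' : ℝ) = m := ⟨⟨m, hm0.le⟩, rfl⟩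
  have key := eLpNorm_le_eLpNorm_fderiv_of_eq μ h hcs
    (p := 2) (p' := m') (by norm_num) (by omega) (by
      have : (finrank ℝ E : ℝ) - 2 ≠ 0 := by linarith
      have : (finrank ℝ E : ℝ) ≠ 0 := by linarith
      rw [hm]; push_cast; field_simp)
  have m1 : MemLp ψ (m' : ℝ≥0∞) μ :=
    h.continuous.memLp_of_hasCompactSupport hcs
  have m2 : MemLp (fderiv ℝ ψ) (2 : NNReal) μ :=
    (h.continuous_fderiv one_ne_zero).memLp_of_hasCompactSupport (hcs.fderiv ℝ)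
  rw [m1.eLpNorm_eq_integral_rpow_norm
      (by rw [ne_eq, ENNReal.coe_eq_zero, ← NNReal.coe_eq_zero]; exact hm0.ne') (by simp),
    m2.eLpNorm_eq_integral_rpow_norm (by simp) (by simp)] at key
  simp only [ENNReal.coe_toReal, NNReal.coe_ofNat, Real.rpow_ofNat, Real.norm_eq_abs] at key
  have e2 : ∫ x, ‖fderiv ℝ ψ x‖ ^ 2 ∂μ = ∫ x, ‖gradient ψ x‖ ^ 2 ∂μ := by
    simp_rw [norm_grad]
  rw [e2] at key
  generalize (m' : ℝ) = m at key hm0 ⊢
  set P := ∫ x, |ψ x| ^ m ∂μ with hP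
  set A := ∫ x, ‖gradient ψ x‖ ^ 2 ∂μ with hA
  have hP0 : 0 ≤ P := integral_nonneg (fun x => by positivity)
  have hA0 : 0 ≤ A := integral_nonneg (fun x => by positivity)
  set K : NNReal := SNormLESNormFDerivOfEqConst ℝ μ (2 : NNReal) with hK
  have key2 : P ^ m⁻¹ ≤ K * A ^ (2:ℝ)⁻¹ := by
    rw [← ENNReal.ofReal_coe_nnreal, ← ENNReal.ofReal_mul (by positivity)] at key
    exact (ENNReal.ofReal_le_ofReal_iff (by positivity)).1 key
  have e3 : P = (P ^ m⁻¹) ^ m := by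
    rw [← Real.rpow_mul hP0, inv_mul_cancel₀ hm0.ne', Real.rpow_one]
  have e4 : A ^ (m / 2) = (A ^ (2:ℝ)⁻¹) ^ m := by
    rw [← Real.rpow_mul hA0]; congr 1; ring
  rw [e3, e4, ← Real.mul_rpow (by positivity) (by positivity)]
  exact Real.rpow_le_rpow (by positivity) key2 hm0.le

end Pool.Agent.Lib.MP_a271d0_an.G
end

-- part Pool.Agent.Lib.MP_a271d0_an.GH10
section

set_option autoImplicit false
set_option linter.unusedSectionVars false
open MeasureTheory Filter Topology Set Module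
open scoped ENNReal

namespace Pool.Agent.Lib.MP_a271d0_an.G

variable {E : Type*} [NormedAddCommGroup E] [InnerProductSpace ℝ E] [CompleteSpace E]

/-- test functions -/
def IsTest (Ω : Set E) (ψ : E → ℝ) : Prop :=
  ContDiff ℝ ((⊤ : ℕ∞) : WithTop ℕ∞) ψ ∧ HasCompactSupport ψ ∧ tsupport ψ ⊆ Ω

theorem IsTest.c1 {Ω : Set E} {ψ : E → ℝ} (h : IsTest Ω ψ) : ContDiff ℝ 1 ψ :=
  h.1.of_le (by exact_mod_cast le_top)

theorem IsTest.zero {Ω : Set E} {ψ : E → ℝ} (h : IsTest Ω ψ) {x : E} (hx : x ∉ Ω) :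
    ψ x = 0 ∧ gradient ψ x = 0 :=
  ⟨image_eq_zero_of_notMem_tsupport (fun h' => hx (h.2.2 h')),
    grad_zero_of_notMem (fun h' => hx (h.2.2 h'))⟩

theorem IsTest.sub {Ω : Set E} {f g : E → ℝ} (hf : IsTest Ω f) (hg : IsTest Ω g) :
    IsTest Ω (fun x => f x - g x) := by
  refine ⟨hf.1.sub hg.1, hf.2.1.sub hg.2.1, ?_⟩
  have h1 : tsupport (fun x => f x - g x) ⊆ tsupport f ∪ tsupport g := by
    apply closure_minimal
    · intro z hz
      by_contra hc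
      simp only [mem_union, not_or] at hc
      apply hz
      simp [image_eq_zero_of_notMem_tsupport hc.1, image_eq_zero_of_notMem_tsupport hc.2]
    · exact (isClosed_tsupport _).union (isClosed_tsupport _)
  exact h1.trans (union_subset hf.2.2 hg.2.2)

theorem grad_sub {f g : E → ℝ} (hf : ContDiff ℝ 1 f) (hg : ContDiff ℝ 1 g) (x : E) :
    gradient (fun z => f z - g z) x = gradient f x - gradient g x := by
  have h1 := (hf.differentiable one_ne_zero x)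
  have h2 := (hg.differentiable one_ne_zero x)
  unfold gradient
  rw [fderiv_fun_sub h1 h2, map_sub]

theorem grad_mul {f g : E → ℝ} {x : E} (hf : DifferentiableAt ℝ f x)
    (hg : DifferentiableAt ℝ g x) :
    gradient (fun z => f z * g z) x = f x • gradient g x + g x • gradient f x := by
  unfold gradient
  rw [fderiv_fun_mul hf hg, map_add, map_smul, map_smul]

theorem grad_comp {f : E → ℝ} {Φ : E → E} {x : E} (hf : DifferentiableAt ℝ f (Φ x))
    (hΦ : DifferentiableAt ℝ Φ x) :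
    gradient (fun z => f (Φ z)) x
      = ContinuousLinearMap.adjoint (fderiv ℝ Φ x) (gradient f (Φ x)) := by
  apply ext_inner_right ℝ
  intro y
  rw [ContinuousLinearMap.adjoint_inner_left, inner_gradient_left, inner_gradient_left]
  have := fderiv_comp x hf hΦ
  change fderiv ℝ (f ∘ Φ) x y = _
  rw [this]; rfl

theorem norm_adjoint_apply_le (A : E →L[ℝ] E) (y : E) :
    ‖ContinuousLinearMap.adjoint A y‖ ≤ ‖A‖ * ‖y‖ := by
  have := (ContinuousLinearMap.adjoint A).le_opNorm y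
  rwa [LinearIsometryEquiv.norm_map] at this

theorem norm_add_sq_le (a b : E) : ‖a + b‖ ^ 2 ≤ 2 * ‖a‖ ^ 2 + 2 * ‖b‖ ^ 2 := by
  have h5 := norm_add_le a b
  have h6 : ‖a + b‖ ^ 2 ≤ (‖a‖ + ‖b‖) ^ 2 := by gcongr
  nlinarith [sq_nonneg (‖a‖ - ‖b‖)]

variable [FiniteDimensional ℝ E] [MeasurableSpace E] [BorelSpace E]

/-- `w` lies in the closure of the test functions in the first order Sobolev norm. -/
structure H10 (μ : Measure E) (Ω : Set E) (w : E → ℝ) (G : E → E) (ψ : ℕ → E → ℝ) : Prop where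
  test : ∀ n, IsTest Ω (ψ n)
  idw : ∀ n, Integrable (fun x => (ψ n x - w x) ^ 2) μ
  idG : ∀ n, Integrable (fun x => ‖gradient (ψ n) x - G x‖ ^ 2) μ
  cw : Tendsto (fun n => ∫ x, (ψ n x - w x) ^ 2 ∂μ) atTop (𝓝 0)
  cG : Tendsto (fun n => ∫ x, ‖gradient (ψ n) x - G x‖ ^ 2 ∂μ) atTop (𝓝 0)
  aew : ∀ᵐ x ∂μ, Tendsto (fun n => ψ n x) atTop (𝓝 (w x))
  aeG : ∀ᵐ x ∂μ, Tendsto (fun n => gradient (ψ n) x) atTop (𝓝 (G x))

variable {μ : Measure E} [μ.IsAddHaarMeasure]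
variable {Ω : Set E} {w : E → ℝ} {G : E → E} {ψ : ℕ → E → ℝ}

theorem H10.of_bound (test : ∀ n, IsTest Ω (ψ n))
    (aew : ∀ᵐ x ∂μ, Tendsto (fun n => ψ n x) atTop (𝓝 (w x)))
    (aeG : ∀ᵐ x ∂μ, Tendsto (fun n => gradient (ψ n) x) atTop (𝓝 (G x)))
    {b : ℕ → E → ℝ} (hb : ∀ n, Integrable (b n) μ)
    (hbl : Tendsto (fun n => ∫ x, b n x ∂μ) atTop (𝓝 0))
    (h1 : ∀ n, ∀ᵐ x ∂μ, (ψ n x - w x) ^ 2 ≤ b n x ∧ ‖gradient (ψ n) x - G x‖ ^ 2 ≤ b n x) :
    H10 μ Ω w G ψ := by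
  have mw : AEStronglyMeasurable w μ :=
    aestronglyMeasurable_of_tendsto_ae atTop
      (fun n => (test n).c1.continuous.aestronglyMeasurable) aew
  have mG : AEStronglyMeasurable G μ :=
    aestronglyMeasurable_of_tendsto_ae atTop
      (fun n => (cont_grad (test n).c1).aestronglyMeasurable) aeG
  have i1 : ∀ n, Integrable (fun x => (ψ n x - w x) ^ 2) μ := fun n =>
    (hb n).mono' (((test n).c1.continuous.aestronglyMeasurable.sub mw).pow 2)
      ((h1 n).mono (fun x hx => by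
        rw [Real.norm_eq_abs, abs_of_nonneg (sq_nonneg _)]; exact hx.1))
  have i2 : ∀ n, Integrable (fun x => ‖gradient (ψ n) x - G x‖ ^ 2) μ := fun n =>
    (hb n).mono' ((((cont_grad (test n).c1).aestronglyMeasurable.sub mG).norm).pow 2)
      ((h1 n).mono (fun x hx => by
        rw [Real.norm_eq_abs, abs_of_nonneg (sq_nonneg _)]; exact hx.2))
  refine ⟨test, i1, i2, ?_, ?_, aew, aeG⟩
  · exact squeeze_zero (fun n => integral_nonneg (fun x => sq_nonneg _))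
      (fun n => integral_mono_ae (i1 n) (hb n) ((h1 n).mono (fun x hx => hx.1))) hbl
  · exact squeeze_zero (fun n => integral_nonneg (fun x => sq_nonneg _))
      (fun n => integral_mono_ae (i2 n) (hb n) ((h1 n).mono (fun x hx => hx.2))) hbl

theorem H10.mw (S : H10 μ Ω w G ψ) : AEStronglyMeasurable w μ :=
  aestronglyMeasurable_of_tendsto_ae atTop
    (fun n => (S.test n).c1.continuous.aestronglyMeasurable) S.aew

theorem H10.mG (S : H10 μ Ω w G ψ) : AEStronglyMeasurable G μ :=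
  aestronglyMeasurable_of_tendsto_ae atTop
    (fun n => (cont_grad (S.test n).c1).aestronglyMeasurable) S.aeG

theorem H10.iw (S : H10 μ Ω w G ψ) : Integrable (fun x => w x ^ 2) μ := by
  have h1 : Continuous (fun x => ψ 0 x ^ 2) := (S.test 0).c1.continuous.pow 2
  have h2 : HasCompactSupport ((fun y : ℝ => y ^ 2) ∘ ψ 0) := (S.test 0).2.1.comp_left (by simp)
  have h3 : Integrable (fun x => ψ 0 x ^ 2) μ := h1.integrable_of_hasCompactSupport h2
  refine ((h3.const_mul 2).add ((S.idw 0).const_mul 2)).mono' (S.mw.pow 2)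
    (ae_of_all _ (fun x => ?_))
  rw [Real.norm_eq_abs, abs_of_nonneg (sq_nonneg _)]
  simp only [Pi.add_apply]
  nlinarith [sq_nonneg (2 * ψ 0 x - w x)]

theorem H10.iG (S : H10 μ Ω w G ψ) : Integrable (fun x => ‖G x‖ ^ 2) μ := by
  have h3 := int_grad_sq μ (S.test 0).c1 (S.test 0).2.1
  refine ((h3.const_mul 2).add ((S.idG 0).const_mul 2)).mono' (S.mG.norm.pow 2)
    (ae_of_all _ (fun x => ?_))
  rw [Real.norm_eq_abs, abs_of_nonneg (sq_nonneg _)]
  simp only [Pi.add_apply]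
  have := norm_add_sq_le (gradient (ψ 0) x) (-(gradient (ψ 0) x - G x))
  rw [norm_neg] at this
  simpa using this

theorem H10.zero_out (S : H10 μ Ω w G ψ) : ∀ᵐ x ∂μ, x ∉ Ω → w x = 0 ∧ G x = 0 := by
  filter_upwards [S.aew, S.aeG] with x h1 h2 hx
  have e1 : ∀ n, ψ n x = 0 := fun n => ((S.test n).zero hx).1
  have e2 : ∀ n, gradient (ψ n) x = 0 := fun n => ((S.test n).zero hx).2
  simp only [e1] at h1
  simp only [e2] at h2
  exact ⟨tendsto_nhds_unique h1 tendsto_const_nhds, tendsto_nhds_unique h2 tendsto_const_nhds⟩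

theorem H10.cAw (S : H10 μ Ω w G ψ) {m : E → ℝ} (hm : Measurable m) (hm0 : ∀ x, 0 ≤ m x)
    {C : ℝ} (hC : ∀ x ∈ Ω, m x ≤ C) :
    Integrable (fun x => m x * ‖G x‖ ^ 2) μ ∧
    Tendsto (fun n => ∫ x, m x * ‖gradient (ψ n) x‖ ^ 2 ∂μ) atTop
      (𝓝 (∫ x, m x * ‖G x‖ ^ 2 ∂μ)) := by
  have hC' : ∀ x ∈ Ω, m x ≤ |C| := fun x hx => (hC x hx).trans (le_abs_self C)
  have b1 : ∀ᵐ x ∂μ, |m x * ‖G x‖ ^ 2| ≤ |C| * ‖G x‖ ^ 2 := by
    filter_upwards [S.zero_out] with x hx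
    by_cases hxΩ : x ∈ Ω
    · rw [abs_of_nonneg (mul_nonneg (hm0 x) (sq_nonneg _))]
      have := hC' x hxΩ
      gcongr
    · simp [(hx hxΩ).2]
  refine ⟨(S.iG.const_mul |C|).mono' (hm.aestronglyMeasurable.mul (S.mG.norm.pow 2)) b1, ?_⟩
  refine gdct (a := fun x => (2 * |C|) * ‖G x‖ ^ 2)
    (b := fun n x => (2 * |C|) * ‖gradient (ψ n) x - G x‖ ^ 2)
    (fun n => hm.aestronglyMeasurable.mul
      ((cont_grad (S.test n).c1).aestronglyMeasurable.norm.pow 2)) (S.iG.const_mul _)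
    (fun n => (S.idG n).const_mul _) (fun n => ae_of_all _ (fun x => by positivity))
    (fun n => ae_of_all _ (fun x => ?_)) (b1.mono (fun x hx => ?_)) ?_ ?_
  · by_cases hxΩ : x ∈ Ω
    · rw [abs_of_nonneg (mul_nonneg (hm0 x) (sq_nonneg _))]
      have h1 := hC' x hxΩ
      have h2 := norm_add_sq_le (G x) (gradient (ψ n) x - G x)
      rw [add_sub_cancel] at h2
      calc m x * ‖gradient (ψ n) x‖ ^ 2
          ≤ |C| * (2 * ‖G x‖ ^ 2 + 2 * ‖gradient (ψ n) x - G x‖ ^ 2) := by gcongr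
        _ = _ := by ring
    · rw [((S.test n).zero hxΩ).2]
      simp only [norm_zero, ne_eq, OfNat.ofNat_ne_zero, not_false_eq_true, zero_pow, mul_zero,
        abs_zero]
      positivity
  · have : 0 ≤ |C| * ‖G x‖ ^ 2 := by positivity
    linarith
  · filter_upwards [S.aeG] with x hx using (hx.norm.pow 2).const_mul _
  · simp_rw [integral_const_mul]
    simpa using S.cG.const_mul (2 * |C|)

theorem H10.hardy (S : H10 μ Ω w G ψ) (h0 : (0:E) ∉ Ω) {a ν C : ℝ} (ha : 0 ≤ a)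
    (hν : 2 * ν = finrank ℝ E + a - 2) (hν0 : 0 < ν) (hC : ∀ x ∈ Ω, ‖x‖ ^ a ≤ C) :
    Integrable (fun x => ‖x‖ ^ (a - 2) * w x ^ 2) μ ∧
    ν ^ 2 * ∫ x, ‖x‖ ^ (a - 2) * w x ^ 2 ∂μ ≤ ∫ x, ‖x‖ ^ a * ‖G x‖ ^ 2 ∂μ := by
  obtain ⟨-, h2⟩ := S.cAw (m := fun x => ‖x‖ ^ a) (by fun_prop) (fun x => by positivity) hC
  have h0' : ∀ n, (0:E) ∉ tsupport (ψ n) := fun n h => h0 ((S.test n).2.2 h)
  have := fatou_real (μ := μ) (f := fun n x => ‖x‖ ^ (a - 2) * ψ n x ^ 2)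
    (g := fun x => ‖x‖ ^ (a - 2) * w x ^ 2)
    (c := fun n => (ν ^ 2)⁻¹ * ∫ x, ‖x‖ ^ a * ‖gradient (ψ n) x‖ ^ 2 ∂μ)
    (fun n => int_w_sq μ (S.test n).c1.continuous (S.test n).2.1 (h0' n) _)
    (fun n => ae_of_all _ (fun x => by positivity))
    (S.aew.mono (fun x hx => (hx.pow 2).const_mul _))
    (fun n => by
      rw [le_inv_mul_iff₀ (by positivity)]
      exact hardy_w μ (S.test n).c1 (S.test n).2.1 (h0' n) ha hν hν0)
    (h2.const_mul _)
  refine ⟨this.1, ?_⟩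
  have h3 := this.2
  rwa [le_inv_mul_iff₀ (by positivity)] at h3

theorem H10.hardy0 (S : H10 μ Ω w G ψ) (h0 : (0:E) ∉ Ω) (hn : 3 ≤ finrank ℝ E) :
    Integrable (fun x => ‖x‖ ^ (-2 : ℝ) * w x ^ 2) μ ∧
    ∫ x, ‖x‖ ^ (-2 : ℝ) * w x ^ 2 ∂μ ≤ 4 * ∫ x, ‖G x‖ ^ 2 ∂μ := by
  have hn' : (3:ℝ) ≤ finrank ℝ E := by exact_mod_cast hn
  obtain ⟨h1, h2⟩ := S.hardy h0 (a := 0) (ν := (finrank ℝ E - 2) / 2) (C := 1) le_rfl (by ring)
    (by linarith) (fun x _ => by simp)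
  simp only [zero_sub, Real.rpow_zero, one_mul] at h1 h2
  refine ⟨h1, ?_⟩
  have h3 : 0 ≤ ∫ x, ‖x‖ ^ (-2 : ℝ) * w x ^ 2 ∂μ := integral_nonneg (fun x => by positivity)
  have h4 : (1 / 4 : ℝ) ≤ ((finrank ℝ E - 2) / 2) ^ 2 := by nlinarith
  nlinarith

theorem sob_H10 (μ : Measure E) [μ.IsAddHaarMeasure] {m : ℝ} (hn : 3 ≤ finrank ℝ E)
    (hm : m = 2 * finrank ℝ E / (finrank ℝ E - 2)) :
    ∃ C : ℝ, 0 ≤ C ∧ ∀ (Ω : Set E) (w : E → ℝ) (G : E → E) (ψ : ℕ → E → ℝ), H10 μ Ω w G ψ →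
      Integrable (fun x => |w x| ^ m) μ ∧
      ∫ x, |w x| ^ m ∂μ ≤ C * (∫ x, ‖G x‖ ^ 2 ∂μ) ^ (m / 2) := by
  have hn' : (3:ℝ) ≤ finrank ℝ E := by exact_mod_cast hn
  have hm0 : 0 < m := by rw [hm]; apply div_pos <;> linarith
  obtain ⟨C, hC0, hC⟩ := sobolev μ hn hm
  refine ⟨C, hC0, fun Ω w G ψ S => ?_⟩
  obtain ⟨-, h2⟩ := S.cAw (m := fun _ => 1) (by fun_prop) (fun x => zero_le_one) (C := 1)
    (fun _ _ => le_rfl)
  simp only [one_mul] at h2
  refine fatou_real (f := fun n x => |ψ n x| ^ m)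
    (c := fun n => C * (∫ x, ‖gradient (ψ n) x‖ ^ 2 ∂μ) ^ (m / 2)) (fun n => ?_)
    (fun n => ae_of_all _ (fun x => by positivity))
    (S.aew.mono (fun x hx => hx.abs.rpow_const (Or.inr hm0.le)))
    (fun n => hC _ (S.test n).c1 (S.test n).2.1)
    ((h2.rpow_const (Or.inr (by positivity))).const_mul C)
  have a1 : Continuous (fun x => |ψ n x| ^ m) :=
    (S.test n).c1.continuous.abs.rpow_const (fun _ => Or.inr hm0.le)
  have a2 : HasCompactSupport ((fun y : ℝ => |y| ^ m) ∘ ψ n) :=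
    (S.test n).2.1.comp_left (by simp [hm0.ne'])
  exact a1.integrable_of_hasCompactSupport a2

theorem H10.const {f : E → ℝ} (h : IsTest Ω f) : H10 μ Ω f (gradient f) (fun _ => f) :=
  H10.of_bound (fun _ => h) (ae_of_all _ (fun _ => tendsto_const_nhds))
    (ae_of_all _ (fun _ => tendsto_const_nhds)) (b := fun _ _ => 0)
    (fun _ => integrable_zero _ _ _) (by simp) (fun _ => ae_of_all _ (fun x => by simp))

theorem H10.sub {w' : E → ℝ} {G' : E → E} {ψ' : ℕ → E → ℝ} (S : H10 μ Ω w G ψ)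
    (S' : H10 μ Ω w' G' ψ') :
    H10 μ Ω (fun x => w x - w' x) (fun x => G x - G' x) (fun n x => ψ n x - ψ' n x) := by
  refine H10.of_bound (fun n => (S.test n).sub (S'.test n)) ?_ ?_
    (b := fun n x => (2 * (ψ n x - w x) ^ 2 + 2 * (ψ' n x - w' x) ^ 2)
      + (2 * ‖gradient (ψ n) x - G x‖ ^ 2 + 2 * ‖gradient (ψ' n) x - G' x‖ ^ 2))
    (fun n => (((S.idw n).const_mul 2).add ((S'.idw n).const_mul 2)).add
      (((S.idG n).const_mul 2).add ((S'.idG n).const_mul 2))) ?_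
    (fun n => ae_of_all _ (fun x => ⟨?_, ?_⟩))
  · filter_upwards [S.aew, S'.aew] with x h1 h2 using h1.sub h2
  · filter_upwards [S.aeG, S'.aeG] with x h1 h2
    simp only [grad_sub (S.test _).c1 (S'.test _).c1]
    exact h1.sub h2
  · have e : ∀ n, ∫ x, ((2 * (ψ n x - w x) ^ 2 + 2 * (ψ' n x - w' x) ^ 2)
        + (2 * ‖gradient (ψ n) x - G x‖ ^ 2 + 2 * ‖gradient (ψ' n) x - G' x‖ ^ 2)) ∂μ
        = (2 * ∫ x, (ψ n x - w x) ^ 2 ∂μ + 2 * ∫ x, (ψ' n x - w' x) ^ 2 ∂μ)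
          + (2 * ∫ x, ‖gradient (ψ n) x - G x‖ ^ 2 ∂μ
            + 2 * ∫ x, ‖gradient (ψ' n) x - G' x‖ ^ 2 ∂μ) := by
      intro n
      have j1 : Integrable (fun x => 2 * (ψ n x - w x) ^ 2 + 2 * (ψ' n x - w' x) ^ 2) μ :=
        ((S.idw n).const_mul 2).add ((S'.idw n).const_mul 2)
      have j2 : Integrable (fun x => 2 * ‖gradient (ψ n) x - G x‖ ^ 2
          + 2 * ‖gradient (ψ' n) x - G' x‖ ^ 2) μ :=
        ((S.idG n).const_mul 2).add ((S'.idG n).const_mul 2)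
      rw [integral_add j1 j2, integral_add ((S.idw n).const_mul 2) ((S'.idw n).const_mul 2),
        integral_add ((S.idG n).const_mul 2) ((S'.idG n).const_mul 2)]
      simp only [integral_const_mul]
    simp only [e]
    simpa using ((S.cw.const_mul 2).add (S'.cw.const_mul 2)).add
      ((S.cG.const_mul 2).add (S'.cG.const_mul 2))
  · have : 0 ≤ 2 * ‖gradient (ψ n) x - G x‖ ^ 2 + 2 * ‖gradient (ψ' n) x - G' x‖ ^ 2 := by
      positivity
    nlinarith [sq_nonneg ((ψ n x - w x) + (ψ' n x - w' x))]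
  · rw [grad_sub (S.test _).c1 (S'.test _).c1]
    have h := norm_add_sq_le (gradient (ψ n) x - G x) (-(gradient (ψ' n) x - G' x))
    rw [norm_neg] at h
    have e : gradient (ψ n) x - gradient (ψ' n) x - (G x - G' x)
        = gradient (ψ n) x - G x + -(gradient (ψ' n) x - G' x) := by abel
    rw [e]
    have : 0 ≤ 2 * (ψ n x - w x) ^ 2 + 2 * (ψ' n x - w' x) ^ 2 := by positivity
    linarith

theorem H10.cH (S : H10 μ Ω w G ψ) (h0 : (0:E) ∉ Ω) (hn : 3 ≤ finrank ℝ E) :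
    (∀ n, Integrable (fun x => ‖x‖ ^ (-2 : ℝ) * (ψ n x - w x) ^ 2) μ) ∧
    Tendsto (fun n => ∫ x, ‖x‖ ^ (-2 : ℝ) * (ψ n x - w x) ^ 2 ∂μ) atTop (𝓝 0) := by
  have key := fun n => ((H10.const (μ := μ) (S.test n)).sub S).hardy0 h0 hn
  refine ⟨fun n => (key n).1, squeeze_zero (fun n => integral_nonneg (fun x => by positivity))
    (fun n => (key n).2) ?_⟩
  simpa using S.cG.const_mul 4

theorem H10.cS (S : H10 μ Ω w G ψ) {m : ℝ} (hn : 3 ≤ finrank ℝ E)
    (hm : m = 2 * finrank ℝ E / (finrank ℝ E - 2)) :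
    Integrable (fun x => |w x| ^ m) μ ∧
    (∀ n, Integrable (fun x => |ψ n x - w x| ^ m) μ) ∧
    Tendsto (fun n => ∫ x, |ψ n x - w x| ^ m ∂μ) atTop (𝓝 0) := by
  have hn' : (3:ℝ) ≤ finrank ℝ E := by exact_mod_cast hn
  have hm0 : 0 < m := by rw [hm]; apply div_pos <;> linarith
  obtain ⟨C, hC0, hC⟩ := sob_H10 μ hn hm
  have key := fun n => hC _ _ _ _ ((H10.const (μ := μ) (S.test n)).sub S)
  refine ⟨(hC _ _ _ _ S).1, fun n => (key n).1,
    squeeze_zero (fun n => integral_nonneg (fun x => by positivity)) (fun n => (key n).2) ?_⟩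
  have := (S.cG.rpow_const (p := m / 2) (Or.inr (by positivity))).const_mul C
  rwa [Real.zero_rpow (by positivity), mul_zero] at this

theorem H10.mul (S : H10 μ Ω w G ψ) (h0 : (0:E) ∉ Ω) (hn : 3 ≤ finrank ℝ E) {m : E → ℝ}
    (hm : ∀ x, x ≠ 0 → ContDiffAt ℝ ((⊤ : ℕ∞) : WithTop ℕ∞) m x) {C : ℝ} (hC0 : 0 ≤ C)
    (hb : ∀ x ∈ Ω, m x ^ 2 ≤ C ∧ ‖gradient m x‖ ^ 2 ≤ C * (1 + ‖x‖ ^ (-2 : ℝ)))
    {Ω' : Set E} (hsub : Ω ∩ tsupport m ⊆ Ω') :
    H10 μ Ω' (fun x => m x * w x) (fun x => m x • G x + w x • gradient m x)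
      (fun n x => m x * ψ n x) := by
  have hev : ∀ n, (fun x => m x * ψ n x) =ᶠ[𝓝 0] fun _ => 0 := by
    intro n
    have h1 : ψ n =ᶠ[𝓝 0] fun _ => 0 :=
      notMem_tsupport_iff_eventuallyEq.1 (fun h => h0 ((S.test n).2.2 h))
    filter_upwards [h1] with y hy
    simp [hy]
  have hgr : ∀ n x, gradient (fun x => m x * ψ n x) x
      = m x • gradient (ψ n) x + ψ n x • gradient m x := by
    intro n x
    rcases eq_or_ne x 0 with rfl | hx
    · rw [(hev n).gradient_eq, gradient_fun_const, ((S.test n).zero h0).1, ((S.test n).zero h0).2]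
      simp
    · exact grad_mul ((hm x hx).differentiableAt (by simp))
        ((S.test n).c1.differentiable one_ne_zero x)
  obtain ⟨iH, cH⟩ := S.cH h0 hn
  refine H10.of_bound (fun n => ⟨?_, (S.test n).2.1.mul_left, ?_⟩) ?_ ?_
    (b := fun n x => (2 * C) * ‖gradient (ψ n) x - G x‖ ^ 2 + (2 * C) * (ψ n x - w x) ^ 2
      + (2 * C) * (‖x‖ ^ (-2 : ℝ) * (ψ n x - w x) ^ 2))
    (fun n => (((S.idG n).const_mul _).add ((S.idw n).const_mul _)).add ((iH n).const_mul _)) ?_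
    (fun n => ?_)
  · rw [contDiff_iff_contDiffAt]
    intro x
    rcases eq_or_ne x 0 with rfl | hx
    · exact contDiffAt_const.congr_of_eventuallyEq (hev n)
    · exact (hm x hx).mul (S.test n).1.contDiffAt
  · refine Subset.trans (subset_inter ?_ ?_) hsub
    · exact (tsupport_mul_subset_right).trans (S.test n).2.2
    · exact tsupport_mul_subset_left
  · filter_upwards [S.aew] with x h1 using h1.const_mul _
  · filter_upwards [S.aew, S.aeG] with x h1 h2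
    simp only [hgr]
    exact (h2.const_smul _).add (h1.smul_const _)
  · have e : ∀ n, ∫ x, ((2 * C) * ‖gradient (ψ n) x - G x‖ ^ 2 + (2 * C) * (ψ n x - w x) ^ 2
        + (2 * C) * (‖x‖ ^ (-2 : ℝ) * (ψ n x - w x) ^ 2)) ∂μ
        = (2 * C) * ∫ x, ‖gradient (ψ n) x - G x‖ ^ 2 ∂μ + (2 * C) * ∫ x, (ψ n x - w x) ^ 2 ∂μ
          + (2 * C) * ∫ x, ‖x‖ ^ (-2 : ℝ) * (ψ n x - w x) ^ 2 ∂μ := by
      intro n
      have j1 : Integrable (fun x => (2 * C) * ‖gradient (ψ n) x - G x‖ ^ 2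
          + (2 * C) * (ψ n x - w x) ^ 2) μ := ((S.idG n).const_mul _).add ((S.idw n).const_mul _)
      rw [integral_add j1 ((iH n).const_mul _),
        integral_add ((S.idG n).const_mul _) ((S.idw n).const_mul _)]
      simp only [integral_const_mul]
    simp only [e]
    simpa using ((S.cG.const_mul (2 * C)).add (S.cw.const_mul (2 * C))).add (cH.const_mul (2 * C))
  · filter_upwards [S.zero_out] with x hx
    have p1 : 0 ≤ (2 * C) * ‖gradient (ψ n) x - G x‖ ^ 2 := by positivity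
    have p2 : 0 ≤ C * (ψ n x - w x) ^ 2 := by positivity
    have p3 : 0 ≤ (2 * C) * (‖x‖ ^ (-2 : ℝ) * (ψ n x - w x) ^ 2) := by positivity
    by_cases hxΩ : x ∈ Ω
    · obtain ⟨b1, b2⟩ := hb x hxΩ
      constructor
      · have : (m x * ψ n x - m x * w x) ^ 2 = m x ^ 2 * (ψ n x - w x) ^ 2 := by ring
        rw [this]
        have : m x ^ 2 * (ψ n x - w x) ^ 2 ≤ C * (ψ n x - w x) ^ 2 := by gcongr
        linarith
      · rw [hgr]
        have e : m x • gradient (ψ n) x + ψ n x • gradient m x - (m x • G x + w x • gradient m x)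
            = m x • (gradient (ψ n) x - G x) + (ψ n x - w x) • gradient m x := by module
        rw [e]
        refine (norm_add_sq_le _ _).trans ?_
        rw [norm_smul, norm_smul, mul_pow, mul_pow, Real.norm_eq_abs, Real.norm_eq_abs, sq_abs,
          sq_abs]
        have q1 : m x ^ 2 * ‖gradient (ψ n) x - G x‖ ^ 2 ≤ C * ‖gradient (ψ n) x - G x‖ ^ 2 := by
          gcongr
        have q2 : (ψ n x - w x) ^ 2 * ‖gradient m x‖ ^ 2
            ≤ (ψ n x - w x) ^ 2 * (C * (1 + ‖x‖ ^ (-2 : ℝ))) := by gcongr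
        nlinarith
    · rw [hgr, ((S.test n).zero hxΩ).1, ((S.test n).zero hxΩ).2, (hx hxΩ).1, (hx hxΩ).2]
      simp

section comp
variable {Φ : E ≃ₜ E} {k : ℝ}

theorem int_comp (hmap : Measure.map Φ μ = ENNReal.ofReal k • μ) {F : E → ℝ}
    (hF : Integrable F μ) : Integrable (fun x => F (Φ x)) μ := by
  have h1 : Integrable F (Measure.map Φ μ) := by
    rw [hmap]; exact hF.smul_measure ENNReal.ofReal_ne_top
  exact (Φ.measurableEmbedding.integrable_map_iff).1 h1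

theorem integral_comp (hmap : Measure.map Φ μ = ENNReal.ofReal k • μ) (hk : 0 ≤ k) (F : E → ℝ) :
    ∫ x, F (Φ x) ∂μ = k * ∫ x, F x ∂μ := by
  rw [← Φ.measurableEmbedding.integral_map, hmap, integral_smul_measure,
    ENNReal.toReal_ofReal hk, smul_eq_mul]

theorem ae_comp (hmap : Measure.map Φ μ = ENNReal.ofReal k • μ) {P : E → Prop}
    (hP : ∀ᵐ x ∂μ, P x) : ∀ᵐ x ∂μ, P (Φ x) := by
  have h1 : ∀ᵐ x ∂(Measure.map Φ μ), P x := by
    rw [hmap]; exact Measure.ae_smul_measure hP _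
  exact (Φ.measurableEmbedding.ae_map_iff).1 h1

theorem H10.comp (S : H10 μ Ω w G ψ) (hmap : Measure.map Φ μ = ENNReal.ofReal k • μ)
    (hk : 0 ≤ k) (hΦ : ContDiff ℝ ((⊤ : ℕ∞) : WithTop ℕ∞) Φ) {C : ℝ}
    (hD : ∀ x, Φ x ∈ Ω → ‖fderiv ℝ Φ x‖ ≤ C) :
    H10 μ (Φ ⁻¹' Ω) (fun x => w (Φ x))
      (fun x => ContinuousLinearMap.adjoint (fderiv ℝ Φ x) (G (Φ x))) (fun n x => ψ n (Φ x)) := by
  have hgr : ∀ n x, gradient (fun x => ψ n (Φ x)) x
      = ContinuousLinearMap.adjoint (fderiv ℝ Φ x) (gradient (ψ n) (Φ x)) := fun n x =>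
    grad_comp ((S.test n).c1.differentiable one_ne_zero _) (hΦ.differentiable (by simp) x)
  refine H10.of_bound (fun n => ⟨(S.test n).1.comp hΦ, (S.test n).2.1.comp_homeomorph Φ, ?_⟩)
    (ae_comp hmap S.aew) ?_
    (b := fun n x => (ψ n (Φ x) - w (Φ x)) ^ 2 + C ^ 2 * ‖gradient (ψ n) (Φ x) - G (Φ x)‖ ^ 2)
    (fun n => (int_comp hmap (S.idw n)).add ((int_comp hmap (S.idG n)).const_mul _)) ?_
    (fun n => ?_)
  · have h1 : tsupport (fun x => ψ n (Φ x)) ⊆ Φ ⁻¹' tsupport (ψ n) := by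
      apply closure_minimal
      · intro z hz
        exact subset_tsupport _ hz
      · exact (isClosed_tsupport _).preimage Φ.continuous
    exact h1.trans (preimage_mono (S.test n).2.2)
  · filter_upwards [ae_comp hmap S.aeG] with x hx
    simp only [hgr]
    exact ((ContinuousLinearMap.adjoint (fderiv ℝ Φ x)).continuous.tendsto _).comp hx
  · have e : ∀ n, ∫ x, ((ψ n (Φ x) - w (Φ x)) ^ 2
        + C ^ 2 * ‖gradient (ψ n) (Φ x) - G (Φ x)‖ ^ 2) ∂μ
        = k * ∫ x, (ψ n x - w x) ^ 2 ∂μ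
          + C ^ 2 * (k * ∫ x, ‖gradient (ψ n) x - G x‖ ^ 2 ∂μ) := by
      intro n
      rw [integral_add (int_comp hmap (S.idw n)) ((int_comp hmap (S.idG n)).const_mul _),
        integral_const_mul, integral_comp hmap hk (fun x => (ψ n x - w x) ^ 2),
        integral_comp hmap hk (fun x => ‖gradient (ψ n) x - G x‖ ^ 2)]
    simp only [e]
    simpa using (S.cw.const_mul k).add ((S.cG.const_mul k).const_mul (C ^ 2))
  · filter_upwards [ae_comp hmap S.zero_out] with x hx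
    have p1 : 0 ≤ C ^ 2 * ‖gradient (ψ n) (Φ x) - G (Φ x)‖ ^ 2 := by positivity
    refine ⟨by linarith, ?_⟩
    rw [hgr, ← map_sub]
    by_cases hxΩ : Φ x ∈ Ω
    · have h1 := norm_adjoint_apply_le (fderiv ℝ Φ x) (gradient (ψ n) (Φ x) - G (Φ x))
      have h2 := hD x hxΩ
      have h3 : ‖fderiv ℝ Φ x‖ * ‖gradient (ψ n) (Φ x) - G (Φ x)‖
          ≤ C * ‖gradient (ψ n) (Φ x) - G (Φ x)‖ := by gcongr
      have h4 := pow_le_pow_left₀ (norm_nonneg _) (h1.trans h3) 2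
      rw [mul_pow] at h4
      nlinarith [sq_nonneg (ψ n (Φ x) - w (Φ x))]
    · rw [((S.test n).zero hxΩ).2, (hx hxΩ).2]
      simp only [sub_self, map_zero, norm_zero, ne_eq, OfNat.ofNat_ne_zero, not_false_eq_true,
        zero_pow, mul_zero, add_zero]
      positivity

end comp

end Pool.Agent.Lib.MP_a271d0_an.G
end

-- part Pool.Agent.Lib.MP_a271d0_an.GSol
section

set_option autoImplicit false
set_option linter.unusedSectionVars false
open MeasureTheory Filter Topology Set Module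
open scoped ENNReal

namespace Pool.Agent.Lib.MP_a271d0_an.G

/-- the exponents -/
structure Par (n s p q m α γ : ℝ) : Prop where
  hn : 3 ≤ n
  hs0 : 0 < s
  hs2 : s < 2
  hm : m = 2 * n / (n - 2)
  hq : q = 2 * (n - s) / (n - 2)
  hα : α = (n - 2) / 2
  hγ : γ = n - (p + 1) * α
  hqp : q - 1 < p
  hpm : p + 1 < m
  hp : n / (n - 2) ≤ p
  hp' : γ < n - 2

namespace Par
variable {n s p q m α γ : ℝ} (P : Par n s p q m α γ)
include P

theorem α_pos : 0 < α := by rw [P.hα]; linarith [P.hn]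
theorem αm : α * m = n := by
  have : n - 2 ≠ 0 := by linarith [P.hn]
  rw [P.hα, P.hm]; field_simp
theorem αq : α * q = n - s := by
  have : n - 2 ≠ 0 := by linarith [P.hn]
  rw [P.hα, P.hq]; field_simp
theorem α2 : 2 * α = n - 2 := by rw [P.hα]; ring
theorem q_gt : 2 < q := by
  have h1 := P.αq; have h2 := P.α2; have h3 := P.α_pos; have h4 := P.hs2
  by_contra h
  push Not at h
  nlinarith
theorem q_lt : q < m := by linarith [P.hqp, P.hpm]
theorem m_gt : 2 < m := by linarith [P.q_gt, P.q_lt]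
theorem p_gt : 1 < p := by linarith [P.q_gt, P.hqp]
theorem γ_pos : 0 < γ := by
  have h1 := P.αm; have h3 := P.α_pos; have h4 := P.hpm
  rw [P.hγ]; nlinarith
theorem γ_lt_s : γ < s := by
  have h1 := P.αq; have h3 := P.α_pos; have h4 := P.hqp
  rw [P.hγ]; nlinarith
theorem γ_le_one : γ ≤ 1 := by
  have h0 : 0 < n - 2 := by linarith [P.hn]
  have h1 := P.hp
  rw [div_le_iff₀ h0] at h1
  rw [P.hγ, P.hα]; nlinarith
theorem e1 : (q - 2) * (2 / (2 - s)) = m - 2 := by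
  have h1 := P.αq; have h2 := P.α2; have h3 := P.α_pos; have h4 := P.hs2; have h5 := P.αm
  have h6 : 2 - s ≠ 0 := by linarith
  apply mul_left_cancel₀ h3.ne'
  have : α * (q - 2) = 2 - s := by linarith
  rw [← mul_assoc, this]; field_simp; linarith
theorem e2 : (q - 2) * ((2 - γ) / (2 - γ - (s - γ))) = p - 1 := by
  have h1 := P.αq; have h2 := P.α2; have h3 := P.α_pos; have h4 := P.hs2; have h5 := P.hγ
  have h6 : 2 - s ≠ 0 := by linarith
  have h7 : 2 - γ - (s - γ) = 2 - s := by ring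
  apply mul_left_cancel₀ h3.ne'
  have : α * (q - 2) = 2 - s := by linarith
  rw [← mul_assoc, this, h7]; field_simp; linarith

theorem pw1 {z : ℝ} (hz : 0 ≤ z) : z ^ (p + 1) ≤ z ^ 2 + z ^ m :=
  rpow_interp hz (by linarith [P.p_gt]) P.hpm.le

theorem pw2' {z r κ : ℝ} (hz : 0 ≤ z) (hr : 0 ≤ r) (hκ : 0 < κ) :
    z ^ (q - 2) * r ^ (-s) ≤ κ * r ^ (-2 : ℝ) + κ ^ (-(s / (2 - s))) * z ^ (m - 2) := by
  have h := young_w (a := z ^ (q - 2)) (y := r⁻¹) (s := s) (t := 2) (κ := κ) (by positivity)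
    (by positivity) P.hs0.le P.hs2 hκ
  rwa [← Real.rpow_mul hz, P.e1, Real.inv_rpow hr, Real.inv_rpow hr, ← Real.rpow_neg hr,
    ← Real.rpow_neg hr] at h

theorem pw2 {z r : ℝ} (hz : 0 ≤ z) (hr : 0 ≤ r) :
    z ^ q * r ^ (-s) ≤ r ^ (-2 : ℝ) * z ^ 2 + z ^ m := by
  have h := P.pw2' hz hr one_pos
  rw [Real.one_rpow, one_mul, one_mul] at h
  have a1 : z ^ q = z ^ 2 * z ^ (q - 2) := by
    rw [← Real.rpow_two, ← Real.rpow_add' hz (by linarith [P.q_gt])]; congr 1; ring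
  have a2 : z ^ m = z ^ 2 * z ^ (m - 2) := by
    rw [← Real.rpow_two, ← Real.rpow_add' hz (by linarith [P.m_gt])]; congr 1; ring
  rw [a1, a2]
  have := mul_le_mul_of_nonneg_left h (sq_nonneg z)
  linarith

theorem pw3 {z r κ : ℝ} (hz : 0 ≤ z) (hr : 0 < r) (hκ : 0 < κ) :
    r ^ γ * (z ^ q * r ^ (-s))
      ≤ κ * (r ^ (γ - 2) * z ^ 2) + κ ^ (-((s - γ) / (2 - γ - (s - γ)))) * z ^ (p + 1) := by
  have h := young_w (a := z ^ (q - 2)) (y := r⁻¹) (s := s - γ) (t := 2 - γ) (κ := κ)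
    (by positivity) (by positivity) (by linarith [P.γ_lt_s]) (by linarith [P.hs2]) hκ
  rw [← Real.rpow_mul hz, P.e2, Real.inv_rpow hr.le, Real.inv_rpow hr.le, ← Real.rpow_neg hr.le,
    ← Real.rpow_neg hr.le] at h
  have a1 : z ^ q = z ^ 2 * z ^ (q - 2) := by
    rw [← Real.rpow_two, ← Real.rpow_add' hz (by linarith [P.q_gt])]; congr 1; ring
  have a2 : z ^ (p + 1) = z ^ 2 * z ^ (p - 1) := by
    rw [← Real.rpow_two, ← Real.rpow_add' hz (by linarith [P.p_gt])]; congr 1; ring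
  have a3 : r ^ (-(s - γ)) = r ^ γ * r ^ (-s) := by
    rw [← Real.rpow_add hr]; congr 1; ring
  have a4 : -(2 - γ) = γ - 2 := by ring
  rw [a3, a4] at h
  rw [a1, a2]
  have := mul_le_mul_of_nonneg_left h (sq_nonneg z)
  linarith

end Par

variable {E : Type*} [NormedAddCommGroup E] [InnerProductSpace ℝ E] [CompleteSpace E]
  [FiniteDimensional ℝ E] [MeasurableSpace E] [BorelSpace E]

/-- positive weak solution -/
structure Sol (μ : Measure E) (Ω : Set E) (u : E → ℝ) (G : E → E) (φ : ℕ → E → ℝ)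
    (s p q : ℝ) : Prop where
  h : H10 μ Ω u G φ
  pos : ∀ᵐ x ∂μ, x ∈ Ω → 0 < u x
  eq : ∀ ψ, IsTest Ω ψ →
    ∫ x, (inner ℝ (G x) (gradient ψ x) + u x ^ p * ψ x
      - u x ^ (q - 1) * ψ x * ‖x‖ ^ (-s)) ∂μ = 0

variable {μ : Measure E} [μ.IsAddHaarMeasure]
variable {Ω : Set E} {u : E → ℝ} {G : E → E} {φ : ℕ → E → ℝ} {s p q m α γ : ℝ}

theorem Par.fr (P : Par (finrank ℝ E) s p q m α γ) : 3 ≤ finrank ℝ E := by
  exact_mod_cast P.hn

theorem Sol.nonneg (S : Sol μ Ω u G φ s p q) : ∀ᵐ x ∂μ, 0 ≤ u x := by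
  filter_upwards [S.pos, S.h.zero_out] with x h1 h2
  by_cases hx : x ∈ Ω
  · exact (h1 hx).le
  · exact (h2 hx).1.ge

/-- the dominating expression -/
noncomputable def NN (m z : ℝ) (x : E) : ℝ := z ^ 2 + |z| ^ m + ‖x‖ ^ (-2 : ℝ) * z ^ 2

theorem NN_nonneg (m z : ℝ) (x : E) : 0 ≤ NN m z x := by unfold NN; positivity

theorem Par.NN1 (P : Par (finrank ℝ E) s p q m α γ) (z : ℝ) (x : E) :
    |z| ^ (p + 1) ≤ NN m z x := by
  have h := P.pw1 (abs_nonneg z)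
  rw [sq_abs] at h
  have : 0 ≤ ‖x‖ ^ (-2 : ℝ) * z ^ 2 := by positivity
  unfold NN; linarith

theorem Par.NN2 (P : Par (finrank ℝ E) s p q m α γ) (z : ℝ) (x : E) :
    |z| ^ q * ‖x‖ ^ (-s) ≤ NN m z x := by
  have h := P.pw2 (abs_nonneg z) (norm_nonneg x)
  rw [sq_abs] at h
  have : 0 ≤ z ^ 2 := by positivity
  unfold NN; linarith

theorem H10.intNN {w : E → ℝ} {Gw : E → E} {ψ : ℕ → E → ℝ} (S : H10 μ Ω w Gw ψ)
    (P : Par (finrank ℝ E) s p q m α γ) (h0 : (0:E) ∉ Ω) :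
    Integrable (fun x => NN m (w x) x) μ ∧
    (∀ n, Integrable (fun x => NN m (ψ n x - w x) x) μ) ∧
    Tendsto (fun n => ∫ x, NN m (ψ n x - w x) x ∂μ) atTop (𝓝 0) := by
  obtain ⟨a1, a2, a3⟩ := S.cS P.fr P.hm
  obtain ⟨b2, b3⟩ := S.cH h0 P.fr
  refine ⟨(S.iw.add a1).add (S.hardy0 h0 P.fr).1,
    fun n => ((S.idw n).add (a2 n)).add (b2 n), ?_⟩
  have e : ∀ n, ∫ x, NN m (ψ n x - w x) x ∂μ = ∫ x, (ψ n x - w x) ^ 2 ∂μ
      + ∫ x, |ψ n x - w x| ^ m ∂μ + ∫ x, ‖x‖ ^ (-2 : ℝ) * (ψ n x - w x) ^ 2 ∂μ := by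
    intro n
    have j : Integrable (fun x => (ψ n x - w x) ^ 2 + |ψ n x - w x| ^ m) μ := (S.idw n).add (a2 n)
    unfold NN
    rw [integral_add j (b2 n), integral_add (S.idw n) (a2 n)]
  simp only [e]
  simpa using (S.cw.add a3).add b3

theorem Sol.eq_limit (S : Sol μ Ω u G φ s p q) (P : Par (finrank ℝ E) s p q m α γ)
    (h0 : (0:E) ∉ Ω) {w : E → ℝ} {Gw : E → E} {ψ : ℕ → E → ℝ} (T : H10 μ Ω w Gw ψ) :
    Integrable (fun x => inner ℝ (G x) (Gw x) + u x ^ p * w x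
      - u x ^ (q - 1) * w x * ‖x‖ ^ (-s)) μ ∧
    ∫ x, (inner ℝ (G x) (Gw x) + u x ^ p * w x - u x ^ (q - 1) * w x * ‖x‖ ^ (-s)) ∂μ = 0 := by
  obtain ⟨u1, -, -⟩ := S.h.intNN P h0
  obtain ⟨w1, w2, w3⟩ := T.intNN P h0
  have hum : AEMeasurable u μ := S.h.mw.aemeasurable
  have hGm := S.h.mG
  have meas : ∀ (f : E → ℝ) (g : E → E), AEStronglyMeasurable f μ → AEStronglyMeasurable g μ →
      AEStronglyMeasurable (fun x => inner ℝ (G x) (g x) + u x ^ p * f x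
        - u x ^ (q - 1) * f x * ‖x‖ ^ (-s)) μ := by
    intro f g hf hg
    have hf' := hf.aemeasurable
    refine ((hGm.inner hg).add ?_).sub ?_
    · apply AEMeasurable.aestronglyMeasurable; fun_prop
    · apply AEMeasurable.aestronglyMeasurable; fun_prop
  have bnd : ∀ (x : E) (t : ℝ) (y : E), 0 ≤ u x →
      |inner ℝ (G x) y + u x ^ p * t - u x ^ (q - 1) * t * ‖x‖ ^ (-s)|
        ≤ (‖G x‖ ^ 2 + ‖Gw x‖ ^ 2 + 4 * NN m (u x) x + 2 * NN m (w x) x)
          + (‖y - Gw x‖ ^ 2 + 2 * NN m (t - w x) x) := by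
    intro x t y hu
    have h3 : |inner ℝ (G x) y| ≤ ‖G x‖ ^ 2 + ‖Gw x‖ ^ 2 + ‖y - Gw x‖ ^ 2 := by
      have h4 := abs_real_inner_le_norm (G x) y
      have h5 : ‖y‖ ≤ ‖Gw x‖ + ‖y - Gw x‖ := by
        simpa using norm_add_le (Gw x) (y - Gw x)
      have h6 : ‖G x‖ * ‖y‖ ≤ ‖G x‖ * (‖Gw x‖ + ‖y - Gw x‖) := by gcongr
      nlinarith [sq_nonneg (‖G x‖ - ‖y - Gw x‖), sq_nonneg (‖G x‖ - ‖Gw x‖),
        sq_nonneg ‖Gw x‖, sq_nonneg ‖y - Gw x‖]
    have ht : |t| ≤ |w x| + |t - w x| := by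
      simpa using abs_add_le (w x) (t - w x)
    have n1 := P.NN1 (u x) x
    have n2 := P.NN1 (w x) x
    have n3 := P.NN1 (t - w x) x
    have n4 := P.NN2 (u x) x
    have n5 := P.NN2 (w x) x
    have n6 := P.NN2 (t - w x) x
    rw [abs_of_nonneg hu] at n1 n4
    have h4 : |u x ^ p * t| ≤ 2 * NN m (u x) x + NN m (w x) x + NN m (t - w x) x := by
      rw [abs_mul, abs_of_nonneg (Real.rpow_nonneg hu _)]
      have y1 := young_crude hu (abs_nonneg (w x)) (r := p) (by linarith [P.p_gt])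
      have y2 := young_crude hu (abs_nonneg (t - w x)) (r := p) (by linarith [P.p_gt])
      have : u x ^ p * |t| ≤ u x ^ p * (|w x| + |t - w x|) := by gcongr
      nlinarith
    have h5 : |u x ^ (q - 1) * t * ‖x‖ ^ (-s)|
        ≤ 2 * NN m (u x) x + NN m (w x) x + NN m (t - w x) x := by
      rw [abs_mul, abs_mul, abs_of_nonneg (Real.rpow_nonneg hu _),
        abs_of_nonneg (Real.rpow_nonneg (norm_nonneg x) _)]
      have y1 := young_crude hu (abs_nonneg (w x)) (r := q - 1) (by linarith [P.q_gt])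
      have y2 := young_crude hu (abs_nonneg (t - w x)) (r := q - 1) (by linarith [P.q_gt])
      rw [sub_add_cancel] at y1 y2
      have y3 : u x ^ (q - 1) * |t| ≤ u x ^ (q - 1) * (|w x| + |t - w x|) := by gcongr
      have y4 : u x ^ (q - 1) * |t| ≤ 2 * u x ^ q + |w x| ^ q + |t - w x| ^ q := by nlinarith
      have y5 := mul_le_mul_of_nonneg_right y4 (Real.rpow_nonneg (norm_nonneg x) (-s))
      nlinarith
    have t1 := abs_sub (inner ℝ (G x) y + u x ^ p * t) (u x ^ (q - 1) * t * ‖x‖ ^ (-s))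
    have t2 := abs_add_le (inner ℝ (G x) y) (u x ^ p * t)
    linarith
  have ha : Integrable (fun x => ‖G x‖ ^ 2 + ‖Gw x‖ ^ 2 + 4 * NN m (u x) x
      + 2 * NN m (w x) x) μ := ((S.h.iG.add T.iG).add (u1.const_mul 4)).add (w1.const_mul 2)
  have hlim0 : ∀ᵐ x ∂μ, |inner ℝ (G x) (Gw x) + u x ^ p * w x - u x ^ (q - 1) * w x * ‖x‖ ^ (-s)|
      ≤ ‖G x‖ ^ 2 + ‖Gw x‖ ^ 2 + 4 * NN m (u x) x + 2 * NN m (w x) x := by
    filter_upwards [S.nonneg] with x hx
    have := bnd x (w x) (Gw x) hx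
    have e : NN m 0 x = 0 := by
      unfold NN; simp [show m ≠ 0 by linarith [P.m_gt]]
    rw [sub_self, sub_self, e, norm_zero] at this
    simpa using this
  refine ⟨ha.mono' (meas w Gw T.mw T.mG) hlim0, ?_⟩
  have hconv := gdct (μ := μ)
    (f := fun n x => inner ℝ (G x) (gradient (ψ n) x) + u x ^ p * ψ n x
      - u x ^ (q - 1) * ψ n x * ‖x‖ ^ (-s))
    (g := fun x => inner ℝ (G x) (Gw x) + u x ^ p * w x - u x ^ (q - 1) * w x * ‖x‖ ^ (-s))
    (b := fun n x => ‖gradient (ψ n) x - Gw x‖ ^ 2 + 2 * NN m (ψ n x - w x) x)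
    (fun n => meas _ _ (T.test n).c1.continuous.aestronglyMeasurable
      (cont_grad (T.test n).c1).aestronglyMeasurable) ha
    (fun n => (T.idG n).add ((w2 n).const_mul 2))
    (fun n => ae_of_all _ (fun x => by have := NN_nonneg m (ψ n x - w x) x; positivity))
    (fun n => S.nonneg.mono (fun x hx => bnd x _ _ hx)) hlim0
    (by
      filter_upwards [T.aew, T.aeG] with x h1 h2
      exact ((tendsto_const_nhds.inner h2).add (h1.const_mul _)).sub
        ((h1.const_mul _).mul_const _))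
    (by
      have e : ∀ n, ∫ x, (‖gradient (ψ n) x - Gw x‖ ^ 2 + 2 * NN m (ψ n x - w x) x) ∂μ
          = ∫ x, ‖gradient (ψ n) x - Gw x‖ ^ 2 ∂μ + 2 * ∫ x, NN m (ψ n x - w x) x ∂μ := by
        intro n
        rw [integral_add (T.idG n) ((w2 n).const_mul 2), integral_const_mul]
      simp only [e]
      simpa using T.cG.add (w3.const_mul 2))
  have hF0 : ∀ n, ∫ x, (inner ℝ (G x) (gradient (ψ n) x) + u x ^ p * ψ n x
      - u x ^ (q - 1) * ψ n x * ‖x‖ ^ (-s)) ∂μ = 0 := fun n => S.eq _ (T.test n)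
  simp only [hF0] at hconv
  exact tendsto_nhds_unique hconv tendsto_const_nhds

theorem Sol.intB (S : Sol μ Ω u G φ s p q) (P : Par (finrank ℝ E) s p q m α γ)
    (h0 : (0:E) ∉ Ω) : Integrable (fun x => u x ^ (p + 1)) μ := by
  have hum : AEMeasurable u μ := S.h.mw.aemeasurable
  refine (S.h.intNN P h0).1.mono' ?_ ?_
  · apply AEMeasurable.aestronglyMeasurable; fun_prop
  · filter_upwards [S.nonneg] with x hx
    have := P.NN1 (u x) x
    rw [abs_of_nonneg hx] at this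
    rwa [Real.norm_eq_abs, abs_of_nonneg (Real.rpow_nonneg hx _)]

theorem Sol.intK (S : Sol μ Ω u G φ s p q) (P : Par (finrank ℝ E) s p q m α γ)
    (h0 : (0:E) ∉ Ω) : Integrable (fun x => u x ^ q * ‖x‖ ^ (-s)) μ := by
  have hum : AEMeasurable u μ := S.h.mw.aemeasurable
  refine (S.h.intNN P h0).1.mono' ?_ ?_
  · apply AEMeasurable.aestronglyMeasurable; fun_prop
  · filter_upwards [S.nonneg] with x hx
    have := P.NN2 (u x) x
    rw [abs_of_nonneg hx] at this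
    rwa [Real.norm_eq_abs, abs_of_nonneg (by positivity)]

theorem norm_grad_rpow {a : ℝ} (ha : 0 ≤ a) {x : E} (hx : x ≠ 0) :
    ‖gradient (fun x : E => ‖x‖ ^ a) x‖ ≤ a * ‖x‖ ^ (a - 1) := by
  have hxn : ‖x‖ ≠ 0 := norm_ne_zero_iff.2 hx
  have h1 : DifferentiableAt ℝ (fun x : E => ‖x‖) x :=
    (contDiffAt_norm ℝ (n := 1) hx).differentiableAt one_ne_zero
  have h2 := h1.hasFDerivAt.rpow_const (p := a) (Or.inl hxn)
  rw [norm_grad, h2.fderiv, norm_smul, Real.norm_eq_abs, abs_of_nonneg (by positivity)]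
  have h3 : ‖fderiv ℝ (fun x : E => ‖x‖) x‖ ≤ (1 : NNReal) :=
    norm_fderiv_le_of_lipschitz ℝ lipschitzWith_one_norm
  simp only [NNReal.coe_one] at h3
  exact mul_le_of_le_one_right (by positivity) h3

theorem int_w_mul {F : E → ℝ} (hF : Integrable F μ) (hz : ∀ᵐ x ∂μ, x ∉ Ω → F x = 0)
    {a ρ : ℝ} (ha : 0 ≤ a) (hρ : ∀ x ∈ Ω, ‖x‖ ≤ ρ) :
    Integrable (fun x => ‖x‖ ^ a * F x) μ := by
  refine (hF.norm.const_mul (|ρ| ^ a)).mono' ?_ ?_
  · exact (by fun_prop : Measurable (fun x : E => ‖x‖ ^ a)).aestronglyMeasurable.mul hF.1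
  · filter_upwards [hz] with x hx
    by_cases hxΩ : x ∈ Ω
    · rw [norm_mul, Real.norm_eq_abs, abs_of_nonneg (by positivity)]
      have : ‖x‖ ≤ |ρ| := (hρ x hxΩ).trans (le_abs_self ρ)
      gcongr
    · simp [hx hxΩ]

theorem weighted (μ : Measure E) [μ.IsAddHaarMeasure] (P : Par (finrank ℝ E) s p q m α γ) :
    ∃ C : ℝ, 0 ≤ C ∧ ∀ (Ω : Set E) (u : E → ℝ) (G : E → E) (φ : ℕ → E → ℝ) (ρ : ℝ),
      Sol μ Ω u G φ s p q → (0:E) ∉ Ω → (∀ x ∈ Ω, ‖x‖ ≤ ρ) →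
      (Integrable (fun x => ‖x‖ ^ γ * ‖G x‖ ^ 2) μ ∧
        ∫ x, ‖x‖ ^ γ * ‖G x‖ ^ 2 ∂μ ≤ C * ∫ x, u x ^ (p + 1) ∂μ) ∧
      (Integrable (fun x => ‖x‖ ^ γ * u x ^ (p + 1)) μ ∧
        ∫ x, ‖x‖ ^ γ * u x ^ (p + 1) ∂μ ≤ C * ∫ x, u x ^ (p + 1) ∂μ) ∧
      (Integrable (fun x => ‖x‖ ^ γ * (u x ^ q * ‖x‖ ^ (-s))) μ ∧
        ∫ x, ‖x‖ ^ γ * (u x ^ q * ‖x‖ ^ (-s)) ∂μ ≤ C * ∫ x, u x ^ (p + 1) ∂μ) ∧
      (Integrable (fun x => ‖x‖ ^ (γ - 2) * u x ^ 2) μ ∧
        ∫ x, ‖x‖ ^ (γ - 2) * u x ^ 2 ∂μ ≤ C * ∫ x, u x ^ (p + 1) ∂μ) := by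
  have hγ0 := P.γ_pos
  have hγ1 := P.γ_le_one
  have hn := P.hn
  set ν := ((finrank ℝ E : ℝ) + γ - 2) / 2 with hν
  have hνγ : γ < ν := by rw [hν]; linarith [P.hp']
  have hν0 : 0 < ν := by linarith
  set β := 1 - γ / ν with hβ
  have hβ0 : 0 < β := by
    rw [hβ, sub_pos, div_lt_one hν0]; exact hνγ
  set η := ν ^ 2 * β / 2 with hη
  have hη0 : 0 < η := by positivity
  set Cη := η ^ (-((s - γ) / (2 - γ - (s - γ)))) with hCη
  have hCη0 : 0 < Cη := by positivity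
  refine ⟨(2 / β) * Cη + 2 * Cη + (ν ^ 2)⁻¹ * ((2 / β) * Cη), by positivity,
    fun Ω u G φ ρ S h0 hρ => ?_⟩
  have hw : ∀ x ∈ Ω, ‖x‖ ^ γ ≤ |ρ| ^ γ := fun x hx =>
    Real.rpow_le_rpow (norm_nonneg _) ((hρ x hx).trans (le_abs_self ρ)) hγ0.le
  obtain ⟨iH, eH⟩ := S.h.hardy h0 (a := γ) (ν := ν) hγ0.le (by rw [hν]; ring) hν0 hw
  obtain ⟨iA, -⟩ := S.h.cAw (m := fun x => ‖x‖ ^ γ) (by fun_prop) (fun x => by positivity) hw
  have iB0 := S.intB P h0
  have iB : Integrable (fun x => ‖x‖ ^ γ * u x ^ (p + 1)) μ :=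
    int_w_mul iB0 (S.h.zero_out.mono (fun x hx hxΩ => by
      rw [(hx hxΩ).1, Real.zero_rpow (by linarith [P.p_gt])])) hγ0.le hρ
  have iK : Integrable (fun x => ‖x‖ ^ γ * (u x ^ q * ‖x‖ ^ (-s))) μ :=
    int_w_mul (S.intK P h0) (S.h.zero_out.mono (fun x hx hxΩ => by
      rw [(hx hxΩ).1, Real.zero_rpow (by linarith [P.q_gt]), zero_mul])) hγ0.le hρ
  have T := S.h.mul h0 P.fr (m := fun x => ‖x‖ ^ γ)
    (fun x hx => (contDiffAt_norm ℝ hx).rpow_const_of_ne (norm_ne_zero_iff.2 hx))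
    (C := (|ρ| ^ γ) ^ 2) (by positivity) (fun x hx => ⟨by
      have := hw x hx
      gcongr, by
      have hx0 : x ≠ 0 := fun h => h0 (h ▸ hx)
      have hxn : 0 < ‖x‖ := norm_pos_iff.2 hx0
      have h1 := norm_grad_rpow hγ0.le hx0
      have h2 : γ * ‖x‖ ^ (γ - 1) ≤ |ρ| ^ γ * ‖x‖ ^ (-1 : ℝ) := by
        rw [sub_eq_add_neg, Real.rpow_add hxn, ← mul_assoc]
        have h3 := hw x hx
        have h4 : γ * ‖x‖ ^ γ ≤ 1 * |ρ| ^ γ := by gcongr
        rw [one_mul] at h4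
        gcongr
      have h3 := pow_le_pow_left₀ (norm_nonneg _) (h1.trans h2) 2
      have h4 : (‖x‖ ^ (-1 : ℝ)) ^ 2 = ‖x‖ ^ (-2 : ℝ) := by
        rw [← Real.rpow_natCast, ← Real.rpow_mul hxn.le]; norm_num
      rw [mul_pow, h4] at h3
      have h5 : 0 ≤ (|ρ| ^ γ) ^ 2 := by positivity
      nlinarith⟩) (Ω' := Ω) inter_subset_left
  obtain ⟨i1, e1⟩ := S.eq_limit P h0 T
  set A := ∫ x, ‖x‖ ^ γ * ‖G x‖ ^ 2 ∂μ with hA
  set Ba := ∫ x, ‖x‖ ^ γ * u x ^ (p + 1) ∂μ with hBa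
  set Ka := ∫ x, ‖x‖ ^ γ * (u x ^ q * ‖x‖ ^ (-s)) ∂μ with hKa
  set H := ∫ x, ‖x‖ ^ (γ - 2) * u x ^ 2 ∂μ with hH
  set B := ∫ x, u x ^ (p + 1) ∂μ with hB
  have hA0 : 0 ≤ A := integral_nonneg (fun x => by positivity)
  have hH0 : 0 ≤ H := integral_nonneg (fun x => by positivity)
  have hB0 : 0 ≤ B := integral_nonneg_of_ae (S.nonneg.mono (fun x hx => by positivity))
  have hBa0 : 0 ≤ Ba := integral_nonneg_of_ae (S.nonneg.mono (fun x hx => by positivity))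
  have k1 : Ka ≤ η * H + Cη * B := by
    rw [← integral_const_mul, ← integral_const_mul,
      ← integral_add (iH.const_mul _) (iB0.const_mul _)]
    refine integral_mono_ae iK ((iH.const_mul _).add (iB0.const_mul _)) ?_
    filter_upwards [S.nonneg] with x hx
    rcases eq_or_ne x 0 with rfl | hx0
    · rw [norm_zero, Real.zero_rpow hγ0.ne', zero_mul]
      positivity
    · exact P.pw3 hx (norm_pos_iff.2 hx0) hη0
  have k2 : (1 - γ / (2 * ν)) * A - (γ * ν / 2) * H + Ba - Ka ≤ 0 := by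
    have j1 : Integrable (fun x => (1 - γ / (2 * ν)) * (‖x‖ ^ γ * ‖G x‖ ^ 2)
        - (γ * ν / 2) * (‖x‖ ^ (γ - 2) * u x ^ 2)) μ := (iA.const_mul _).sub (iH.const_mul _)
    have j2 : Integrable (fun x => (1 - γ / (2 * ν)) * (‖x‖ ^ γ * ‖G x‖ ^ 2)
        - (γ * ν / 2) * (‖x‖ ^ (γ - 2) * u x ^ 2) + ‖x‖ ^ γ * u x ^ (p + 1)) μ := j1.add iB
    have j3 := j2.sub iK
    have := integral_mono_ae j3 i1 (by
      filter_upwards [S.nonneg, S.h.zero_out] with x hx hz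
      rcases eq_or_ne x 0 with rfl | hx0
      · simp [(hz h0).1, (hz h0).2, hγ0.ne']
      have hxn : 0 < ‖x‖ := norm_pos_iff.2 hx0
      have h1 := norm_grad_rpow hγ0.le hx0
      simp only [Pi.sub_apply]
      rw [inner_add_right, inner_smul_right, inner_smul_right, real_inner_self_eq_norm_sq]
      have h2 : -(‖G x‖ * (γ * ‖x‖ ^ (γ - 1)))
          ≤ inner ℝ (G x) (gradient (fun x : E => ‖x‖ ^ γ) x) := by
        have h3 := abs_real_inner_le_norm (G x) (gradient (fun x : E => ‖x‖ ^ γ) x)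
        have h4 : ‖G x‖ * ‖gradient (fun x : E => ‖x‖ ^ γ) x‖ ≤ ‖G x‖ * (γ * ‖x‖ ^ (γ - 1)) := by
          gcongr
        linarith [neg_abs_le (inner ℝ (G x) (gradient (fun x : E => ‖x‖ ^ γ) x))]
      have h3 := mul_le_mul_of_nonneg_left h2 hx
      have a1 : u x ^ p * (‖x‖ ^ γ * u x) = ‖x‖ ^ γ * u x ^ (p + 1) := by
        rw [Real.rpow_add_one' hx (by linarith [P.p_gt])]; ring
      have a2 : u x ^ (q - 1) * (‖x‖ ^ γ * u x) * ‖x‖ ^ (-s)
          = ‖x‖ ^ γ * (u x ^ q * ‖x‖ ^ (-s)) := by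
        have : u x ^ q = u x ^ (q - 1) * u x := by
          rw [← Real.rpow_add_one' hx (by linarith [P.q_gt])]; congr 1; ring
        rw [this]; ring
      rw [a1, a2]
      have a3 : ‖x‖ ^ γ = ‖x‖ ^ (γ - 2) * ‖x‖ ^ 2 := by
        rw [← Real.rpow_two, ← Real.rpow_add hxn]; congr 1; ring
      have a4 : ‖x‖ ^ (γ - 1) = ‖x‖ ^ (γ - 2) * ‖x‖ := by
        rw [← Real.rpow_add_one hxn.ne']; congr 1; ring
      have a5 : u x * (‖G x‖ * (γ * ‖x‖ ^ (γ - 1)))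
          ≤ γ / (2 * ν) * (‖x‖ ^ γ * ‖G x‖ ^ 2) + (γ * ν / 2) * (‖x‖ ^ (γ - 2) * u x ^ 2) := by
        rw [a4, a3]
        have b0 : 0 ≤ γ / (2 * ν) * ‖x‖ ^ (γ - 2) * (‖x‖ * ‖G x‖ - ν * u x) ^ 2 := by positivity
        have b1 : γ / (2 * ν) * (‖x‖ ^ (γ - 2) * ‖x‖ ^ 2 * ‖G x‖ ^ 2)
            + (γ * ν / 2) * (‖x‖ ^ (γ - 2) * u x ^ 2)
            - u x * (‖G x‖ * (γ * (‖x‖ ^ (γ - 2) * ‖x‖)))
            = γ / (2 * ν) * ‖x‖ ^ (γ - 2) * (‖x‖ * ‖G x‖ - ν * u x) ^ 2 := by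
          field_simp; ring
        linarith
      linarith)
    rw [e1] at this
    simp only [Pi.sub_apply] at this
    rw [integral_sub j2 iK, integral_add j1 iB, integral_sub (iA.const_mul _) (iH.const_mul _),
      integral_const_mul, integral_const_mul] at this
    exact this
  have k3 : (γ * ν / 2) * H ≤ γ / (2 * ν) * A := by
    have : (γ * ν / 2) * H = γ / (2 * ν) * (ν ^ 2 * H) := by field_simp
    rw [this]; gcongr
  have k4 : η * H ≤ β / 2 * A := by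
    have : η * H = β / 2 * (ν ^ 2 * H) := by rw [hη]; ring
    rw [this]; gcongr
  have k5 : β / 2 * A + Ba ≤ Cη * B := by
    have : γ / ν = 2 * (γ / (2 * ν)) := by field_simp
    have h2 : β * A = (1 - γ / (2 * ν)) * A - γ / (2 * ν) * A := by rw [hβ, this]; ring
    linarith
  have k6 : A ≤ (2 / β) * Cη * B := by
    have h1 : β / 2 * A ≤ Cη * B := by linarith
    calc A = (2 / β) * (β / 2 * A) := by field_simp
      _ ≤ (2 / β) * (Cη * B) := by gcongr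
      _ = _ := by ring
  have k7 : H ≤ (ν ^ 2)⁻¹ * ((2 / β) * Cη) * B := by
    rw [mul_assoc, le_inv_mul_iff₀ (by positivity)]; linarith
  have p1 : 0 ≤ (2 / β) * Cη * B := by positivity
  have p2 : 0 ≤ Cη * B := by positivity
  have p3 : 0 ≤ (ν ^ 2)⁻¹ * ((2 / β) * Cη) * B := by positivity
  have p4 : 0 ≤ β / 2 * A := by positivity
  have ex : ((2 / β) * Cη + 2 * Cη + (ν ^ 2)⁻¹ * ((2 / β) * Cη)) * B
      = (2 / β) * Cη * B + 2 * (Cη * B) + (ν ^ 2)⁻¹ * ((2 / β) * Cη) * B := by ring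
  rw [ex]
  refine ⟨⟨iA, ?_⟩, ⟨iB, ?_⟩, ⟨iK, ?_⟩, ⟨iH, ?_⟩⟩ <;> linarith

end Pool.Agent.Lib.MP_a271d0_an.G
end
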