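import Pool.Agent.Lib.MP_a271d0_an.GChart

/-! Spherical shells with the origin on the inner sphere: admissible domains whose boundary has
negative mean curvature at the origin, and which are not star-shaped. -/

set_option autoImplicit false
open MeasureTheory Filter Topology

namespace Pool.Agent.Lib.MP_a271d0_an.Shell

variable {e : EuclideanSpace ℝ (Fin 3)} {R : ℝ}

theorem eq_lt (c : EuclideanSpace ℝ (Fin 3)) (hR : 0 < R) :
    {x | R < ‖x - c‖ ∧ ‖x - c‖ < 2 * R} =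
      {x | (‖x - c‖ ^ 2 - R ^ 2) * (‖x - c‖ ^ 2 - 4 * R ^ 2) < 0} := by
  ext x
  have h := norm_nonneg (x - c)
  simp only [Set.mem_ofPred_eq]
  refine ⟨fun k => mul_neg_of_pos_of_neg (by nlinarith [k.1]) (by nlinarith [k.2]), fun k => ?_⟩
  rcases mul_neg_iff.1 k with k | k
  · exact ⟨by nlinarith [k.1], by nlinarith [k.2]⟩
  · nlinarith [k.1, k.2]

theorem isOpen (c : EuclideanSpace ℝ (Fin 3)) (R : ℝ) :
    IsOpen {x | R < ‖x - c‖ ∧ ‖x - c‖ < 2 * R} :=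
  (isOpen_Ioo (a := R) (b := 2 * R)).preimage (f := fun x => ‖x - c‖) (by fun_prop)

theorem bdd (c : EuclideanSpace ℝ (Fin 3)) (R : ℝ) :
    Bornology.IsBounded {x | R < ‖x - c‖ ∧ ‖x - c‖ < 2 * R} :=
  (Metric.isBounded_ball (x := c) (r := 2 * R)).subset fun _ h => mem_ball_iff_norm.2 h.2

theorem conn (c : EuclideanSpace ℝ (Fin 3)) (hR : 0 < R) :
    IsConnected {x | R < ‖x - c‖ ∧ ‖x - c‖ < 2 * R} := by
  have h1 : 1 < Module.rank ℝ (EuclideanSpace ℝ (Fin 3)) := by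
    rw [← Module.finrank_eq_rank]
    simp
  have h2 := ((isConnected_Ioo (show R < 2 * R by linarith)).prod
    (isConnected_sphere h1 0 zero_le_one)).image (fun p => c + p.1 • p.2) (by fun_prop)
  convert h2 using 1
  ext x
  refine ⟨fun h => ⟨(‖x - c‖, ‖x - c‖⁻¹ • (x - c)), ⟨h, ?_⟩, ?_⟩, ?_⟩
  · simpa using norm_smul_inv_norm (𝕜 := ℝ) (norm_pos_iff.1 (hR.trans h.1))
  · simp [smul_inv_smul₀ (hR.trans h.1).ne']
  · rintro ⟨⟨t, y⟩, ⟨ht, hy⟩, rfl⟩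
    have hy' : ‖y‖ = 1 := by simpa using hy
    simpa [norm_smul, hy', abs_of_pos (hR.trans ht.1)] using ht

theorem smooth (c : EuclideanSpace ℝ (Fin 3)) (hR : 0 < R) :
    ∃ ρ : EuclideanSpace ℝ (Fin 3) → ℝ, ContDiff ℝ ((⊤ : ℕ∞) : WithTop ℕ∞) ρ ∧
      {x | R < ‖x - c‖ ∧ ‖x - c‖ < 2 * R} = {x | ρ x < 0} ∧
      ∀ x ∈ frontier {x | R < ‖x - c‖ ∧ ‖x - c‖ < 2 * R}, fderiv ℝ ρ x ≠ 0 := by
  have h0 : ContDiff ℝ ((⊤ : ℕ∞) : WithTop ℕ∞) fun x : EuclideanSpace ℝ (Fin 3) => ‖x - c‖ ^ 2 :=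
    (contDiff_id.sub contDiff_const).norm_sq ℝ
  refine ⟨_, (h0.sub contDiff_const).mul (h0.sub contDiff_const), eq_lt c hR, fun x hx hz => ?_⟩
  rw [eq_lt c hR] at hx
  have h1 := frontier_lt_subset_eq (by fun_prop) continuous_const hx
  have h2 := ((hasFDerivAt_id x).sub_const c).norm_sq
  have h3 := ((h2.sub_const (R ^ 2)).mul (h2.sub_const (4 * R ^ 2))).fderiv
  have h4 := congrArg (fun L : EuclideanSpace ℝ (Fin 3) →L[ℝ] ℝ => L (x - c)) (h3.symm.trans hz)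
  simp only [id, add_apply, smul_apply, ContinuousLinearMap.comp_apply,
    ContinuousLinearMap.id_apply, innerSL_apply_apply, real_inner_self_eq_norm_sq, smul_eq_mul,
    zero_apply, nsmul_eq_mul, Nat.cast_ofNat] at h4
  have h5 : 0 < R ^ 2 := by positivity
  rcases mul_eq_zero.1 h1 with k | k <;> rw [sub_eq_zero.1 k] at h4 <;> nlinarith

theorem zero_mem (he : ‖e‖ = 1) (hR : 0 < R) : (0 : EuclideanSpace ℝ (Fin 3)) ∈
    frontier {x | R < ‖x - R • e‖ ∧ ‖x - R • e‖ < 2 * R} := by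
  rw [(isOpen _ _).frontier_eq]
  refine ⟨mem_closure_of_tendsto (f := fun t : ℝ => -(t • e)) (b := 𝓝[>] 0) ?_ ?_, fun h => ?_⟩
  · refine Tendsto.mono_left ?_ nhdsWithin_le_nhds
    exact Continuous.tendsto' (by fun_prop) _ _ (by simp)
  · filter_upwards [Ioo_mem_nhdsGT hR] with t ht
    have : ‖-(t • e) - R • e‖ = t + R := by
      rw [← neg_add', norm_neg, ← add_smul, norm_smul, he, mul_one,
        Real.norm_of_nonneg (by linarith [ht.1])]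
    rw [this]
    exact ⟨by linarith [ht.1], by linarith [ht.2]⟩
  · have := h.1
    simp [norm_smul, he, abs_of_pos hR] at this

theorem dilate (e : EuclideanSpace ℝ (Fin 3)) (hR : 0 < R) :
    (fun x => R • x) '' {x | 1 < ‖x - (1 : ℝ) • e‖ ∧ ‖x - (1 : ℝ) • e‖ < 2 * 1} =
      {x | R < ‖x - R • e‖ ∧ ‖x - R • e‖ < 2 * R} := by
  have k : ∀ y : EuclideanSpace ℝ (Fin 3), ‖R • y - R • e‖ = R * ‖y - (1 : ℝ) • e‖ := fun y => by
    rw [one_smul, ← smul_sub, norm_smul, Real.norm_of_nonneg hR.le]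
  ext x
  refine ⟨?_, fun h => ⟨R⁻¹ • x, ?_, smul_inv_smul₀ hR.ne' x⟩⟩
  · rintro ⟨y, hy, rfl⟩
    simp only [Set.mem_ofPred_eq, k]
    exact ⟨by nlinarith [hy.1], by nlinarith [hy.2]⟩
  · have h1 := k (R⁻¹ • x)
    rw [smul_inv_smul₀ hR.ne'] at h1
    simp only [Set.mem_ofPred_eq, h1] at h ⊢
    exact ⟨by nlinarith [h.1], by nlinarith [h.2]⟩

theorem par : G.Par (Module.finrank ℝ (EuclideanSpace ℝ (Fin 3))) 1 4
    (2 * (((3 : ℕ) : ℝ) - 1) / (((3 : ℕ) : ℝ) - 2)) 6 (1 / 2) (1 / 2) := by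
  have hfr : ((Module.finrank ℝ (EuclideanSpace ℝ (Fin 3)) : ℕ) : ℝ) = 3 := by simp
  rw [hfr]
  refine ⟨?_, ?_, ?_, ?_, ?_, ?_, ?_, ?_, ?_, ?_, ?_⟩ <;> norm_num

end Pool.Agent.Lib.MP_a271d0_an.Shell
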